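import Pool.Agent.Lib.MP_f0132d_co.Move52

/-!
Counting tiles in large balls.
-/

namespace Pool.Agent.Lib.MP_f0132d_co.SF52

open Set MeasureTheory

theorem facet_compact {P F : Set E3} (hP : IsCompact P) (hF : IsFacet P F) : IsCompact F :=
  hP.of_isClosed_subset (facet_closed hP.isClosed hF) (facet_sub hF)

theorem wint_move {g : E3 ≃ᵢ E3} {K : Set E3} (hK : IsCompact K) (hne : K.Nonempty) :
    wint (g '' K) = wint K := by
  obtain ⟨A, b, hg⟩ := isom_form g
  rw [← wint_rot A.symm K]
  unfold wint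
  apply setIntegral_congr_fun measurableSet_closedBall
  intro v _
  exact ext_move hg hK hne v

theorem image_facet (g : E3 ≃ᵢ E3) {P F : Set E3} (h : IsFacet P F) :
    IsFacet (g '' P) (g '' F) := by
  have h1 := h.image g.toRealAffineIsometryEquiv.toAffineEquiv
  have h2 : (g.toRealAffineIsometryEquiv.toAffineEquiv : E3 → E3) = g := by
    funext x
    exact congrFun (IsometryEquiv.coeFn_toRealAffineIsometryEquiv g) x
  rw [h2] at h1
  exact h1

theorem image_convex (g : E3 ≃ᵢ E3) {P : Set E3} (h : Convex ℝ P) : Convex ℝ (g '' P) := by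
  have h1 := h.affine_image g.toRealAffineIsometryEquiv.toAffineEquiv.toAffineMap
  have h2 : (g.toRealAffineIsometryEquiv.toAffineEquiv.toAffineMap : E3 → E3) = g := by
    funext x
    exact congrFun (IsometryEquiv.coeFn_toRealAffineIsometryEquiv g) x
  rw [h2] at h1
  exact h1

theorem ext_zero {K : Set E3} (hK : IsCompact K) (hne : K.Nonempty) : ext 0 K = 0 := by
  obtain ⟨D, -, hD⟩ := exists_bound hK
  have h1 := ext_le hK hne hD 0
  have h2 := ext_nonneg hK hne 0
  rw [norm_zero, zero_mul] at h1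
  linarith

/-- the inequality for one direction -/
theorem dir_ineq {P : Set E3} (hPc : IsCompact P) (hPv : Convex ℝ P) (hPi : (interior P).Nonempty)
    {ι : Type*} (g : ι → E3 ≃ᵢ E3) (hcov : (⋃ i, g i '' P) = univ)
    (hdisj : ∀ i j, i ≠ j → Disjoint (interior (g i '' P)) (interior (g j '' P)))
    (Fc : Finset (Set E3)) (hFc : ∀ F ∈ Fc, IsFacet P F) {D : ℝ}
    (hD : ∀ x ∈ P, ∀ y ∈ P, ‖x - y‖ ≤ D) {R : ℝ} (I M : Finset ι)
    (hI : ∀ i, i ∈ I ↔ g i '' P ⊆ Metric.closedBall 0 R)
    (hM : ∀ i, i ∈ M ↔ g i '' P ⊆ Metric.closedBall 0 (R + 1 + D)) (hD0 : 0 ≤ D) (v : E3) :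
    ∑ i ∈ I, ∑ F ∈ Fc, ext v (g i '' F) ≤
      2 * ∑ i ∈ I, ext v (g i '' P) + 4 * ∑ j ∈ M, ext v (g j '' P) := by
  classical
  have hgc : ∀ i, IsCompact (g i '' P) := fun i => hPc.image (g i).continuous
  have hPn : P.Nonempty := hPi.mono interior_subset
  by_cases hv : v = 0
  · subst hv
    have h1 : ∀ i ∈ I, ∀ F ∈ Fc, ext 0 (g i '' F) = 0 := fun i _ F hF =>
      ext_zero ((facet_compact hPc (hFc F hF)).image (g i).continuous)
        ((facet_nonempty (hFc F hF)).image _)
    have h2 : ∀ i, ext 0 (g i '' P) = 0 := fun i => ext_zero (hgc i) (hPn.image _)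
    rw [Finset.sum_congr rfl (fun i hi => Finset.sum_congr rfl (fun F hF => h1 i hi F hF))]
    simp [h2]
  obtain ⟨L, hL⟩ := dirEquiv v hv
  have hLint : ∀ S : Set E3, interior (L '' S) = L '' interior S := fun S =>
    (L.toHomeomorph.image_interior S).symm
  have hgint : ∀ i, interior (g i '' P) = g i '' interior P := fun i =>
    ((g i).toHomeomorph.image_interior P).symm
  have hIM : I ⊆ M := by
    intro i hi
    rw [hM]
    exact ((hI i).1 hi).trans (Metric.closedBall_subset_closedBall (by linarith))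
  have key := width_ineq (fun i => L '' (g i '' P)) I M hIM
    (fun i => Fc.image (fun F => L '' (g i '' F)))
    (fun i _ => (hgc i).image L.continuous)
    (fun i _ => (image_convex (g i) hPv).linear_image L.toLinearMap)
    (fun i _ => by
      rw [hLint, hgint]
      exact (hPi.image _).image _)
    (fun i _ j _ hij => by
      rw [hLint, hLint]
      exact (disjoint_image_iff L.injective).2 (hdisj i j hij))
    (by
      rintro i hi _ ⟨x, hx, rfl⟩
      have hxR : x ∈ Metric.closedBall (0 : E3) R := (hI i).1 hi hx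
      have hopen : IsOpen (L '' Metric.ball (0 : E3) (R + 1)) :=
        L.toHomeomorph.isOpenMap _ Metric.isOpen_ball
      have hmem : L x ∈ L '' Metric.ball (0 : E3) (R + 1) := by
        refine ⟨x, ?_, rfl⟩
        rw [Metric.mem_closedBall] at hxR
        rw [Metric.mem_ball]
        linarith
      obtain ⟨δ, hδ, hb⟩ := Metric.isOpen_iff.1 hopen _ hmem
      refine ⟨δ, hδ, ?_⟩
      intro y' hy'
      obtain ⟨y, hy, rfl⟩ := hb (show y' ∈ Metric.ball (L x) δ by
        rw [Metric.mem_ball, dist_eq_norm]; exact hy')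
      obtain ⟨j, hj⟩ := mem_iUnion.1 (hcov ▸ mem_univ y : y ∈ ⋃ i, g i '' P)
      refine ⟨j, ?_, ⟨y, hj, rfl⟩⟩
      rw [hM]
      intro w hw
      obtain ⟨y₀, hy₀, rfl⟩ := hj
      obtain ⟨w₀, hw₀, rfl⟩ := hw
      rw [mem_ball_zero_iff] at hy
      rw [mem_closedBall_zero_iff]
      have h1 : ‖g j w₀ - g j y₀‖ ≤ D := by
        rw [← dist_eq_norm, (g j).isometry.dist_eq, dist_eq_norm]
        exact hD _ hw₀ _ hy₀
      have h2 : g j w₀ = g j y₀ + (g j w₀ - g j y₀) := by abel
      rw [h2]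
      have h3 := norm_add_le (g j y₀) (g j w₀ - g j y₀)
      linarith)
    (by
      intro i hi F' hF'
      obtain ⟨F, hF, rfl⟩ := Finset.mem_image.1 hF'
      exact (image_facet (g i) (hFc F hF)).image L.toLinearEquiv.toAffineEquiv)
  have hsum : ∀ i ∈ I, ∑ F' ∈ Fc.image (fun F => L '' (g i '' F)), wd F' =
      ∑ F ∈ Fc, ext v (g i '' F) := by
    intro i _
    rw [Finset.sum_image]
    · apply Finset.sum_congr rfl
      intro F _
      exact wd_image hL _
    · intro F _ F' _ h
      exact (g i).injective.image_injective (L.injective.image_injective h)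
  rw [Finset.sum_congr rfl hsum] at key
  simp only [wd_image hL] at key
  exact key

/-- volume packing -/
theorem pack {P : Set E3} {ι : Type*} (g : ι → E3 ≃ᵢ E3)
    (hdisj : ∀ i j, i ≠ j → Disjoint (interior (g i '' P)) (interior (g j '' P)))
    (s : Finset ι) {R : ℝ} (hR : 0 ≤ R) (hs : ∀ i ∈ s, g i '' P ⊆ Metric.closedBall 0 R) :
    (s.card : ℝ) * (volume (interior P)).toReal ≤
      R ^ 3 * (volume (Metric.ball (0 : E3) 1)).toReal := by
  have h1 : ∑ i ∈ s, volume (interior (g i '' P)) ≤ volume (Metric.closedBall (0 : E3) R) := by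
    rw [← measure_biUnion_finset (fun i _ j _ hij => hdisj i j hij)
      (fun i _ => isOpen_interior.measurableSet)]
    apply measure_mono
    intro x hx
    simp only [mem_iUnion] at hx
    obtain ⟨i, hi, hx⟩ := hx
    exact hs i hi (interior_subset hx)
  have h2 : ∀ i ∈ s, volume (interior (g i '' P)) = volume (interior P) := by
    intro i _
    have : interior (g i '' P) = g i '' interior P := ((g i).toHomeomorph.image_interior P).symm
    rw [this, vol_image]
  rw [Finset.sum_congr rfl h2, Finset.sum_const, nsmul_eq_mul,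
    Measure.addHaar_closedBall _ _ hR, finrank_euclideanSpace_fin] at h1
  have h3 := ENNReal.toReal_mono (ENNReal.mul_ne_top ENNReal.ofReal_ne_top
    (measure_ball_lt_top (μ := volume) (x := (0 : E3)) (r := 1)).ne) h1
  rw [ENNReal.toReal_mul, ENNReal.toReal_mul, ENNReal.toReal_ofReal (by positivity),
    ENNReal.toReal_natCast] at h3
  exact h3

theorem no_growth {a c : ℝ} (hc : 0 < c) (f : ℕ → ℝ) (h0 : 1 ≤ f 0)
    (hs : ∀ k, (1 + c) * f k ≤ f (k + 1)) (hb : ∀ k : ℕ, 1 ≤ k → f k ≤ a * (k : ℝ) ^ 3) : False := by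
  have h1 : ∀ k, (1 + c) ^ k ≤ f k := by
    intro k
    induction k with
    | zero => simpa using h0
    | succ k ih =>
      rw [pow_succ]
      have := mul_le_mul_of_nonneg_left ih (by linarith : (0 : ℝ) ≤ 1 + c)
      linarith [hs k]
  have ht := tendsto_pow_const_div_const_pow_of_one_lt 3 (by linarith : (1 : ℝ) < 1 + c)
  have ht2 : Filter.Tendsto (fun n : ℕ => a * ((n : ℝ) ^ 3 / (1 + c) ^ n)) Filter.atTop
      (nhds (a * 0)) := ht.const_mul a
  rw [mul_zero] at ht2
  have hev := ht2.eventually (gt_mem_nhds (show (0 : ℝ) < 1 from one_pos))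
  obtain ⟨k, hk, hk1⟩ := (hev.and (Filter.eventually_ge_atTop 1)).exists
  have hpos : (0 : ℝ) < (1 + c) ^ k := by positivity
  have h2 : (1 + c) ^ k ≤ a * (k : ℝ) ^ 3 := (h1 k).trans (hb k hk1)
  rw [← mul_div_assoc, div_lt_one hpos] at hk
  linarith

/-- **main inequality** -/
theorem facet_ineq {P : Set E3} (hPc : IsCompact P) (hPv : Convex ℝ P)
    (hPi : (interior P).Nonempty)
    {ι : Type*} (g : ι → E3 ≃ᵢ E3) (hcov : (⋃ i, g i '' P) = univ)
    (hdisj : ∀ i j, i ≠ j → Disjoint (interior (g i '' P)) (interior (g j '' P)))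
    (Fc : Finset (Set E3)) (hFc : ∀ F ∈ Fc, IsFacet P F) :
    ∑ F ∈ Fc, wint F ≤ 6 * wint P := by
  classical
  by_contra hcon
  push Not at hcon
  obtain ⟨D, hD0, hD⟩ := exists_bound hPc
  have hPn : P.Nonempty := hPi.mono interior_subset
  set V := (volume (interior P)).toReal with hV
  set β := (volume (Metric.ball (0 : E3) 1)).toReal with hβ
  have hV0 : 0 < V := by
    rw [hV, ENNReal.toReal_pos_iff]
    exact ⟨isOpen_interior.measure_pos volume hPi,
      (measure_mono interior_subset).trans_lt hPc.measure_lt_top⟩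
  have hβ0 : 0 ≤ β := ENNReal.toReal_nonneg
  -- finiteness
  have hfin : ∀ R : ℝ, {i | g i '' P ⊆ Metric.closedBall (0 : E3) R}.Finite := by
    intro R
    by_contra hinf
    rcases lt_or_ge R 0 with hR | hR
    · apply hinf
      have : {i | g i '' P ⊆ Metric.closedBall (0 : E3) R} = ∅ := by
        rw [eq_empty_iff_forall_notMem]
        intro i hi
        obtain ⟨x, hx⟩ := hPn
        have h1 : g i x ∈ Metric.closedBall (0 : E3) R := hi ⟨x, hx, rfl⟩
        rw [Metric.closedBall_eq_empty.2 hR] at h1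
        exact h1
      rw [this]
      exact finite_empty
    obtain ⟨n, hn⟩ := exists_nat_gt (R ^ 3 * β / V)
    obtain ⟨s, hs, hsn⟩ := Set.Infinite.exists_subset_card_eq hinf n
    have h1 := pack g hdisj s hR (fun i hi => hs hi)
    rw [hsn] at h1
    rw [div_lt_iff₀ hV0] at hn
    linarith
  set Ins : ℝ → Finset ι := fun R => (hfin R).toFinset with hIns
  have hInsm : ∀ R i, i ∈ Ins R ↔ g i '' P ⊆ Metric.closedBall (0 : E3) R := by
    intro R i
    rw [hIns]
    simp only [Set.Finite.mem_toFinset]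
    rfl
  have hFk : ∀ F ∈ Fc, IsCompact F := fun F hF => facet_compact hPc (hFc F hF)
  have hFn : ∀ F ∈ Fc, F.Nonempty := fun F hF => facet_nonempty (hFc F hF)
  -- integration over the directions
  have hstep : ∀ R : ℝ, ((Ins R).card : ℝ) * ∑ F ∈ Fc, wint F ≤
      2 * ((Ins R).card * wint P) + 4 * ((Ins (R + 1 + D)).card * wint P) := by
    intro R
    have h1 := fun v : E3 => dir_ineq hPc hPv hPi g hcov hdisj Fc hFc hD (R := R) (Ins R)
      (Ins (R + 1 + D)) (hInsm R) (hInsm (R + 1 + D)) hD0.le v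
    have iF : ∀ i ∈ Ins R, ∀ F ∈ Fc, IntegrableOn (fun v => ext v (g i '' F))
        (Metric.closedBall (0 : E3) 1) := fun i _ F hF =>
      ext_integrable ((hFk F hF).image (g i).continuous) ((hFn F hF).image _)
    have iP : ∀ i, IntegrableOn (fun v => ext v (g i '' P)) (Metric.closedBall (0 : E3) 1) :=
      fun i => ext_integrable (hPc.image (g i).continuous) (hPn.image _)
    have h2 := setIntegral_mono_on (μ := volume) (s := Metric.closedBall (0 : E3) 1)
      (f := fun v => ∑ i ∈ Ins R, ∑ F ∈ Fc, ext v (g i '' F))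
      (g := fun v => 2 * ∑ i ∈ Ins R, ext v (g i '' P) +
        4 * ∑ j ∈ Ins (R + 1 + D), ext v (g j '' P))
      (integrable_finsetSum _ (fun i hi => integrable_finsetSum _ (fun F hF => iF i hi F hF)))
      (((integrable_finsetSum _ (fun i _ => iP i)).const_mul 2).add
        ((integrable_finsetSum _ (fun i _ => iP i)).const_mul 4))
      measurableSet_closedBall (fun v _ => h1 v)
    rw [integral_finsetSum _ (fun i hi => integrable_finsetSum _ (fun F hF => iF i hi F hF)),
      Finset.sum_congr rfl (fun i hi => integral_finsetSum Fc (fun F hF => iF i hi F hF)),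
      integral_add ((integrable_finsetSum _ (fun i _ => iP i)).const_mul 2)
        ((integrable_finsetSum _ (fun i _ => iP i)).const_mul 4),
      integral_const_mul, integral_const_mul,
      integral_finsetSum _ (fun i _ => iP i), integral_finsetSum _ (fun i _ => iP i)] at h2
    have e1 : ∀ i ∈ Ins R, ∑ F ∈ Fc, ∫ v in Metric.closedBall (0 : E3) 1, ext v (g i '' F) =
        ∑ F ∈ Fc, wint F := fun i _ =>
      Finset.sum_congr rfl (fun F hF => wint_move (hFk F hF) (hFn F hF))
    have e2 : ∀ i : ι, ∫ v in Metric.closedBall (0 : E3) 1, ext v (g i '' P) = wint P :=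
      fun i => wint_move hPc hPn
    rw [Finset.sum_congr rfl e1, Finset.sum_congr rfl (fun i _ => e2 i),
      Finset.sum_congr rfl (fun i _ => e2 i), Finset.sum_const, Finset.sum_const,
      Finset.sum_const, nsmul_eq_mul, nsmul_eq_mul, nsmul_eq_mul] at h2
    exact h2
  -- a first tile
  obtain ⟨i₀, hi₀⟩ : ∃ i : ι, True := by
    obtain ⟨i, -⟩ := mem_iUnion.1 (hcov ▸ mem_univ (0 : E3) : (0 : E3) ∈ ⋃ i, g i '' P)
    exact ⟨i, trivial⟩
  obtain ⟨R₀, hR₀⟩ := ((hPc.image (g i₀).continuous).isBounded).subset_closedBall (0 : E3)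
  have hR₀0 : 0 ≤ R₀ := by
    by_contra h
    push Not at h
    rw [Metric.closedBall_eq_empty.2 h] at hR₀
    obtain ⟨x, hx⟩ := hPn
    exact hR₀ ⟨x, hx, rfl⟩
  have hcard0 : 1 ≤ (Ins R₀).card := Finset.card_pos.2 ⟨i₀, (hInsm _ _).2 hR₀⟩
  have hmono : ∀ R S : ℝ, R ≤ S → (Ins R).card ≤ (Ins S).card := by
    intro R S hRS
    apply Finset.card_le_card
    intro i hi
    rw [hInsm] at hi ⊢
    exact hi.trans (Metric.closedBall_subset_closedBall hRS)
  set X := ∑ F ∈ Fc, wint F with hX
  set W := wint P with hW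
  have hW0 : 0 < W := by
    by_contra h
    push Not at h
    have h1 := hstep R₀
    have h2 : (1 : ℝ) ≤ (Ins R₀).card := by exact_mod_cast hcard0
    have h3 : ((Ins R₀).card : ℝ) ≤ (Ins (R₀ + 1 + D)).card := by
      exact_mod_cast hmono _ _ (by linarith)
    have h4 : ((Ins (R₀ + 1 + D)).card : ℝ) * W ≤ (Ins R₀).card * W :=
      mul_le_mul_of_nonpos_right h3 h
    have h5 : ((Ins R₀).card : ℝ) * X ≤ (Ins R₀).card * (6 * W) := by linarith
    have h6 : X ≤ 6 * W := le_of_mul_le_mul_left h5 (by linarith)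
    linarith
  set c := (X - 6 * W) / (4 * W) with hc
  have hc0 : 0 < c := div_pos (by linarith) (by linarith)
  have hcW : c * (4 * W) = X - 6 * W := by
    rw [hc, div_mul_cancel₀ _ (by linarith : (4 * W) ≠ 0)]
  refine no_growth (a := (R₀ + 1 + D) ^ 3 * β / V) hc0
    (fun k => ((Ins (R₀ + k * (1 + D))).card : ℝ)) ?_ ?_ ?_
  · simp only [Nat.cast_zero, zero_mul, add_zero]
    exact_mod_cast hcard0
  · intro k
    have h1 := hstep (R₀ + k * (1 + D))
    have e : R₀ + k * (1 + D) + 1 + D = R₀ + ((k + 1 : ℕ) : ℝ) * (1 + D) := by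
      push_cast; ring
    rw [e] at h1
    change (1 + c) * ((Ins (R₀ + k * (1 + D))).card : ℝ) ≤
      ((Ins (R₀ + ((k + 1 : ℕ) : ℝ) * (1 + D))).card : ℝ)
    set n := ((Ins (R₀ + k * (1 + D))).card : ℝ)
    set m := ((Ins (R₀ + ((k + 1 : ℕ) : ℝ) * (1 + D))).card : ℝ)
    -- n X <= 2 n W + 4 m W
    have h2 : n * (6 * W + c * (4 * W)) ≤ 2 * (n * W) + 4 * (m * W) := by
      rw [hcW]
      linarith
    have h3 : ((1 + c) * n) * (4 * W) ≤ m * (4 * W) := by linarith
    exact le_of_mul_le_mul_right h3 (by linarith)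
  · intro k hk
    have hk1 : (1 : ℝ) ≤ k := by exact_mod_cast hk
    have hR : 0 ≤ R₀ + k * (1 + D) := by positivity
    have h1 := pack g hdisj (Ins (R₀ + k * (1 + D))) hR (fun i hi => (hInsm _ _).1 hi)
    change ((Ins (R₀ + k * (1 + D))).card : ℝ) ≤ _
    rw [div_mul_eq_mul_div, le_div_iff₀ hV0]
    refine h1.trans ?_
    have h2 : R₀ + k * (1 + D) ≤ (R₀ + 1 + D) * k := by nlinarith
    have h3 : (R₀ + k * (1 + D)) ^ 3 ≤ ((R₀ + 1 + D) * k) ^ 3 := pow_le_pow_left₀ hR h2 3
    calc (R₀ + k * (1 + D)) ^ 3 * β ≤ ((R₀ + 1 + D) * k) ^ 3 * β :=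
          mul_le_mul_of_nonneg_right h3 hβ0
      _ = (R₀ + 1 + D) ^ 3 * β * k ^ 3 := by ring

end Pool.Agent.Lib.MP_f0132d_co.SF52
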