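import Pool.Agent.Lib.MP_f0132d_co.MeanW52

/-!
Cones of feasible directions and their volumes.
-/

namespace Pool.Agent.Lib.MP_f0132d_co.SF52

open Set MeasureTheory

/-- the cone of the directions that point into `P` at `x` -/
def fc {V : Type*} [AddCommGroup V] [Module ℝ V] (P : Set V) (x : V) : Set V :=
  {w | ∃ ε : ℝ, 0 < ε ∧ x + ε • w ∈ P}

theorem fc_small {V : Type*} [AddCommGroup V] [Module ℝ V] {P : Set V} (hP : Convex ℝ P) {x w : V}
    (hx : x ∈ P) {ε : ℝ} (h : x + ε • w ∈ P) {δ : ℝ} (h0 : 0 ≤ δ) (h1 : δ ≤ ε) :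
    x + δ • w ∈ P := by
  rcases eq_or_lt_of_le (h0.trans h1) with he | he
  · have : δ = 0 := by linarith
    rw [this, zero_smul, add_zero]
    exact hx
  · have hd : δ / ε ≤ 1 := (div_le_one he).2 h1
    have h2 := hP hx h (a := 1 - δ / ε) (b := δ / ε) (by linarith) (div_nonneg h0 he.le) (by ring)
    have e : (1 - δ / ε) • x + (δ / ε) • (x + ε • w) = x + δ • w := by
      rw [smul_add, smul_smul, div_mul_cancel₀ _ he.ne', sub_smul, one_smul]
      abel
    rw [e] at h2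
    exact h2

theorem fc_inter {V : Type*} [AddCommGroup V] [Module ℝ V] {P Q : Set V} (hP : Convex ℝ P)
    (hQ : Convex ℝ Q) {x : V} (hxP : x ∈ P) (hxQ : x ∈ Q) : fc (P ∩ Q) x = fc P x ∩ fc Q x := by
  ext w
  constructor
  · rintro ⟨ε, h0, h1, h2⟩
    exact ⟨⟨ε, h0, h1⟩, ε, h0, h2⟩
  · rintro ⟨⟨ε, h0, h1⟩, δ, k0, k1⟩
    exact ⟨min ε δ, lt_min h0 k0, fc_small hP hxP h1 (lt_min h0 k0).le (min_le_left _ _),
      fc_small hQ hxQ k1 (lt_min h0 k0).le (min_le_right _ _)⟩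

theorem fc_eq_iUnion {V : Type*} [AddCommGroup V] [Module ℝ V] {P : Set V} (hP : Convex ℝ P)
    {x : V} (hx : x ∈ P) : fc P x = ⋃ m : ℕ, {w | x + ((m : ℝ) + 1)⁻¹ • w ∈ P} := by
  ext w
  rw [mem_iUnion]
  constructor
  · rintro ⟨ε, h0, h1⟩
    obtain ⟨m, hm⟩ := exists_nat_gt (ε⁻¹)
    refine ⟨m, fc_small hP hx h1 (by positivity) ?_⟩
    rw [inv_le_comm₀ (by positivity) h0]
    linarith
  · rintro ⟨m, hm⟩
    exact ⟨_, by positivity, hm⟩

theorem fc_meas {P : Set E3} (hP : Convex ℝ P) (hc : IsClosed P) {x : E3} (hx : x ∈ P) :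
    MeasurableSet (fc P x) := by
  rw [fc_eq_iUnion hP hx]
  apply MeasurableSet.iUnion
  intro m
  exact (hc.preimage (by fun_prop : Continuous fun w : E3 =>
    x + ((m : ℝ) + 1)⁻¹ • w)).measurableSet

theorem null_of_int_empty {S : Set E3} (hS : Convex ℝ S) (hi : interior S = ∅) : volume S = 0 := by
  apply measure_mono_null _ (hS.addHaar_frontier volume)
  intro x hx
  rw [frontier, hi, Set.sdiff_empty]
  exact subset_closure hx

theorem fc_null {P : Set E3} (hP : Convex ℝ P) {x : E3} (hx : x ∈ P) (hi : interior P = ∅) :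
    volume (fc P x) = 0 := by
  rw [fc_eq_iUnion hP hx, measure_iUnion_null_iff]
  intro m
  have hm : ((m : ℝ) + 1)⁻¹ ≠ 0 := by positivity
  set e : E3 ≃ₜ E3 := (Homeomorph.smulOfNeZero _ hm).trans (Homeomorph.addLeft x) with he
  have h1 : {w | x + ((m : ℝ) + 1)⁻¹ • w ∈ P} = e ⁻¹' P := rfl
  rw [h1]
  apply null_of_int_empty
  · intro u hu v hv α β hα hβ hαβ
    change x + ((m : ℝ) + 1)⁻¹ • (α • u + β • v) ∈ P
    have h2 := hP hu hv hα hβ hαβ
    change α • (x + ((m : ℝ) + 1)⁻¹ • u) + β • (x + ((m : ℝ) + 1)⁻¹ • v) ∈ P at h2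
    have e2 : α • (x + ((m : ℝ) + 1)⁻¹ • u) + β • (x + ((m : ℝ) + 1)⁻¹ • v) =
        x + ((m : ℝ) + 1)⁻¹ • (α • u + β • v) := by
      rw [smul_add, smul_add, smul_add, smul_comm α, smul_comm β]
      have : x = (α + β) • x := by rw [hαβ, one_smul]
      conv_rhs => rw [this, add_smul]
      abel
    rw [e2] at h2
    exact h2
  · rw [← e.preimage_interior, hi, preimage_empty]

/-- the unit ball -/
abbrev BB : Set E3 := Metric.closedBall (0 : E3) 1

/-- the volume of the part of the unit ball in the cone of feasible directions -/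
noncomputable def dv (P : Set E3) (x : E3) : ℝ := (volume (fc P x ∩ BB)).toReal

/-- the volume of the unit ball -/
noncomputable def bb : ℝ := (volume BB).toReal

theorem bb_pos : 0 < bb := by
  unfold bb
  rw [ENNReal.toReal_pos_iff]
  exact ⟨Metric.measure_closedBall_pos volume _ one_pos, measure_closedBall_lt_top⟩

theorem inter_BB_ne_top (S : Set E3) : volume (S ∩ BB) ≠ ⊤ :=
  ((measure_mono inter_subset_right).trans_lt measure_closedBall_lt_top).ne

/-- at every point the cones of the tiles fill the space -/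
theorem sum_dv {ι : Type*} [DecidableEq ι] (T : ι → Set E3) (M : Finset ι)
    (hTc : ∀ j ∈ M, IsClosed (T j)) (hTv : ∀ j ∈ M, Convex ℝ (T j))
    (hdisj : ∀ i ∈ M, ∀ j ∈ M, i ≠ j → Disjoint (interior (T i)) (interior (T j)))
    {x : E3} {δ : ℝ} (hδ : 0 < δ) (hcov : ∀ y, ‖y - x‖ < δ → ∃ j ∈ M, y ∈ T j)
    (J : Finset ι) (hJ : ∀ j, j ∈ J ↔ j ∈ M ∧ x ∈ T j) :
    ∑ j ∈ J, dv (T j) x = bb := by
  classical
  -- the other tiles are far away
  obtain ⟨δ', hδ', hfar⟩ : ∃ δ' : ℝ, 0 < δ' ∧ ∀ y : E3, ‖y - x‖ < δ' → ∀ j ∈ M, y ∈ T j → x ∈ T j := by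
    have hopen : IsOpen (⋂ j ∈ (M.filter (fun j => x ∉ T j)), (T j)ᶜ) := by
      apply isOpen_biInter_finset
      intro j hj
      exact (hTc j (Finset.mem_filter.1 hj).1).isOpen_compl
    have hmem : x ∈ (⋂ j ∈ (M.filter (fun j => x ∉ T j)), (T j)ᶜ) := by
      simp only [mem_iInter]
      intro j hj
      exact (Finset.mem_filter.1 hj).2
    obtain ⟨δ', hδ', hb⟩ := Metric.isOpen_iff.1 hopen x hmem
    refine ⟨δ', hδ', ?_⟩
    intro y hy j hj hyj
    by_contra hxj
    have hyb : y ∈ Metric.ball x δ' := by rw [Metric.mem_ball, dist_eq_norm]; exact hy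
    have := hb hyb
    simp only [mem_iInter] at this
    exact this j (Finset.mem_filter.2 ⟨hj, hxj⟩) hyj
  have hunion : BB = ⋃ j ∈ J, (fc (T j) x ∩ BB) := by
    apply Subset.antisymm
    · intro w hw
      have hw1 : ‖w‖ ≤ 1 := by rw [← mem_closedBall_zero_iff]; exact hw
      set c := min δ δ' / 2 with hc
      have hm : 0 < min δ δ' := lt_min hδ hδ'
      have hc0 : 0 < c := by rw [hc]; linarith
      have hcn : ‖x + c • w - x‖ < min δ δ' := by
        rw [add_sub_cancel_left, norm_smul, Real.norm_eq_abs, abs_of_pos hc0]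
        have : c * ‖w‖ ≤ c * 1 := mul_le_mul_of_nonneg_left hw1 hc0.le
        rw [hc] at this ⊢
        linarith
      obtain ⟨j, hj, hjm⟩ := hcov _ (hcn.trans_le (min_le_left _ _))
      have hxj := hfar _ (hcn.trans_le (min_le_right _ _)) j hj hjm
      simp only [mem_iUnion]
      exact ⟨j, (hJ j).2 ⟨hj, hxj⟩, ⟨c, hc0, hjm⟩, hw⟩
    · intro w hw
      simp only [mem_iUnion] at hw
      obtain ⟨j, hj, hw⟩ := hw
      exact hw.2
  have hmeas : ∀ j ∈ J, NullMeasurableSet (fc (T j) x ∩ BB) volume := by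
    intro j hj
    obtain ⟨h1, h2⟩ := (hJ j).1 hj
    exact ((fc_meas (hTv j h1) (hTc j h1) h2).inter measurableSet_closedBall).nullMeasurableSet
  have hae : (J : Set ι).Pairwise (Function.onFun (AEDisjoint volume)
      (fun j => fc (T j) x ∩ BB)) := by
    intro i hi j hj hij
    obtain ⟨h1, h2⟩ := (hJ i).1 hi
    obtain ⟨k1, k2⟩ := (hJ j).1 hj
    change volume ((fc (T i) x ∩ BB) ∩ (fc (T j) x ∩ BB)) = 0
    have hsub : (fc (T i) x ∩ BB) ∩ (fc (T j) x ∩ BB) ⊆ fc (T i ∩ T j) x := by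
      rw [fc_inter (hTv i h1) (hTv j k1) h2 k2]
      rintro w ⟨⟨m1, -⟩, m2, -⟩
      exact ⟨m1, m2⟩
    apply measure_mono_null hsub
    apply fc_null ((hTv i h1).inter (hTv j k1)) ⟨h2, k2⟩
    rw [interior_inter]
    exact (hdisj i h1 j k1 hij).inter_eq
  have hsum : volume BB = ∑ j ∈ J, volume (fc (T j) x ∩ BB) := by
    conv_lhs => rw [hunion]
    exact measure_biUnion_finset₀ hae hmeas
  unfold dv bb
  rw [hsum, ENNReal.toReal_sum (fun j _ => inter_BB_ne_top _)]

theorem fc_image {g : E3 ≃ᵢ E3} {A : E3 ≃ₗᵢ[ℝ] E3} {b : E3} (hg : ∀ x, g x = A x + b)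
    (P : Set E3) (y : E3) : fc (g '' P) (g y) = A '' (fc P y) := by
  ext w
  constructor
  · rintro ⟨ε, h0, z, hz, hz'⟩
    refine ⟨A.symm w, ⟨ε, h0, ?_⟩, A.apply_symm_apply w⟩
    have : z = y + ε • A.symm w := by
      apply g.injective
      rw [hz', hg, hg, map_add, map_smul, A.apply_symm_apply]
      abel
    rw [← this]
    exact hz
  · rintro ⟨u, ⟨ε, h0, h1⟩, rfl⟩
    refine ⟨ε, h0, y + ε • u, h1, ?_⟩
    rw [hg, hg, map_add, map_smul]
    abel

theorem vol_rot (A : E3 ≃ₗᵢ[ℝ] E3) (S : Set E3) : volume (A '' S ∩ BB) = volume (S ∩ BB) := by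
  have h1 : A '' S ∩ BB = A '' (S ∩ BB) := by
    rw [image_inter A.injective]
    congr 1
    ext w
    constructor
    · intro hw
      refine ⟨A.symm w, ?_, A.apply_symm_apply w⟩
      rw [mem_closedBall_zero_iff] at hw ⊢
      rw [A.symm.norm_map]
      exact hw
    · rintro ⟨u, hu, rfl⟩
      rw [mem_closedBall_zero_iff] at hu ⊢
      rw [A.norm_map]
      exact hu
  rw [h1]
  have h2 : A '' (S ∩ BB) = A.symm ⁻¹' (S ∩ BB) := A.toEquiv.image_eq_preimage_symm _
  rw [h2]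
  exact A.symm.measurePreserving.measure_preimage_emb A.symm.toHomeomorph.measurableEmbedding _

theorem dv_image (g : E3 ≃ᵢ E3) (P : Set E3) (y : E3) : dv (g '' P) (g y) = dv P y := by
  obtain ⟨A, b, hg⟩ := isom_form g
  unfold dv
  rw [fc_image hg, vol_rot]

end Pool.Agent.Lib.MP_f0132d_co.SF52
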