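import Pool.Agent.Lib.MP_f0132d_co.Planar52

/-!
Sides of a convex polygon that start at the same point.
-/

namespace Pool.Agent.Lib.MP_f0132d_co.SF52

open Set

theorem cone_rep (φ₁ φ₂ : ℝ × ℝ →ₗ[ℝ] ℝ) (u w x : ℝ × ℝ) (hu : φ₁ u = 0) (hw : φ₂ w = 0)
    (h1 : φ₁ w < 0) (h2 : φ₂ u < 0) (hx1 : φ₁ x ≤ 0) (hx2 : φ₂ x ≤ 0) :
    ∃ s t : ℝ, 0 ≤ s ∧ 0 ≤ t ∧ x = s • u + t • w := by
  set D := u.1 * w.2 - u.2 * w.1 with hD
  have hD0 : D ≠ 0 := by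
    intro h0
    have e1 := lin_apply φ₁ u
    have e2 := lin_apply φ₁ w
    rw [hu] at e1
    have k1 : φ₁ w * u.1 = 0 := by
      rw [e2]
      linear_combination (φ₁ (0, 1)) * h0 - w.1 * e1
    have k2 : φ₁ w * u.2 = 0 := by
      rw [e2]
      linear_combination (-φ₁ (1, 0)) * h0 - w.2 * e1
    have u1 : u.1 = 0 := (mul_eq_zero.1 k1).resolve_left h1.ne
    have u2 : u.2 = 0 := (mul_eq_zero.1 k2).resolve_left h1.ne
    have : u = 0 := Prod.ext u1 u2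
    rw [this, map_zero] at h2
    exact lt_irrefl _ h2
  set s := (x.1 * w.2 - x.2 * w.1) / D with hs
  set t := (u.1 * x.2 - u.2 * x.1) / D with ht
  have hx : x = s • u + t • w := by
    ext
    · simp only [Prod.fst_add, Prod.smul_fst, smul_eq_mul, hs, ht]
      field_simp
      rw [hD]
      ring
    · simp only [Prod.snd_add, Prod.smul_snd, smul_eq_mul, hs, ht]
      field_simp
      rw [hD]
      ring
  refine ⟨s, t, ?_, ?_, hx⟩
  · have : φ₂ x = s * φ₂ u := by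
      conv_lhs => rw [hx]
      rw [map_add, map_smul, map_smul, hw, smul_eq_mul, smul_eq_mul]
      ring
    rw [this] at hx2
    by_contra hc
    push Not at hc
    have := mul_pos_of_neg_of_neg hc h2
    linarith
  · have : φ₁ x = t * φ₁ w := by
      conv_lhs => rw [hx]
      rw [map_add, map_smul, map_smul, hu, smul_eq_mul, smul_eq_mul]
      ring
    rw [this] at hx1
    by_contra hc
    push Not at hc
    have := mul_pos_of_neg_of_neg hc h1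
    linarith

/-- a side of `Q` that starts at `A` (in the lexicographic order) -/
structure Up (Q : Set (ℝ × ℝ)) (A B : ℝ × ℝ) (φ : ℝ × ℝ →ₗ[ℝ] ℝ) : Prop where
  mem : B ∈ Q
  pos : Pos (B - A)
  le : ∀ q ∈ Q, φ q ≤ φ A
  eq : φ B = φ A

theorem up_cone {Q : Set (ℝ × ℝ)} {A B₁ B₂ : ℝ × ℝ} {φ₁ φ₂ : ℝ × ℝ →ₗ[ℝ] ℝ}
    (h1 : Up Q A B₁ φ₁) (h2 : Up Q A B₂ φ₂) (n1 : φ₁ B₂ < φ₁ A) (n2 : φ₂ B₁ < φ₂ A)
    {q : ℝ × ℝ} (hq : q ∈ Q) :
    ∃ s t : ℝ, 0 ≤ s ∧ 0 ≤ t ∧ q - A = s • (B₁ - A) + t • (B₂ - A) := by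
  apply cone_rep φ₁ φ₂
  · rw [map_sub, h1.eq, sub_self]
  · rw [map_sub, h2.eq, sub_self]
  · rw [map_sub]; linarith
  · rw [map_sub]; linarith
  · rw [map_sub]; linarith [h1.le q hq]
  · rw [map_sub]; linarith [h2.le q hq]

/-- two sides start at `A`: then `A` is the first point -/
theorem first_of_two {Q : Set (ℝ × ℝ)} {A B₁ B₂ : ℝ × ℝ} {φ₁ φ₂ : ℝ × ℝ →ₗ[ℝ] ℝ}
    (h1 : Up Q A B₁ φ₁) (h2 : Up Q A B₂ φ₂) (n1 : φ₁ B₂ < φ₁ A) (n2 : φ₂ B₁ < φ₂ A) :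
    ∀ q ∈ Q, q = A ∨ Pos (q - A) := by
  intro q hq
  obtain ⟨s, t, hs, ht, e⟩ := up_cone h1 h2 n1 n2 hq
  rcases eq_or_lt_of_le hs with hs' | hs' <;> rcases eq_or_lt_of_le ht with ht' | ht'
  · left
    rw [← hs', ← ht', zero_smul, zero_smul, add_zero] at e
    exact sub_eq_zero.1 e
  · right
    rw [e, ← hs', zero_smul, zero_add]
    exact h2.pos.smul ht'
  · right
    rw [e, ← ht', zero_smul, add_zero]
    exact h1.pos.smul hs'
  · right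
    rw [e]
    exact (h1.pos.smul hs').add (h2.pos.smul ht')

/-- three different sides cannot start at the same point -/
theorem no_three_up {Q : Set (ℝ × ℝ)} {A B₁ B₂ B₃ : ℝ × ℝ} {φ₁ φ₂ φ₃ : ℝ × ℝ →ₗ[ℝ] ℝ}
    (h1 : Up Q A B₁ φ₁) (h2 : Up Q A B₂ φ₂) (h3 : Up Q A B₃ φ₃)
    (n12 : φ₁ B₂ < φ₁ A) (n21 : φ₂ B₁ < φ₂ A) (n13 : φ₁ B₃ < φ₁ A) (n31 : φ₃ B₁ < φ₃ A)
    (n23 : φ₂ B₃ < φ₂ A) (n32 : φ₃ B₂ < φ₃ A) : False := by
  obtain ⟨s, t, hs, ht, e⟩ := up_cone h1 h2 n12 n21 h3.mem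
  have k3 : φ₃ (B₃ - A) = 0 := by rw [map_sub, h3.eq, sub_self]
  have k1 : φ₁ (B₃ - A) < 0 := by rw [map_sub]; linarith
  have k2 : φ₂ (B₃ - A) < 0 := by rw [map_sub]; linarith
  have a1 : φ₁ (B₁ - A) = 0 := by rw [map_sub, h1.eq, sub_self]
  have a2 : φ₂ (B₂ - A) = 0 := by rw [map_sub, h2.eq, sub_self]
  have b1 : φ₃ (B₁ - A) < 0 := by rw [map_sub]; linarith
  have b2 : φ₃ (B₂ - A) < 0 := by rw [map_sub]; linarith
  rw [e, map_add, map_smul, map_smul, smul_eq_mul, smul_eq_mul] at k1 k2 k3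
  rw [a1] at k1
  rw [a2] at k2
  have c1 : φ₁ (B₂ - A) < 0 := by rw [map_sub]; linarith
  have c2 : φ₂ (B₁ - A) < 0 := by rw [map_sub]; linarith
  have ht' : 0 < t := by
    rcases eq_or_lt_of_le ht with h | h
    · rw [← h] at k1; simp at k1
    · exact h
  have hs' : 0 < s := by
    rcases eq_or_lt_of_le hs with h | h
    · rw [← h] at k2; simp at k2
    · exact h
  have := mul_neg_of_pos_of_neg hs' b1
  have := mul_neg_of_pos_of_neg ht' b2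
  linarith

end Pool.Agent.Lib.MP_f0132d_co.SF52
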