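import Pool.Agent.Lib.MP_f0132d_co.Slice52

/-!
The inequality at one height.
-/

namespace Pool.Agent.Lib.MP_f0132d_co.SF52

open Set

theorem facet_up {T F : Set (ℝ × (ℝ × ℝ))} (hTc : IsCompact T) (hTv : Convex ℝ T)
    (hF : IsFacet T F) {z : ℝ} (hz : Cr z F) :
    ∃ B : ℝ × ℝ, ∃ ψ : ℝ × ℝ →ₗ[ℝ] ℝ, Up (sl z T) (lx (sl z F)) B ψ ∧ lx (sl z F) ∈ sl z F ∧
      B ∈ sl z F ∧ ∀ p ∈ sl z T, ψ p = ψ (lx (sl z F)) → p ∈ sl z F := by
  obtain ⟨p, hp, q, hq, hpq⟩ := two_points (facet_convex hTv hF) hF.2 hz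
  have hFc : IsCompact F :=
    hTc.of_isClosed_subset (facet_closed hTc.isClosed hF) (facet_sub hF)
  obtain ⟨hA, hA'⟩ := lx_spec (sl_compact hFc z) ⟨p, hp⟩
  set A := lx (sl z F) with hAdef
  obtain ⟨B, hB, hBA⟩ : ∃ B ∈ sl z F, Pos (B - A) := by
    rcases hA' p hp with h | h
    · rcases hA' q hq with h' | h'
      · exact absurd (h.trans h'.symm) hpq
      · exact ⟨q, hq, h'⟩
    · exact ⟨p, hp, h⟩
  obtain ⟨⟨φ, hφ, eF⟩, -⟩ := id hF
  have hmemF : ∀ x, x ∈ F → x ∈ T ∧ ∀ y ∈ T, φ y ≤ φ x := fun x hx => by rw [eF] at hx; exact hx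
  refine ⟨B, pl φ, ⟨facet_sub hF hB, hBA, ?_, ?_⟩, hA, hB, ?_⟩
  · intro q hq
    have h1 := (hmemF _ hA).2 _ hq
    have h2 := pl_diff φ z q A
    linarith
  · have h1 := (hmemF _ hA).2 _ (hmemF _ hB).1
    have h1' := (hmemF _ hB).2 _ (hmemF _ hA).1
    have h2 := pl_diff φ z B A
    linarith
  · intro p hp h
    have h2 := pl_diff φ z p A
    change (z, p) ∈ F
    rw [eF]
    refine ⟨hp, ?_⟩
    intro y hy
    have h1 := (hmemF _ hA).2 _ hy
    linarith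

theorem facet_ext {T F : Set (ℝ × (ℝ × ℝ))} (hTc : IsCompact T) (hTv : Convex ℝ T)
    (hF : IsFacet T F) {z : ℝ} (hz : Cr z F) : Ext (sl z T) (lx (sl z F)) := by
  obtain ⟨B, ψ, hU, hA, hB, hback⟩ := facet_up hTc hTv hF hz
  have hFc : IsCompact F :=
    hTc.of_isClosed_subset (facet_closed hTc.isClosed hF) (facet_sub hF)
  obtain ⟨-, hA'⟩ := lx_spec (sl_compact hFc z) ⟨B, hB⟩
  refine ⟨facet_sub hF hA, ?_⟩
  intro v h1 h2
  have k1 := hU.le _ h1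
  have k2 := hU.le _ h2
  rw [map_add] at k1
  rw [map_sub] at k2
  have k3 : ψ v = 0 := by linarith
  have m1 := hback _ h1 (by rw [map_add, k3, add_zero])
  have m2 := hback _ h2 (by rw [map_sub, k3, sub_zero])
  rcases hA' _ m1 with h | h
  · simpa using h
  · rcases hA' _ m2 with h' | h'
    · simpa using h'
    · rw [add_sub_cancel_left] at h
      rw [sub_sub_cancel_left] at h'
      exact absurd h' h.not_neg

theorem facet_straddle {T F : Set (ℝ × (ℝ × ℝ))} (hTc : IsCompact T) (hTv : Convex ℝ T)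
    (hTi : (interior T).Nonempty) (hF : IsFacet T F) {z : ℝ} (hz : Cr z F)
    (hne : lx (sl z F) ≠ lx (sl z T)) : Straddle (sl z T) (lx (sl z F)) := by
  have hE := facet_ext hTc hTv hF hz
  obtain ⟨B, ψ, hU, hA, hB, hback⟩ := facet_up hTc hTv hF hz
  refine ⟨sl_convex hTv z, sl_int_nonempty hTv hTi (hz.mono (facet_sub hF)), hE.1, hE.nint, ?_,
    ⟨B, hU.mem, hU.pos⟩⟩
  obtain ⟨h1, h2⟩ := lx_spec (sl_compact hTc z) ⟨_, hE.1⟩
  exact ⟨_, h1, (h2 _ hE.1).resolve_left hne⟩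

theorem tile_count {T : Set (ℝ × (ℝ × ℝ))} (hTc : IsCompact T) (hTv : Convex ℝ T) {z : ℝ}
    (G : Finset (Set (ℝ × (ℝ × ℝ)))) (hG : ∀ F ∈ G, IsFacet T F) (hC : ∀ F ∈ G, Cr z F)
    (hpair : ∀ F ∈ G, ∀ F' ∈ G, F ≠ F' → ∀ p q, (z, p) ∈ F ∩ F' → (z, q) ∈ F ∩ F' → p = q)
    (E : Finset (ℝ × ℝ))
    (hE : ∀ F ∈ G, lx (sl z F) ≠ lx (sl z T) → lx (sl z F) ∈ E) :
    G.card ≤ E.card + 2 := by
  classical
  have hlt : ∀ F₁ ∈ G, ∀ F₂ ∈ G, F₁ ≠ F₂ → lx (sl z F₁) = lx (sl z F₂) →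
      ∀ (B₂ : ℝ × ℝ) (ψ₁ ψ₂ : ℝ × ℝ →ₗ[ℝ] ℝ), Up (sl z T) (lx (sl z F₁)) B₂ ψ₂ →
      B₂ ∈ sl z F₂ → lx (sl z F₁) ∈ sl z F₁ → lx (sl z F₂) ∈ sl z F₂ →
      (∀ p ∈ sl z T, ψ₁ p ≤ ψ₁ (lx (sl z F₁))) →
      (∀ p ∈ sl z T, ψ₁ p = ψ₁ (lx (sl z F₁)) → p ∈ sl z F₁) →
      ψ₁ B₂ < ψ₁ (lx (sl z F₁)) := by
    intro F₁ h1 F₂ h2 hne heq B₂ ψ₁ ψ₂ hU hB hA1 hA2 hle hback
    refine lt_of_le_of_ne (hle _ hU.mem) ?_
    intro hcon
    have hm := hback _ hU.mem hcon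
    rw [← heq] at hA2
    have := hpair F₁ h1 F₂ h2 hne B₂ (lx (sl z F₁)) ⟨hm, hB⟩ ⟨hA1, hA2⟩
    exact hU.pos.ne_zero (by rw [this, sub_self])
  have hsplit := Finset.card_filter_add_card_filter_not (s := G)
    (fun F => lx (sl z F) ≠ lx (sl z T))
  have h1 : (G.filter (fun F => lx (sl z F) ≠ lx (sl z T))).card ≤ E.card := by
    have hinj : Set.InjOn (fun F => lx (sl z F))
        (G.filter (fun F => lx (sl z F) ≠ lx (sl z T)) : Finset (Set (ℝ × (ℝ × ℝ)))) := by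
      intro F₁ hF₁ F₂ hF₂ heq
      rw [Finset.mem_coe, Finset.mem_filter] at hF₁ hF₂
      change lx (sl z F₁) = lx (sl z F₂) at heq
      by_contra hne
      obtain ⟨B₁, ψ₁, hU₁, hA₁, hB₁, hb₁⟩ :=
        facet_up hTc hTv (hG _ hF₁.1) (hC _ hF₁.1)
      obtain ⟨B₂, ψ₂, hU₂, hA₂, hB₂, hb₂⟩ :=
        facet_up hTc hTv (hG _ hF₂.1) (hC _ hF₂.1)
      have hU₂' : Up (sl z T) (lx (sl z F₁)) B₂ ψ₂ := by rw [heq]; exact hU₂
      have hU₁' : Up (sl z T) (lx (sl z F₂)) B₁ ψ₁ := by rw [← heq]; exact hU₁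
      have n12 := hlt F₁ hF₁.1 F₂ hF₂.1 hne heq B₂ ψ₁ ψ₂ hU₂' hB₂ hA₁ hA₂ hU₁.le hb₁
      have n21 := hlt F₂ hF₂.1 F₁ hF₁.1 (Ne.symm hne) heq.symm B₁ ψ₂ ψ₁ hU₁' hB₁ hA₂ hA₁ hU₂.le hb₂
      rw [← heq] at n21
      have hfirst := first_of_two hU₁ hU₂' n12 n21
      exact hF₁.2 (lx_unique (sl_compact hTc z) (facet_sub (hG _ hF₁.1) hA₁) hfirst)
    rw [← Finset.card_image_of_injOn hinj]
    apply Finset.card_le_card
    intro p hp
    rw [Finset.mem_image] at hp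
    obtain ⟨F, hF, rfl⟩ := hp
    rw [Finset.mem_filter] at hF
    exact hE F hF.1 hF.2
  have h2 : (G.filter (fun F => ¬ (lx (sl z F) ≠ lx (sl z T)))).card ≤ 2 := by
    by_contra hcon
    push Not at hcon
    obtain ⟨F₁, m₁, F₂, m₂, F₃, m₃, n12, n13, n23⟩ := Finset.two_lt_card.1 hcon
    rw [Finset.mem_filter] at m₁ m₂ m₃
    obtain ⟨B₁, ψ₁, hU₁, hA₁, hB₁, hb₁⟩ := facet_up hTc hTv (hG _ m₁.1) (hC _ m₁.1)
    obtain ⟨B₂, ψ₂, hU₂, hA₂, hB₂, hb₂⟩ := facet_up hTc hTv (hG _ m₂.1) (hC _ m₂.1)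
    obtain ⟨B₃, ψ₃, hU₃, hA₃, hB₃, hb₃⟩ := facet_up hTc hTv (hG _ m₃.1) (hC _ m₃.1)
    have e12 : lx (sl z F₁) = lx (sl z F₂) := m₁.2.trans m₂.2.symm
    have e13 : lx (sl z F₁) = lx (sl z F₃) := m₁.2.trans m₃.2.symm
    have e23 : lx (sl z F₂) = lx (sl z F₃) := m₂.2.trans m₃.2.symm
    have a12 := hlt F₁ m₁.1 F₂ m₂.1 n12 e12 B₂ ψ₁ ψ₂ (by rw [e12]; exact hU₂) hB₂ hA₁ hA₂ hU₁.le hb₁
    have a13 := hlt F₁ m₁.1 F₃ m₃.1 n13 e13 B₃ ψ₁ ψ₃ (by rw [e13]; exact hU₃) hB₃ hA₁ hA₃ hU₁.le hb₁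
    have a21 := hlt F₂ m₂.1 F₁ m₁.1 (Ne.symm n12) e12.symm B₁ ψ₂ ψ₁ (by rw [← e12]; exact hU₁) hB₁
      hA₂ hA₁ hU₂.le hb₂
    have a23 := hlt F₂ m₂.1 F₃ m₃.1 n23 e23 B₃ ψ₂ ψ₃ (by rw [e23]; exact hU₃) hB₃ hA₂ hA₃ hU₂.le hb₂
    have a31 := hlt F₃ m₃.1 F₁ m₁.1 (Ne.symm n13) e13.symm B₁ ψ₃ ψ₁ (by rw [← e13]; exact hU₁) hB₁
      hA₃ hA₁ hU₃.le hb₃
    have a32 := hlt F₃ m₃.1 F₂ m₂.1 (Ne.symm n23) e23.symm B₂ ψ₃ ψ₂ (by rw [← e23]; exact hU₂) hB₂
      hA₃ hA₂ hU₃.le hb₃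
    rw [← e12] at a21 a23
    rw [← e13] at a31 a32
    exact no_three_up hU₁ (by rw [e12]; exact hU₂) (by rw [e13]; exact hU₃) a12 a21 a13 a31 a23 a32
  omega

/-- good heights -/
structure Good {ι : Type*} (T : ι → Set (ℝ × (ℝ × ℝ))) (I M : Finset ι)
    (Fc : ι → Finset (Set (ℝ × (ℝ × ℝ)))) (z : ℝ) : Prop where
  cross : ∀ j ∈ M, (sl z (T j)).Nonempty → Cr z (T j)
  pair : ∀ i ∈ I, ∀ F ∈ Fc i, ∀ F' ∈ Fc i, F ≠ F' → ∀ p q, (z, p) ∈ F ∩ F' →
    (z, q) ∈ F ∩ F' → p = q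

open Classical in
theorem height_ineq {ι : Type*} (T : ι → Set (ℝ × (ℝ × ℝ))) (I M : Finset ι) (hIM : I ⊆ M)
    (Fc : ι → Finset (Set (ℝ × (ℝ × ℝ))))
    (hTc : ∀ j ∈ M, IsCompact (T j)) (hTv : ∀ j ∈ M, Convex ℝ (T j))
    (hTi : ∀ j ∈ M, (interior (T j)).Nonempty)
    (hdisj : ∀ i ∈ M, ∀ j ∈ M, i ≠ j → Disjoint (interior (T i)) (interior (T j)))
    (hcov : ∀ i ∈ I, ∀ x ∈ T i, ∃ δ : ℝ, 0 < δ ∧ ∀ y, ‖y - x‖ < δ → ∃ j ∈ M, y ∈ T j)
    (hFc : ∀ i ∈ I, ∀ F ∈ Fc i, IsFacet (T i) F) {z : ℝ} (hg : Good T I M Fc z) :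
    ∑ i ∈ I, ((Fc i).filter (Cr z)).card ≤
      2 * (I.filter (fun i => Cr z (T i))).card + 4 * (M.filter (fun j => Cr z (T j))).card := by
  -- the vertices
  set E : ι → Finset (ℝ × ℝ) := fun i =>
    (((Fc i).filter (Cr z)).filter (fun F => lx (sl z F) ≠ lx (sl z (T i)))).image
      (fun F => lx (sl z F)) with hE
  have hEmem : ∀ i ∈ I, ∀ p ∈ E i, Ext (sl z (T i)) p ∧ Straddle (sl z (T i)) p := by
    intro i hi p hp
    rw [hE] at hp
    simp only [Finset.mem_image, Finset.mem_filter] at hp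
    obtain ⟨F, ⟨⟨hF, hz⟩, hne⟩, rfl⟩ := hp
    exact ⟨facet_ext (hTc i (hIM hi)) (hTv i (hIM hi)) (hFc i hi F hF) hz,
      facet_straddle (hTc i (hIM hi)) (hTv i (hIM hi)) (hTi i (hIM hi)) (hFc i hi F hF) hz hne⟩
  -- slices have disjoint interiors
  have hsd : ∀ i ∈ M, ∀ j ∈ M, i ≠ j → Cr z (T i) → Cr z (T j) →
      Disjoint (interior (sl z (T i))) (interior (sl z (T j))) := by
    intro i hi j hj hij ci cj
    rw [Set.disjoint_left]
    intro p h1 h2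
    exact Set.disjoint_left.1 (hdisj i hi j hj hij)
      (sl_int_sub (hTv i hi) (hTi i hi) ci h1) (sl_int_sub (hTv j hj) (hTi j hj) cj h2)
  have hstep1 : ∀ i ∈ I, ((Fc i).filter (Cr z)).card ≤
      (E i).card + (if Cr z (T i) then 2 else 0) := by
    intro i hi
    by_cases hcr : Cr z (T i)
    · rw [if_pos hcr]
      refine tile_count (z := z) (hTc i (hIM hi)) (hTv i (hIM hi)) _ ?_ ?_ ?_ (E i) ?_
      · intro F hF
        exact hFc i hi F (Finset.mem_filter.1 hF).1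
      · intro F hF
        exact (Finset.mem_filter.1 hF).2
      · intro F hF F' hF' hne p q hp hq
        exact hg.pair i hi F (Finset.mem_filter.1 hF).1 F' (Finset.mem_filter.1 hF').1 hne p q hp hq
      · intro F hF hne
        rw [hE]
        exact Finset.mem_image.2 ⟨F, Finset.mem_filter.2 ⟨hF, hne⟩, rfl⟩
    · have : (Fc i).filter (Cr z) = ∅ := by
        rw [Finset.filter_eq_empty_iff]
        intro F hF hz
        exact hcr (hz.mono (facet_sub (hFc i hi F hF)))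
      rw [this]
      simp
  set S : Finset (ℝ × ℝ) := I.biUnion E with hS
  have hstep2 : ∑ i ∈ I, (E i).card ≤ 2 * S.card := by
    have h1 : ∀ i ∈ I, (E i).card = (S.bipartiteAbove (fun i p => p ∈ E i) i).card := by
      intro i hi
      congr 1
      ext p
      simp only [Finset.mem_bipartiteAbove, hS, Finset.mem_biUnion]
      exact ⟨fun h => ⟨⟨i, hi, h⟩, h⟩, fun h => h.2⟩
    rw [Finset.sum_congr rfl h1, Finset.sum_card_bipartiteAbove_eq_sum_card_bipartiteBelow]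
    calc ∑ p ∈ S, (I.bipartiteBelow (fun i p => p ∈ E i) p).card ≤ ∑ p ∈ S, 2 := by
          apply Finset.sum_le_sum
          intro p _
          by_contra hcon
          push Not at hcon
          obtain ⟨a, ha, b, hb, c, hc, hab, hac, hbc⟩ := Finset.two_lt_card.1 hcon
          rw [Finset.mem_bipartiteBelow] at ha hb hc
          have sa := (hEmem a ha.1 p ha.2).2
          have sb := (hEmem b hb.1 p hb.2).2
          have sc := (hEmem c hc.1 p hc.2).2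
          have ca := hg.cross a (hIM ha.1) ⟨p, sa.mem⟩
          have cb := hg.cross b (hIM hb.1) ⟨p, sb.mem⟩
          have cc := hg.cross c (hIM hc.1) ⟨p, sc.mem⟩
          exact no_three sa sb sc (hsd a (hIM ha.1) b (hIM hb.1) hab ca cb)
            (hsd a (hIM ha.1) c (hIM hc.1) hac ca cc) (hsd b (hIM hb.1) c (hIM hc.1) hbc cb cc)
      _ = 2 * S.card := by rw [Finset.sum_const, smul_eq_mul]; ring
  have hstep3 : S.card ≤ 2 * (M.filter (fun j => Cr z (T j))).card := by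
    set N := M.filter (fun j => Cr z (T j)) with hN
    have hsub : S ⊆ N.image (fun j => lx (sl z (T j))) ∪ N.image (fun j => ux (sl z (T j))) := by
      intro p hp
      rw [hS, Finset.mem_biUnion] at hp
      obtain ⟨i, hi, hpE⟩ := hp
      obtain ⟨hext, hst⟩ := hEmem i hi p hpE
      obtain ⟨δ, hδ, hcv⟩ := hcov i hi (z, p) hst.mem
      -- tiles that contain the point
      set J := M.filter (fun j => p ∈ sl z (T j)) with hJ
      -- a smaller neighbourhood avoids the other tiles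
      have hfar : ∃ δ' : ℝ, 0 < δ' ∧ ∀ q : ℝ × ℝ, ‖q - p‖ < δ' → ∀ j ∈ M, q ∈ sl z (T j) →
          p ∈ sl z (T j) := by
        have hopen : IsOpen (⋂ j ∈ (M.filter (fun j => p ∉ sl z (T j))), (sl z (T j))ᶜ) := by
          apply isOpen_biInter_finset
          intro j hj
          exact (sl_closed (hTc j (Finset.mem_filter.1 hj).1).isClosed z).isOpen_compl
        have hmem : p ∈ (⋂ j ∈ (M.filter (fun j => p ∉ sl z (T j))), (sl z (T j))ᶜ) := by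
          simp only [mem_iInter]
          intro j hj
          exact (Finset.mem_filter.1 hj).2
        obtain ⟨δ', hδ', hb⟩ := Metric.isOpen_iff.1 hopen p hmem
        refine ⟨δ', hδ', ?_⟩
        intro q hq j hj hqj
        by_contra hpj
        have hqb : q ∈ Metric.ball p δ' := by rw [Metric.mem_ball, dist_eq_norm]; exact hq
        have := hb hqb
        simp only [mem_iInter] at this
        exact this j (Finset.mem_filter.2 ⟨hj, hpj⟩) hqj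
      obtain ⟨δ', hδ', hf⟩ := hfar
      have hpJ : ∀ j ∈ J, p ∈ sl z (T j) := fun j hj => (Finset.mem_filter.1 hj).2
      have hJM : ∀ j ∈ J, j ∈ M := fun j hj => (Finset.mem_filter.1 hj).1
      have hJC : ∀ j ∈ J, Cr z (T j) := fun j hj => hg.cross j (hJM j hj) ⟨p, hpJ j hj⟩
      obtain ⟨j, hj, hfl⟩ := exists_first_last J (fun j => sl z (T j)) p
        (fun j hj => sl_closed (hTc j (hJM j hj)).isClosed z)
        (fun j hj => sl_convex (hTv j (hJM j hj)) z)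
        (fun j hj => sl_int_nonempty (hTv j (hJM j hj)) (hTi j (hJM j hj)) (hJC j hj))
        hpJ
        (fun i hi j hj hij => hsd i (hJM i hi) j (hJM j hj) hij (hJC i hi) (hJC j hj))
        (δ := min δ δ') (lt_min hδ hδ')
        (by
          intro q hq
          have e : ((z, q) : ℝ × (ℝ × ℝ)) - (z, p) = (0, q - p) := by ext <;> simp
          have hn : ‖((z, q) : ℝ × (ℝ × ℝ)) - (z, p)‖ = ‖q - p‖ := by
            rw [e, Prod.norm_def]
            simp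
          obtain ⟨j, hj, hqj⟩ := hcv (z, q) (by rw [hn]; exact hq.trans_le (min_le_left _ _))
          exact ⟨j, Finset.mem_filter.2
            ⟨hj, hf q (hq.trans_le (min_le_right _ _)) j hj hqj⟩, hqj⟩)
        (j₀ := i) (Finset.mem_filter.2 ⟨hIM hi, hst.mem⟩) hext
      have hjN : j ∈ N := Finset.mem_filter.2 ⟨hJM j hj, hJC j hj⟩
      have hjc := sl_compact (hTc j (hJM j hj)) z
      rw [Finset.mem_union, Finset.mem_image, Finset.mem_image]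
      rcases hfl with h | h
      · left
        exact ⟨j, hjN, (lx_unique hjc (hpJ j hj) h).symm⟩
      · right
        exact ⟨j, hjN, (ux_unique hjc (hpJ j hj) h).symm⟩
    calc S.card ≤ _ := Finset.card_le_card hsub
      _ ≤ _ := Finset.card_union_le _ _
      _ ≤ N.card + N.card := Nat.add_le_add Finset.card_image_le Finset.card_image_le
      _ = 2 * N.card := by ring
  have hsumif : ∑ i ∈ I, (if Cr z (T i) then 2 else 0) =
      2 * (I.filter (fun i => Cr z (T i))).card := by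
    rw [← Finset.sum_filter, Finset.sum_const, smul_eq_mul]
    ring
  calc ∑ i ∈ I, ((Fc i).filter (Cr z)).card
      ≤ ∑ i ∈ I, ((E i).card + (if Cr z (T i) then 2 else 0)) := Finset.sum_le_sum hstep1
    _ = ∑ i ∈ I, (E i).card + 2 * (I.filter (fun i => Cr z (T i))).card := by
        rw [Finset.sum_add_distrib, hsumif]
    _ ≤ _ := by omega

end Pool.Agent.Lib.MP_f0132d_co.SF52
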