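import Pool.Agent.Lib.MP_f0132d_co.Count52

/-!
The mean width of a segment is half of its length.
-/

namespace Pool.Agent.Lib.MP_f0132d_co.SF52

open Set MeasureTheory

theorem norm_int : ∫ v in Metric.closedBall (0 : E3) 1, ‖v‖ = Real.pi := by
  have h := integral_fun_norm_addHaar (volume : Measure E3)
    (fun r => (Iic (1 : ℝ)).indicator (fun r => r) r)
  have h1 : ∫ x : E3, (Iic (1 : ℝ)).indicator (fun r => r) ‖x‖ =
      ∫ v in Metric.closedBall (0 : E3) 1, ‖v‖ := by
    rw [← integral_indicator measurableSet_closedBall]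
    congr 1
    funext x
    by_cases hx : ‖x‖ ≤ 1
    · rw [indicator_of_mem (show ‖x‖ ∈ Iic (1 : ℝ) from hx),
        indicator_of_mem (show x ∈ Metric.closedBall (0 : E3) 1 by
          rw [mem_closedBall_zero_iff]; exact hx)]
    · rw [indicator_of_notMem (show ‖x‖ ∉ Iic (1 : ℝ) from hx),
        indicator_of_notMem (show x ∉ Metric.closedBall (0 : E3) 1 by
          rw [mem_closedBall_zero_iff]; exact hx)]
  have h2 : ∫ y in Ioi (0 : ℝ), y ^ (Module.finrank ℝ E3 - 1) •
      (Iic (1 : ℝ)).indicator (fun r => r) y = 1 / 4 := by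
    have e1 : ∫ y in Ioi (0 : ℝ), y ^ (Module.finrank ℝ E3 - 1) •
        (Iic (1 : ℝ)).indicator (fun r => r) y =
        ∫ y in Ioi (0 : ℝ), (Iic (1 : ℝ)).indicator (fun r => r ^ 3) y := by
      apply setIntegral_congr_fun measurableSet_Ioi
      intro y _
      change y ^ (Module.finrank ℝ E3 - 1) • (Iic (1 : ℝ)).indicator (fun r => r) y =
        (Iic (1 : ℝ)).indicator (fun r => r ^ 3) y
      rw [finrank_euclideanSpace_fin]
      by_cases hy : y ∈ Iic (1 : ℝ)
      · rw [indicator_of_mem hy, indicator_of_mem hy, smul_eq_mul]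
        ring
      · rw [indicator_of_notMem hy, indicator_of_notMem hy, smul_zero]
    rw [e1, setIntegral_indicator measurableSet_Iic]
    have e2 : Ioi (0 : ℝ) ∩ Iic 1 = Ioc 0 1 := by
      ext x; simp
    rw [e2, ← intervalIntegral.integral_of_le zero_le_one, integral_pow]
    norm_num
  have h3 : (volume : Measure E3).real (Metric.ball 0 1) = Real.pi * 4 / 3 := by
    rw [Measure.real, EuclideanSpace.volume_ball_fin_three]
    simp
    positivity
  rw [h1, h2, h3, finrank_euclideanSpace_fin] at h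
  rw [h]
  simp only [nsmul_eq_mul, smul_eq_mul]
  push_cast
  ring

/-- the round solid in the product -/
def Sol : Set (ℝ × EuclideanSpace ℝ (Fin 2)) := {q | q.1 ^ 2 + ‖q.2‖ ^ 2 ≤ 1}

theorem sol_compact : IsCompact Sol := by
  apply Metric.isCompact_of_isClosed_isBounded
  · exact isClosed_le (by fun_prop) continuous_const
  · refine (Metric.isBounded_iff_subset_closedBall 0).2 ⟨1, ?_⟩
    intro q hq
    change q.1 ^ 2 + ‖q.2‖ ^ 2 ≤ 1 at hq
    rw [mem_closedBall_zero_iff, Prod.norm_def]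
    apply max_le
    · rw [Real.norm_eq_abs, abs_le]
      have h1 : q.1 ^ 2 ≤ 1 := by nlinarith [sq_nonneg ‖q.2‖]
      exact ⟨by nlinarith, by nlinarith⟩
    · have h1 : ‖q.2‖ ^ 2 ≤ 1 := by nlinarith [sq_nonneg q.1]
      nlinarith [norm_nonneg q.2]

theorem sol_int : ∫ q in Sol, |q.1| = Real.pi / 2 := by
  have hint : Integrable (Sol.indicator (fun q : ℝ × EuclideanSpace ℝ (Fin 2) => |q.1|))
      (volume.prod volume) := by
    rw [integrable_indicator_iff sol_compact.isClosed.measurableSet]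
    exact (by fun_prop : Continuous fun q : ℝ × EuclideanSpace ℝ (Fin 2) => |q.1|).continuousOn
      |>.integrableOn_compact sol_compact
  rw [← integral_indicator sol_compact.isClosed.measurableSet]
  change ∫ q, (Sol.indicator (fun q : ℝ × EuclideanSpace ℝ (Fin 2) => |q.1|)) q
    ∂(volume.prod volume) = _
  rw [integral_prod _ hint]
  have hinner : ∀ t : ℝ, ∫ y : EuclideanSpace ℝ (Fin 2),
      (Sol.indicator (fun q : ℝ × EuclideanSpace ℝ (Fin 2) => |q.1|)) (t, y) =
      (Icc (-1 : ℝ) 1).indicator (fun t => |t| * ((1 - t ^ 2) * Real.pi)) t := by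
    intro t
    have e1 : (fun y : EuclideanSpace ℝ (Fin 2) =>
        (Sol.indicator (fun q : ℝ × EuclideanSpace ℝ (Fin 2) => |q.1|)) (t, y)) =
        {y : EuclideanSpace ℝ (Fin 2) | t ^ 2 + ‖y‖ ^ 2 ≤ 1}.indicator (fun _ => |t|) := by
      funext y
      by_cases hy : t ^ 2 + ‖y‖ ^ 2 ≤ 1
      · rw [indicator_of_mem (show (t, y) ∈ Sol from hy),
          indicator_of_mem (show y ∈ {y : EuclideanSpace ℝ (Fin 2) | t ^ 2 + ‖y‖ ^ 2 ≤ 1} from hy)]
      · rw [indicator_of_notMem (show (t, y) ∉ Sol from hy),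
          indicator_of_notMem (show y ∉ {y : EuclideanSpace ℝ (Fin 2) | t ^ 2 + ‖y‖ ^ 2 ≤ 1} from hy)]
    rw [e1]
    have hcl : IsClosed {y : EuclideanSpace ℝ (Fin 2) | t ^ 2 + ‖y‖ ^ 2 ≤ 1} :=
      isClosed_le (by fun_prop) continuous_const
    rw [integral_indicator hcl.measurableSet, setIntegral_const]
    by_cases ht : t ∈ Icc (-1 : ℝ) 1
    · rw [indicator_of_mem ht]
      have ht2 : 0 ≤ 1 - t ^ 2 := by nlinarith [ht.1, ht.2]
      have e2 : {y : EuclideanSpace ℝ (Fin 2) | t ^ 2 + ‖y‖ ^ 2 ≤ 1} =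
          Metric.closedBall 0 (Real.sqrt (1 - t ^ 2)) := by
        ext y
        rw [mem_closedBall_zero_iff]
        change t ^ 2 + ‖y‖ ^ 2 ≤ 1 ↔ _
        rw [Real.le_sqrt (norm_nonneg y) ht2]
        constructor <;> intro h <;> linarith
      rw [e2, Measure.real, EuclideanSpace.volume_closedBall_fin_two, ENNReal.toReal_mul,
        ENNReal.toReal_pow, ENNReal.toReal_ofReal (Real.sqrt_nonneg _),
        ENNReal.toReal_ofReal Real.pi_pos.le, Real.sq_sqrt ht2, smul_eq_mul]
      ring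
    · rw [indicator_of_notMem ht]
      have e2 : {y : EuclideanSpace ℝ (Fin 2) | t ^ 2 + ‖y‖ ^ 2 ≤ 1} = ∅ := by
        rw [eq_empty_iff_forall_notMem]
        intro y hy
        change t ^ 2 + ‖y‖ ^ 2 ≤ 1 at hy
        apply ht
        have h1 : t ^ 2 ≤ 1 := by nlinarith [sq_nonneg ‖y‖]
        exact ⟨by nlinarith, by nlinarith⟩
      rw [e2]
      simp
  simp only [hinner]
  rw [integral_indicator measurableSet_Icc, integral_Icc_eq_integral_Ioc,
    ← intervalIntegral.integral_of_le (by norm_num)]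
  have hc : ∀ a b : ℝ, IntervalIntegrable (fun t : ℝ => |t| * ((1 - t ^ 2) * Real.pi)) volume a b :=
    fun a b => (by fun_prop : Continuous fun t : ℝ =>
      |t| * ((1 - t ^ 2) * Real.pi)).intervalIntegrable a b
  rw [← intervalIntegral.integral_add_adjacent_intervals (hc (-1) 0) (hc 0 1)]
  have i1 : ∫ t in (0 : ℝ)..1, |t| * ((1 - t ^ 2) * Real.pi) = Real.pi / 4 := by
    have : ∫ t in (0 : ℝ)..1, |t| * ((1 - t ^ 2) * Real.pi) =
        ∫ t in (0 : ℝ)..1, Real.pi * (t - t ^ 3) := by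
      apply intervalIntegral.integral_congr
      intro t ht
      rw [uIcc_of_le zero_le_one] at ht
      change |t| * ((1 - t ^ 2) * Real.pi) = Real.pi * (t - t ^ 3)
      rw [abs_of_nonneg ht.1]
      ring
    rw [this, intervalIntegral.integral_const_mul, intervalIntegral.integral_sub
      ((by fun_prop : Continuous fun t : ℝ => t).intervalIntegrable _ _)
      ((by fun_prop : Continuous fun t : ℝ => t ^ 3).intervalIntegrable _ _), integral_id,
      integral_pow]
    norm_num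
    ring
  have i2 : ∫ t in (-1 : ℝ)..0, |t| * ((1 - t ^ 2) * Real.pi) = Real.pi / 4 := by
    have : ∫ t in (-1 : ℝ)..0, |t| * ((1 - t ^ 2) * Real.pi) =
        ∫ t in (-1 : ℝ)..0, Real.pi * (t ^ 3 - t) := by
      apply intervalIntegral.integral_congr
      intro t ht
      rw [uIcc_of_le (by norm_num : (-1 : ℝ) ≤ 0)] at ht
      change |t| * ((1 - t ^ 2) * Real.pi) = Real.pi * (t ^ 3 - t)
      rw [abs_of_nonpos ht.2]
      ring
    rw [this, intervalIntegral.integral_const_mul, intervalIntegral.integral_sub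
      ((by fun_prop : Continuous fun t : ℝ => t ^ 3).intervalIntegrable _ _)
      ((by fun_prop : Continuous fun t : ℝ => t).intervalIntegrable _ _), integral_id,
      integral_pow]
    norm_num
    ring
  rw [i1, i2]
  ring

/-- an orthogonal map to the product -/
theorem exists_iso_first {e : E3} (he : ‖e‖ = 1) :
    ∃ A : E3 ≃ₗᵢ[ℝ] WithLp 2 (ℝ × EuclideanSpace ℝ (Fin 2)), A e = WithLp.toLp 2 (1, 0) := by
  have hd : Module.finrank ℝ (WithLp 2 (ℝ × EuclideanSpace ℝ (Fin 2))) = 3 := by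
    rw [(WithLp.linearEquiv 2 ℝ (ℝ × EuclideanSpace ℝ (Fin 2))).finrank_eq, Module.finrank_prod,
      Module.finrank_self, finrank_euclideanSpace_fin]
  have hd3 : Module.finrank ℝ E3 = 3 := finrank_euclideanSpace_fin
  set B : E3 ≃ₗᵢ[ℝ] WithLp 2 (ℝ × EuclideanSpace ℝ (Fin 2)) :=
    (stdOrthonormalBasis ℝ E3).equiv
      (stdOrthonormalBasis ℝ (WithLp 2 (ℝ × EuclideanSpace ℝ (Fin 2))))
      (finCongr (hd3.trans hd.symm)) with hB
  set u : WithLp 2 (ℝ × EuclideanSpace ℝ (Fin 2)) := WithLp.toLp 2 (1, 0) with hu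
  have hun : ‖u‖ = 1 := by
    rw [hu, WithLp.prod_norm_eq_of_L2]
    simp
  have hn : ‖B e‖ = ‖u‖ := by rw [B.norm_map, he, hun]
  refine ⟨B.trans (Submodule.reflection (ℝ ∙ (B e - u))ᗮ), ?_⟩
  rw [LinearIsometryEquiv.trans_apply]
  exact Submodule.reflection_sub hn

theorem kappa {e : E3} (he : ‖e‖ = 1) :
    ∫ v in Metric.closedBall (0 : E3) 1, |inner ℝ v e| = Real.pi / 2 := by
  obtain ⟨A, hA⟩ := exists_iso_first he
  have h1 : MeasurePreserving A volume volume := A.measurePreserving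
  have h2 := h1.setIntegral_preimage_emb A.toHomeomorph.measurableEmbedding
    (fun w : WithLp 2 (ℝ × EuclideanSpace ℝ (Fin 2)) => |w.fst|) (Metric.closedBall 0 1)
  have h3 : A ⁻¹' Metric.closedBall (0 : WithLp 2 (ℝ × EuclideanSpace ℝ (Fin 2))) 1 =
      Metric.closedBall (0 : E3) 1 := by
    ext x
    simp
  rw [h3] at h2
  have h4 : ∀ v : E3, |(A v).fst| = |inner ℝ v e| := by
    intro v
    have : inner ℝ (A v) (A e) = inner ℝ v e := A.inner_map_map v e
    rw [hA] at this
    rw [← this, WithLp.prod_inner_apply]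
    simp
  simp only [h4] at h2
  rw [h2]
  have h5 : MeasurePreserving (MeasurableEquiv.toLp 2 (ℝ × EuclideanSpace ℝ (Fin 2))).symm
      volume volume := WithLp.volume_preserving_symm_measurableEquiv_toLp_prod _ _
  have h6 := h5.setIntegral_preimage_emb
    (MeasurableEquiv.toLp 2 (ℝ × EuclideanSpace ℝ (Fin 2))).symm.measurableEmbedding
    (fun q : ℝ × EuclideanSpace ℝ (Fin 2) => |q.1|) Sol
  have h7 : (MeasurableEquiv.toLp 2 (ℝ × EuclideanSpace ℝ (Fin 2))).symm ⁻¹' Sol =
      Metric.closedBall (0 : WithLp 2 (ℝ × EuclideanSpace ℝ (Fin 2))) 1 := by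
    ext w
    rw [mem_closedBall_zero_iff]
    change w.fst ^ 2 + ‖w.snd‖ ^ 2 ≤ 1 ↔ _
    have e : ‖w‖ ^ 2 = w.fst ^ 2 + ‖w.snd‖ ^ 2 := by
      rw [WithLp.prod_norm_sq_eq_of_L2, Real.norm_eq_abs, sq_abs]
    rw [← e]
    constructor
    · intro h
      nlinarith [norm_nonneg w]
    · intro h
      nlinarith [norm_nonneg w]
  rw [h7, sol_int] at h6
  exact h6

end Pool.Agent.Lib.MP_f0132d_co.SF52
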