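import Mathlib

/-!
Finite linear spaces: any two points are on exactly one line.
-/

namespace Pool.Agent.Lib.MP_f0132d_co.SF52

open Finset

variable {X : Type*} [DecidableEq X]

/-- a family of lines such that any two points are on exactly one of them -/
structure Lin (L : Finset (Finset X)) : Prop where
  ex : ∀ i j : X, i ≠ j → ∃ l ∈ L, i ∈ l ∧ j ∈ l
  uniq : ∀ l ∈ L, ∀ l' ∈ L, ∀ i j : X, i ≠ j → i ∈ l → j ∈ l → i ∈ l' → j ∈ l' → l = l'

/-- the number of lines through `p` that meet `T` -/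
def mm (L : Finset (Finset X)) (p : X) (T : Finset X) : ℕ :=
  (L.filter (fun l => p ∈ l ∧ (l ∩ T).Nonempty)).card

/-- the sum of the sizes minus one of the traces of the lines -/
def cc (L : Finset (Finset X)) (S : Finset X) : ℕ := ∑ l ∈ L, ((l ∩ S).card - 1)

theorem cc_insert (L : Finset (Finset X)) {p : X} {S : Finset X} (hp : p ∉ S) :
    cc L (insert p S) = cc L S + mm L p S := by
  unfold cc mm
  rw [card_filter, ← sum_add_distrib]
  apply sum_congr rfl
  intro l _
  by_cases hpl : p ∈ l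
  · rw [inter_insert_of_mem hpl, card_insert_of_notMem (fun h => hp (mem_inter.1 h).2)]
    by_cases hne : (l ∩ S).Nonempty
    · rw [if_pos ⟨hpl, hne⟩]
      have := card_pos.2 hne
      omega
    · rw [if_neg (fun h => hne h.2)]
      rw [not_nonempty_iff_eq_empty] at hne
      rw [hne, card_empty]
  · rw [inter_insert_of_notMem hpl, if_neg (fun h => hpl h.1)]
    rfl

theorem mm_ge {L : Finset (Finset X)} (hL : Lin L) {l : Finset X} (hl : l ∈ L) {p : X}
    (hp : p ∉ l) (T : Finset X) : (l ∩ T).card ≤ mm L p T := by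
  classical
  have hch : ∀ x : X, ∃ l' : Finset X, x ∈ l → (l' ∈ L ∧ p ∈ l' ∧ x ∈ l') := by
    intro x
    by_cases hx : x ∈ l
    · obtain ⟨l', h1, h2, h3⟩ := hL.ex p x (fun h => hp (h ▸ hx))
      exact ⟨l', fun _ => ⟨h1, h2, h3⟩⟩
    · exact ⟨∅, fun h => absurd h hx⟩
  choose f hf using hch
  unfold mm
  apply card_le_card_of_injOn f
  · intro x hx
    rw [mem_coe, mem_inter] at hx
    rw [mem_coe, mem_filter]
    obtain ⟨h1, h2, h3⟩ := hf x hx.1
    exact ⟨h1, h2, ⟨x, mem_inter.2 ⟨h3, hx.2⟩⟩⟩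
  · intro x hx y hy hxy
    rw [mem_coe, mem_inter] at hx hy
    by_contra hne
    obtain ⟨h1, h2, h3⟩ := hf x hx.1
    obtain ⟨k1, k2, k3⟩ := hf y hy.1
    rw [← hxy] at k3
    have := hL.uniq _ h1 l hl x y hne h3 k3 hx.1 hy.1
    rw [this] at h2
    exact hp h2

/-- all points but at most one are on a line -/
def NP (L : Finset (Finset X)) (S : Finset X) : Prop := ∃ p, ∃ l ∈ L, S ⊆ insert p l

theorem exists_three {L : Finset (Finset X)} (hL : Lin L) {S : Finset X} (h4 : 4 ≤ S.card)
    (hnp : ¬ NP L S) : ∃ p ∈ S, 3 ≤ mm L p (S.erase p) := by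
  obtain ⟨i, hi⟩ : S.Nonempty := card_pos.1 (by omega)
  obtain ⟨j, hj⟩ : (S.erase i).Nonempty := by
    rw [← card_pos, card_erase_of_mem hi]; omega
  have hji : j ≠ i := (mem_erase.1 hj).1
  have hjS : j ∈ S := (mem_erase.1 hj).2
  obtain ⟨l, hl, hil, hjl⟩ := hL.ex i j (Ne.symm hji)
  obtain ⟨q, hq, hql⟩ : ∃ q ∈ S, q ∉ l := by
    by_contra hcon
    push Not at hcon
    exact hnp ⟨i, l, hl, fun x hx => mem_insert_of_mem (hcon x hx)⟩
  have hqi : q ≠ i := fun h => hql (h ▸ hil)
  have hqj : q ≠ j := fun h => hql (h ▸ hjl)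
  obtain ⟨x, hx⟩ : (((S.erase i).erase j).erase q).Nonempty := by
    rw [← card_pos, card_erase_of_mem (mem_erase.2 ⟨hqj, mem_erase.2 ⟨hqi, hq⟩⟩),
      card_erase_of_mem hj, card_erase_of_mem hi]
    omega
  rw [mem_erase, mem_erase, mem_erase] at hx
  obtain ⟨hxq, hxj, hxi, hxS⟩ := hx
  -- a line with three points and a point outside
  have hthree : ∀ (p u v w : X) (k : Finset X), p ∈ S → k ∈ L → p ∉ k → u ∈ S → v ∈ S → w ∈ S →
      u ∈ k → v ∈ k → w ∈ k → u ≠ v → u ≠ w → v ≠ w → ∃ p ∈ S, 3 ≤ mm L p (S.erase p) := by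
    intro p u v w k hp hk hpk hu hv hw uk vk wk huv huw hvw
    refine ⟨p, hp, le_trans ?_ (mm_ge hL hk hpk (S.erase p))⟩
    have hsub : ({u, v, w} : Finset X) ⊆ k ∩ S.erase p := by
      intro y hy
      rw [mem_insert, mem_insert, mem_singleton] at hy
      rw [mem_inter, mem_erase]
      rcases hy with rfl | rfl | rfl
      · exact ⟨uk, fun h => hpk (h ▸ uk), hu⟩
      · exact ⟨vk, fun h => hpk (h ▸ vk), hv⟩
      · exact ⟨wk, fun h => hpk (h ▸ wk), hw⟩
    have hc : ({u, v, w} : Finset X).card = 3 := by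
      rw [card_eq_three]
      exact ⟨u, v, w, huv, huw, hvw, rfl⟩
    rw [← hc]
    exact card_le_card hsub
  obtain ⟨l₁, hl₁, hq1, hi1⟩ := hL.ex q i hqi
  obtain ⟨l₂, hl₂, hq2, hj2⟩ := hL.ex q j hqj
  obtain ⟨l₃, hl₃, hq3, hx3⟩ := hL.ex q x (Ne.symm hxq)
  by_cases h13 : l₁ = l₃
  · subst h13
    have hjk : j ∉ l₁ := by
      intro h
      have := hL.uniq l hl l₁ hl₁ i j (Ne.symm hji) hil hjl hi1 h
      rw [this] at hql
      exact hql hq1
    exact hthree j q i x l₁ hjS hl₁ hjk hq hi hxS hq1 hi1 hx3 hqi (Ne.symm hxq) (Ne.symm hxi)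
  by_cases h23 : l₂ = l₃
  · subst h23
    have hik : i ∉ l₂ := by
      intro h
      have := hL.uniq l hl l₂ hl₂ i j (Ne.symm hji) hil hjl h hj2
      rw [this] at hql
      exact hql hq2
    exact hthree i q j x l₂ hi hl₂ hik hq hjS hxS hq2 hj2 hx3 hqj (Ne.symm hxq) (Ne.symm hxj)
  have h12 : l₁ ≠ l₂ := by
    intro h
    have := hL.uniq l hl l₁ hl₁ i j (Ne.symm hji) hil hjl hi1 (h ▸ hj2)
    rw [this] at hql
    exact hql hq1
  refine ⟨q, hq, ?_⟩
  unfold mm
  have hsub : ({l₁, l₂, l₃} : Finset (Finset X)) ⊆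
      L.filter (fun l => q ∈ l ∧ (l ∩ S.erase q).Nonempty) := by
    intro k hk
    rw [mem_insert, mem_insert, mem_singleton] at hk
    rw [mem_filter]
    rcases hk with rfl | rfl | rfl
    · exact ⟨hl₁, hq1, ⟨i, mem_inter.2 ⟨hi1, mem_erase.2 ⟨Ne.symm hqi, hi⟩⟩⟩⟩
    · exact ⟨hl₂, hq2, ⟨j, mem_inter.2 ⟨hj2, mem_erase.2 ⟨Ne.symm hqj, hjS⟩⟩⟩⟩
    · exact ⟨hl₃, hq3, ⟨x, mem_inter.2 ⟨hx3, mem_erase.2 ⟨hxq, hxS⟩⟩⟩⟩
  have hc : ({l₁, l₂, l₃} : Finset (Finset X)).card = 3 := by
    rw [card_eq_three]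
    exact ⟨l₁, l₂, l₃, h12, h13, h23, rfl⟩
  rw [← hc]
  exact card_le_card hsub

/-- not all points but one on a line: many incidences -/
theorem cc_ge {L : Finset (Finset X)} (hL : Lin L) :
    ∀ k : ℕ, ∀ S : Finset X, S.card = k → 2 ≤ k → ¬ NP L S → 3 * k ≤ cc L S + 7 := by
  intro k
  induction k with
  | zero => intro S _ h2; omega
  | succ k ih =>
    intro S hS h2 hnp
    -- at least four points
    have h4 : 4 ≤ S.card := by
      by_contra hlt
      push Not at hlt
      obtain ⟨i, hi⟩ : S.Nonempty := card_pos.1 (by omega)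
      obtain ⟨j, hj⟩ : (S.erase i).Nonempty := by
        rw [← card_pos, card_erase_of_mem hi]; omega
      obtain ⟨l, hl, hil, hjl⟩ := hL.ex i j (Ne.symm (mem_erase.1 hj).1)
      have hc : ((S.erase i).erase j).card ≤ 1 := by
        rw [card_erase_of_mem hj, card_erase_of_mem hi]; omega
      rcases ((S.erase i).erase j).eq_empty_or_nonempty with h0 | ⟨p, hp⟩
      · apply hnp
        refine ⟨i, l, hl, ?_⟩
        intro x hx
        by_cases hxi : x = i
        · rw [hxi]; exact mem_insert_self _ _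
        by_cases hxj : x = j
        · rw [hxj]; exact mem_insert_of_mem hjl
        have : x ∈ (S.erase i).erase j := mem_erase.2 ⟨hxj, mem_erase.2 ⟨hxi, hx⟩⟩
        rw [h0] at this
        exact absurd this (notMem_empty x)
      · apply hnp
        refine ⟨p, l, hl, ?_⟩
        intro x hx
        by_cases hxi : x = i
        · rw [hxi]; exact mem_insert_of_mem hil
        by_cases hxj : x = j
        · rw [hxj]; exact mem_insert_of_mem hjl
        have : x ∈ (S.erase i).erase j := mem_erase.2 ⟨hxj, mem_erase.2 ⟨hxi, hx⟩⟩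
        rw [card_le_one.1 hc x this p hp]
        exact mem_insert_self _ _
    obtain ⟨p, hp, hmp⟩ := exists_three hL h4 hnp
    have hSe : S = insert p (S.erase p) := (insert_erase hp).symm
    have hcc : cc L S = cc L (S.erase p) + mm L p (S.erase p) := by
      conv_lhs => rw [hSe]
      exact cc_insert L (notMem_erase p S)
    have hcard : (S.erase p).card = k := by rw [card_erase_of_mem hp, hS]; rfl
    by_cases hnp' : NP L (S.erase p)
    · obtain ⟨q, l, hl, hsub⟩ := hnp'
      have hpl : p ∉ l := by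
        intro h
        apply hnp
        refine ⟨q, l, hl, ?_⟩
        intro x hx
        by_cases hxp : x = p
        · rw [hxp]; exact mem_insert_of_mem h
        · exact hsub (mem_erase.2 ⟨hxp, hx⟩)
      have hql : q ∉ l := by
        intro h
        apply hnp
        refine ⟨p, l, hl, ?_⟩
        intro x hx
        by_cases hxp : x = p
        · rw [hxp]; exact mem_insert_self _ _
        · have := hsub (mem_erase.2 ⟨hxp, hx⟩)
          rw [insert_eq_of_mem h] at this
          exact mem_insert_of_mem this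
      have hqS : q ∈ S.erase p := by
        by_contra h
        apply hnp
        refine ⟨p, l, hl, ?_⟩
        intro x hx
        by_cases hxp : x = p
        · rw [hxp]; exact mem_insert_self _ _
        · have h1 : x ∈ S.erase p := mem_erase.2 ⟨hxp, hx⟩
          rcases mem_insert.1 (hsub h1) with h2 | h2
          · exact absurd (h2 ▸ h1) h
          · exact mem_insert_of_mem h2
      set U := (S.erase p).erase q with hU
      have hUl : U ⊆ l := by
        intro x hx
        rw [hU, mem_erase] at hx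
        rcases mem_insert.1 (hsub hx.2) with h2 | h2
        · exact absurd h2 hx.1
        · exact h2
      have hUc : U.card = k - 1 := by rw [hU, card_erase_of_mem hqS, hcard]
      have hlU : l ∩ U = U := inter_eq_right.2 hUl
      have hcq : cc L (S.erase p) = cc L U + mm L q U := by
        conv_lhs => rw [(insert_erase hqS).symm]
        exact cc_insert L (notMem_erase q (S.erase p))
      have h1 : (l ∩ U).card - 1 ≤ cc L U :=
        single_le_sum (f := fun l => (l ∩ U).card - 1) (fun _ _ => Nat.zero_le _) hl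
      have h2 : (l ∩ U).card ≤ mm L q U := mm_ge hL hl hql U
      have h3 : (l ∩ (S.erase p)).card ≤ mm L p (S.erase p) := mm_ge hL hl hpl _
      have h4' : (l ∩ U).card ≤ (l ∩ (S.erase p)).card :=
        card_le_card (inter_subset_inter_left (erase_subset _ _))
      rw [hlU, hUc] at h1 h2 h4'
      omega
    · have := ih (S.erase p) hcard (by omega) hnp'
      omega

/-- two points on at most two lines: then all points but one are on a line -/
theorem two_small {L : Finset (Finset X)} (hL : Lin L)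
    {V : Finset X} (hV : ∀ x, x ∈ V) (hnp : ¬ NP L V)
    {p q : X} (hpq : p ≠ q) (hp : (L.filter (fun l => p ∈ l)).card ≤ 2) :
    3 ≤ (L.filter (fun l => q ∈ l)).card := by
  classical
  -- the line through `p` and `q`
  obtain ⟨l₁, hl₁, hp1, hq1⟩ := hL.ex p q hpq
  obtain ⟨x, hx⟩ : ∃ x, x ∉ l₁ := by
    by_contra h
    push Not at h
    exact hnp ⟨p, l₁, hl₁, fun y _ => mem_insert_of_mem (h y)⟩
  have hpx : p ≠ x := fun h => hx (h ▸ hp1)
  obtain ⟨l₂, hl₂, hp2, hx2⟩ := hL.ex p x hpx
  have h12 : l₁ ≠ l₂ := fun h => hx (h ▸ hx2)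
  -- a third point on `l₂`
  obtain ⟨y, hy, hyl⟩ : ∃ y, y ≠ x ∧ y ∉ l₁ := by
    by_contra h
    push Not at h
    apply hnp
    refine ⟨x, l₁, hl₁, ?_⟩
    intro z _
    by_cases hzx : z = x
    · rw [hzx]; exact mem_insert_self _ _
    · exact mem_insert_of_mem (h z hzx)
  have hpy : p ≠ y := fun h => hyl (h ▸ hp1)
  have hy2 : y ∈ l₂ := by
    obtain ⟨l₃, hl₃, hp3, hy3⟩ := hL.ex p y hpy
    by_contra hcon
    have h13 : l₁ ≠ l₃ := fun h => hyl (h ▸ hy3)
    have h23 : l₂ ≠ l₃ := fun h => hcon (h ▸ hy3)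
    have hsub : ({l₁, l₂, l₃} : Finset (Finset X)) ⊆ L.filter (fun l => p ∈ l) := by
      intro k hk
      rw [mem_insert, mem_insert, mem_singleton] at hk
      rw [mem_filter]
      rcases hk with rfl | rfl | rfl
      · exact ⟨hl₁, hp1⟩
      · exact ⟨hl₂, hp2⟩
      · exact ⟨hl₃, hp3⟩
    have hc : ({l₁, l₂, l₃} : Finset (Finset X)).card = 3 := by
      rw [card_eq_three]
      exact ⟨l₁, l₂, l₃, h12, h13, h23, rfl⟩
    have := card_le_card hsub
    omega
  have hql : q ∉ l₂ := by
    intro h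
    exact h12 (hL.uniq l₁ hl₁ l₂ hl₂ p q hpq hp1 hq1 hp2 h)
  have h3 := mm_ge hL hl₂ hql V
  have h4 : 3 ≤ (l₂ ∩ V).card := by
    have hsub : ({p, x, y} : Finset X) ⊆ l₂ ∩ V := by
      intro z hz
      rw [mem_insert, mem_insert, mem_singleton] at hz
      rw [mem_inter]
      rcases hz with rfl | rfl | rfl
      · exact ⟨hp2, hV _⟩
      · exact ⟨hx2, hV _⟩
      · exact ⟨hy2, hV _⟩
    have hc : ({p, x, y} : Finset X).card = 3 := by
      rw [card_eq_three]
      exact ⟨p, x, y, hpx, hpy, Ne.symm hy, rfl⟩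
    rw [← hc]
    exact card_le_card hsub
  have h5 : mm L q V ≤ (L.filter (fun l => q ∈ l)).card := by
    unfold mm
    apply card_le_card
    intro l hl
    rw [mem_filter] at hl ⊢
    exact ⟨hl.1, hl.2.1⟩
  omega

end Pool.Agent.Lib.MP_f0132d_co.SF52
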