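import Pool.Agent.Lib.MP_f0132d_co.Kappa52

/-!
Mean width and diameter.
-/

namespace Pool.Agent.Lib.MP_f0132d_co.SF52

open Set MeasureTheory

theorem wint_nonneg {K : Set E3} (hK : IsCompact K) (hne : K.Nonempty) : 0 ≤ wint K :=
  setIntegral_nonneg measurableSet_closedBall (fun v _ => ext_nonneg hK hne v)

theorem dist_le_wint {K : Set E3} (hK : IsCompact K) {x y : E3} (hx : x ∈ K) (hy : y ∈ K) :
    dist x y * (Real.pi / 2) ≤ wint K := by
  by_cases hxy : x = y
  · rw [hxy, dist_self, zero_mul]
    exact wint_nonneg hK ⟨x, hx⟩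
  have hn : 0 < ‖x - y‖ := norm_pos_iff.2 (sub_ne_zero.2 hxy)
  set e : E3 := ‖x - y‖⁻¹ • (x - y) with he
  have hen : ‖e‖ = 1 := by
    rw [he, norm_smul, norm_inv, norm_norm, inv_mul_cancel₀ hn.ne']
  have hxe : x - y = ‖x - y‖ • e := by
    rw [he, smul_smul, mul_inv_cancel₀ hn.ne', one_smul]
  have hc : Continuous fun v : E3 => |inner ℝ v e| := by fun_prop
  have h1 : ∫ v in Metric.closedBall (0 : E3) 1, ‖x - y‖ * |inner ℝ v e| ≤ wint K := by
    apply setIntegral_mono_on
    · exact (hc.continuousOn.integrableOn_compact (isCompact_closedBall _ _)).const_mul _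
    · exact ext_integrable hK ⟨x, hx⟩
    · exact measurableSet_closedBall
    · intro v _
      have k1 := le_ext hK v hx hy
      have k2 := le_ext hK v hy hx
      have e1 : inner ℝ v (x - y) = ‖x - y‖ * inner ℝ v e := by
        conv_lhs => rw [hxe]
        rw [inner_smul_right]
      have e2 : inner ℝ v (y - x) = - (‖x - y‖ * inner ℝ v e) := by
        rw [← neg_sub x y, inner_neg_right, e1]
      have e3 : ‖x - y‖ * |inner ℝ v e| = |‖x - y‖ * inner ℝ v e| := by
        rw [abs_mul, abs_norm]
      rw [e3, abs_le]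
      constructor <;> linarith
  rw [integral_const_mul, kappa hen] at h1
  rw [dist_eq_norm]
  exact h1

theorem wint_le_diam {K : Set E3} (hK : IsCompact K) (hne : K.Nonempty) :
    wint K ≤ Metric.diam K * Real.pi := by
  have h1 : wint K ≤ ∫ v in Metric.closedBall (0 : E3) 1, ‖v‖ * Metric.diam K := by
    apply setIntegral_mono_on
    · exact ext_integrable hK hne
    · exact (continuous_norm.continuousOn.integrableOn_compact
        (isCompact_closedBall _ _)).mul_const _
    · exact measurableSet_closedBall
    · intro v _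
      apply ext_le hK hne
      intro x hx y hy
      rw [← dist_eq_norm]
      exact Metric.dist_le_diam_of_mem hK.isBounded hx hy
  rw [integral_mul_const, norm_int] at h1
  linarith

end Pool.Agent.Lib.MP_f0132d_co.SF52
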