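import Pool.Agent.Lib.MP_f0132d_co.Wid52

/-!
Transport between Euclidean space and the product, and between congruent tiles.
-/

namespace Pool.Agent.Lib.MP_f0132d_co.SF52

open Set MeasureTheory

/-- three-dimensional Euclidean space -/
abbrev E3 := EuclideanSpace ℝ (Fin 3)

/-- the extent of a set in the direction `v`: the difference of the largest and the least value
of the functional `inner v` -/
noncomputable def ext (v : E3) (K : Set E3) : ℝ :=
  sSup ((fun x => inner ℝ v x) '' K) - sInf ((fun x => inner ℝ v x) '' K)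

theorem collinear_of_image {V V' : Type*} [AddCommGroup V] [Module ℝ V] [AddCommGroup V']
    [Module ℝ V'] (e : V ≃ᵃ[ℝ] V') {s : Set V} (h : Collinear ℝ (e '' s)) : Collinear ℝ s := by
  rw [collinear_iff_exists_forall_eq_smul_vadd] at h ⊢
  obtain ⟨p₀, v, h⟩ := h
  refine ⟨e.symm p₀, e.symm.linear v, ?_⟩
  intro p hp
  obtain ⟨r, hr⟩ := h (e p) ⟨p, hp, rfl⟩
  refine ⟨r, ?_⟩
  have h1 : e.symm (r • v +ᵥ p₀) = e.symm.linear (r • v) +ᵥ e.symm p₀ := e.symm.map_vadd p₀ (r • v)
  rw [map_smul] at h1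
  rw [← h1, ← hr, e.symm_apply_apply]

theorem IsFacet.image {V V' : Type*} [AddCommGroup V] [Module ℝ V] [AddCommGroup V']
    [Module ℝ V'] (e : V ≃ᵃ[ℝ] V') {T F : Set V} (h : IsFacet T F) :
    IsFacet (e '' T) (e '' F) := by
  obtain ⟨⟨φ, hφ, eF⟩, hn⟩ := h
  have hkey : ∀ x y : V, (φ ∘ₗ (e.linear.symm : V' →ₗ[ℝ] V)) (e y) -
      (φ ∘ₗ (e.linear.symm : V' →ₗ[ℝ] V)) (e x) = φ y - φ x := by
    intro x y
    have h1 : e y - e x = e.linear (y - x) := by
      have := e.toAffineMap.linearMap_vsub y x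
      rw [vsub_eq_sub, vsub_eq_sub] at this
      exact this.symm
    have h2 := (φ ∘ₗ (e.linear.symm : V' →ₗ[ℝ] V)).map_sub (e y) (e x)
    rw [← h2, h1, ← φ.map_sub]
    simp
  refine ⟨⟨φ ∘ₗ (e.linear.symm : V' →ₗ[ℝ] V), ?_, ?_⟩, fun hc => hn (collinear_of_image e hc)⟩
  · intro h0
    apply hφ
    apply LinearMap.ext
    intro x
    have := congrArg (fun f : V' →ₗ[ℝ] ℝ => f (e.linear x)) h0
    simpa using this
  · ext x'
    constructor
    · rintro ⟨x, hx, rfl⟩
      rw [eF] at hx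
      refine ⟨⟨x, hx.1, rfl⟩, ?_⟩
      rintro _ ⟨y, hy, rfl⟩
      have := hkey x y
      have := hx.2 y hy
      linarith
    · rintro ⟨⟨x, hx, rfl⟩, hmax⟩
      refine ⟨x, ?_, rfl⟩
      rw [eF]
      refine ⟨hx, ?_⟩
      intro y hy
      have h1 := hkey x y
      have h2 := hmax (e y) ⟨y, hy, rfl⟩
      linarith

/-- a linear equivalence whose first coordinate is the given functional -/
theorem dirEquiv (v : E3) (hv : v ≠ 0) :
    ∃ L : E3 ≃L[ℝ] ℝ × (ℝ × ℝ), ∀ x, (L x).1 = inner ℝ v x := by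
  have hin : ∀ x : E3, inner ℝ v x = v 0 * x 0 + v 1 * x 1 + v 2 * x 2 := by
    intro x
    rw [PiLp.inner_apply, Fin.sum_univ_three]
    simp [mul_comm]
  have hcase : v 0 ≠ 0 ∨ v 1 ≠ 0 ∨ v 2 ≠ 0 := by
    by_contra h
    push Not at h
    apply hv
    ext i
    fin_cases i
    · exact h.1
    · exact h.2.1
    · exact h.2.2
  have hdim : Module.finrank ℝ E3 = Module.finrank ℝ (ℝ × (ℝ × ℝ)) := by
    rw [finrank_euclideanSpace_fin, Module.finrank_prod, Module.finrank_prod, Module.finrank_self]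
  have main : ∀ i j : Fin 3, (∀ x : E3, inner ℝ v x = 0 → x i = 0 → x j = 0 → x = 0) →
      ∃ L : E3 ≃L[ℝ] ℝ × (ℝ × ℝ), ∀ x, (L x).1 = inner ℝ v x := by
    intro i j hij
    set f : E3 →ₗ[ℝ] ℝ × (ℝ × ℝ) :=
      { toFun := fun x => (inner ℝ v x, (x i, x j))
        map_add' := by
          intro x y
          ext
          · simp [inner_add_right]
          · simp
          · simp
        map_smul' := by
          intro c x
          ext
          · simp [inner_smul_right]
          · simp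
          · simp } with hf
    have hinj : Function.Injective f := by
      rw [← LinearMap.ker_eq_bot, LinearMap.ker_eq_bot']
      intro x hx
      have h1 : inner ℝ v x = 0 := congrArg Prod.fst hx
      have h2 : x i = 0 := congrArg (fun p : ℝ × (ℝ × ℝ) => p.2.1) hx
      have h3 : x j = 0 := congrArg (fun p : ℝ × (ℝ × ℝ) => p.2.2) hx
      exact hij x h1 h2 h3
    refine ⟨(f.linearEquivOfInjective hinj hdim).toContinuousLinearEquiv, ?_⟩
    intro x
    rfl
  rcases hcase with h | h | h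
  · apply main 1 2
    intro x h1 h2 h3
    rw [hin, h2, h3] at h1
    have h0 : x 0 = 0 := by
      have : v 0 * x 0 = 0 := by linarith
      exact (mul_eq_zero.1 this).resolve_left h
    ext i
    fin_cases i
    · exact h0
    · exact h2
    · exact h3
  · apply main 0 2
    intro x h1 h2 h3
    rw [hin, h2, h3] at h1
    have h0 : x 1 = 0 := by
      have : v 1 * x 1 = 0 := by linarith
      exact (mul_eq_zero.1 this).resolve_left h
    ext i
    fin_cases i
    · exact h2
    · exact h0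
    · exact h3
  · apply main 0 1
    intro x h1 h2 h3
    rw [hin, h2, h3] at h1
    have h0 : x 2 = 0 := by
      have : v 2 * x 2 = 0 := by linarith
      exact (mul_eq_zero.1 this).resolve_left h
    ext i
    fin_cases i
    · exact h2
    · exact h3
    · exact h0

theorem wd_image {v : E3} {L : E3 ≃L[ℝ] ℝ × (ℝ × ℝ)} (hL : ∀ x, (L x).1 = inner ℝ v x)
    (K : Set E3) : wd (L '' K) = ext v K := by
  unfold wd ext
  rw [image_image]
  have : (fun x => (L x).1) = fun x => inner ℝ v x := funext hL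
  rw [this]

theorem ext_eq {v : E3} {K : Set E3} {a b : E3} (ha : a ∈ K) (hb : b ∈ K)
    (hmax : ∀ x ∈ K, inner ℝ v x ≤ inner ℝ v a) (hmin : ∀ x ∈ K, inner ℝ v b ≤ inner ℝ v x) :
    ext v K = inner ℝ v a - inner ℝ v b := by
  unfold ext
  have h1 : IsGreatest ((fun x => inner ℝ v x) '' K) (inner ℝ v a) := by
    refine ⟨⟨a, ha, rfl⟩, ?_⟩
    rintro _ ⟨x, hx, rfl⟩
    exact hmax x hx
  have h2 : IsLeast ((fun x => inner ℝ v x) '' K) (inner ℝ v b) := by
    refine ⟨⟨b, hb, rfl⟩, ?_⟩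
    rintro _ ⟨x, hx, rfl⟩
    exact hmin x hx
  rw [h1.csSup_eq, h2.csInf_eq]

theorem ext_attained {K : Set E3} (hK : IsCompact K) (hne : K.Nonempty) (v : E3) :
    ∃ a ∈ K, ∃ b ∈ K, (∀ x ∈ K, inner ℝ v x ≤ inner ℝ v a) ∧
      (∀ x ∈ K, inner ℝ v b ≤ inner ℝ v x) := by
  have hc : Continuous fun x : E3 => inner ℝ v x := by fun_prop
  obtain ⟨a, ha, ha'⟩ := hK.exists_isMaxOn hne hc.continuousOn
  obtain ⟨b, hb, hb'⟩ := hK.exists_isMinOn hne hc.continuousOn
  exact ⟨a, ha, b, hb, fun x hx => ha' hx, fun x hx => hb' hx⟩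

theorem ext_nonneg {K : Set E3} (hK : IsCompact K) (hne : K.Nonempty) (v : E3) : 0 ≤ ext v K := by
  obtain ⟨a, ha, b, hb, h1, h2⟩ := ext_attained hK hne v
  rw [ext_eq ha hb h1 h2]
  linarith [h1 b hb]

theorem le_ext {K : Set E3} (hK : IsCompact K) (v : E3) {x y : E3} (hx : x ∈ K) (hy : y ∈ K) :
    inner ℝ v (x - y) ≤ ext v K := by
  obtain ⟨a, ha, b, hb, h1, h2⟩ := ext_attained hK ⟨x, hx⟩ v
  rw [ext_eq ha hb h1 h2, inner_sub_right]
  linarith [h1 x hx, h2 y hy]

theorem ext_le {K : Set E3} (hK : IsCompact K) (hne : K.Nonempty) {D : ℝ}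
    (hD : ∀ x ∈ K, ∀ y ∈ K, ‖x - y‖ ≤ D) (v : E3) : ext v K ≤ ‖v‖ * D := by
  obtain ⟨a, ha, b, hb, h1, h2⟩ := ext_attained hK hne v
  rw [ext_eq ha hb h1 h2, ← inner_sub_right]
  exact (real_inner_le_norm _ _).trans (mul_le_mul_of_nonneg_left (hD a ha b hb) (norm_nonneg _))

theorem ext_lip {K : Set E3} (hK : IsCompact K) (hne : K.Nonempty) {D : ℝ}
    (hD : ∀ x ∈ K, ∀ y ∈ K, ‖x - y‖ ≤ D) (v w : E3) : ext v K ≤ ext w K + D * ‖v - w‖ := by
  obtain ⟨a, ha, b, hb, h1, h2⟩ := ext_attained hK hne v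
  rw [ext_eq ha hb h1 h2, ← inner_sub_right]
  have h3 := le_ext hK w ha hb
  have h4 : inner ℝ v (a - b) = inner ℝ w (a - b) + inner ℝ (v - w) (a - b) := by
    rw [inner_sub_left]; ring
  have h5 : inner ℝ (v - w) (a - b) ≤ ‖v - w‖ * ‖a - b‖ := real_inner_le_norm _ _
  have h6 : ‖v - w‖ * ‖a - b‖ ≤ ‖v - w‖ * D :=
    mul_le_mul_of_nonneg_left (hD a ha b hb) (norm_nonneg _)
  rw [h4]
  linarith

theorem exists_bound {K : Set E3} (hK : IsCompact K) :
    ∃ D : ℝ, 0 < D ∧ ∀ x ∈ K, ∀ y ∈ K, ‖x - y‖ ≤ D := by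
  obtain ⟨C, hC⟩ := hK.isBounded.exists_norm_le
  refine ⟨2 * |C| + 1, by positivity, ?_⟩
  intro x hx y hy
  have h1 := hC x hx
  have h2 := hC y hy
  have h3 := norm_sub_le x y
  have h4 := le_abs_self C
  linarith

theorem ext_cont {K : Set E3} (hK : IsCompact K) (hne : K.Nonempty) :
    Continuous fun v => ext v K := by
  obtain ⟨D, hD0, hD⟩ := exists_bound hK
  have : LipschitzWith (Real.toNNReal D) fun v => ext v K := by
    apply LipschitzWith.of_dist_le_mul
    intro v w
    rw [Real.dist_eq, dist_eq_norm, Real.coe_toNNReal D hD0.le, abs_sub_le_iff]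
    constructor
    · have := ext_lip hK hne hD v w
      linarith
    · have := ext_lip hK hne hD w v
      rw [norm_sub_rev w v] at this
      linarith
  exact this.continuous

/-- the linear part of an isometry -/
theorem isom_form (g : E3 ≃ᵢ E3) : ∃ A : E3 ≃ₗᵢ[ℝ] E3, ∃ b : E3, ∀ x, g x = A x + b := by
  refine ⟨g.toRealAffineIsometryEquiv.linearIsometryEquiv, g 0, ?_⟩
  intro x
  have h := g.toRealAffineIsometryEquiv.map_vadd 0 x
  rw [vadd_eq_add, add_zero, vadd_eq_add] at h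
  rw [IsometryEquiv.coeFn_toRealAffineIsometryEquiv] at h
  exact h

theorem ext_move {g : E3 ≃ᵢ E3} {A : E3 ≃ₗᵢ[ℝ] E3} {b : E3} (hg : ∀ x, g x = A x + b)
    {K : Set E3} (hK : IsCompact K) (hne : K.Nonempty) (v : E3) :
    ext v (g '' K) = ext (A.symm v) K := by
  obtain ⟨p, hp, q, hq, h1, h2⟩ := ext_attained hK hne (A.symm v)
  have hin : ∀ x, inner ℝ v (A x) = inner ℝ (A.symm v) x := by
    intro x
    have := A.inner_map_map (A.symm v) x
    rw [A.apply_symm_apply] at this
    exact this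
  rw [ext_eq hp hq h1 h2]
  have hgp : g p ∈ g '' K := ⟨p, hp, rfl⟩
  have hgq : g q ∈ g '' K := ⟨q, hq, rfl⟩
  rw [ext_eq hgp hgq]
  · rw [hg, hg, inner_add_right, inner_add_right, hin, hin]; ring
  · rintro _ ⟨x, hx, rfl⟩
    rw [hg, hg, inner_add_right, inner_add_right, hin, hin]
    linarith [h1 x hx]
  · rintro _ ⟨x, hx, rfl⟩
    rw [hg, hg, inner_add_right, inner_add_right, hin, hin]
    linarith [h2 x hx]

/-- the integral of the extents over the unit ball of directions -/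
noncomputable def wint (K : Set E3) : ℝ := ∫ v in Metric.closedBall (0 : E3) 1, ext v K

theorem ext_integrable {K : Set E3} (hK : IsCompact K) (hne : K.Nonempty) :
    IntegrableOn (fun v => ext v K) (Metric.closedBall (0 : E3) 1) :=
  (ext_cont hK hne).continuousOn.integrableOn_compact (isCompact_closedBall _ _)

theorem wint_rot (A : E3 ≃ₗᵢ[ℝ] E3) (K : Set E3) :
    ∫ v in Metric.closedBall (0 : E3) 1, ext (A v) K = wint K := by
  have h1 : MeasurePreserving A volume volume := A.measurePreserving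
  have h2 := h1.setIntegral_preimage_emb A.toHomeomorph.measurableEmbedding (fun v => ext v K)
    (Metric.closedBall (0 : E3) 1)
  have h3 : A ⁻¹' Metric.closedBall (0 : E3) 1 = Metric.closedBall (0 : E3) 1 := by
    ext x
    simp
  rw [h3] at h2
  exact h2

theorem vol_image (g : E3 ≃ᵢ E3) (S : Set E3) : volume (g '' S) = volume S := by
  obtain ⟨A, b, hg⟩ := isom_form g
  have h1 : g '' S = (fun x => x + b) '' (A '' S) := by
    rw [image_image]
    exact image_congr (fun x _ => hg x)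
  rw [h1, image_add_right, measure_preimage_add_right]
  have h2 : A '' S = A.symm ⁻¹' S := A.toEquiv.image_eq_preimage_symm S
  rw [h2]
  exact A.symm.measurePreserving.measure_preimage_emb A.symm.toHomeomorph.measurableEmbedding S

end Pool.Agent.Lib.MP_f0132d_co.SF52
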