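import Mathlib

/-!
Planar part of the sweep: convex sets with disjoint interiors around a point of the plane,
lexicographic order.
-/

namespace Pool.Agent.Lib.MP_f0132d_co.SF52

open Set

/-- lexicographically positive vectors of the plane -/
def Pos (v : ℝ × ℝ) : Prop := 0 < v.1 ∨ (v.1 = 0 ∧ 0 < v.2)

theorem pos_trichotomy (v : ℝ × ℝ) : v = 0 ∨ Pos v ∨ Pos (-v) := by
  unfold Pos
  rcases lt_trichotomy v.1 0 with h | h | h
  · right; right; left
    simpa using h
  · rcases lt_trichotomy v.2 0 with k | k | k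
    · right; right; right
      exact ⟨by simpa using h, by simpa using k⟩
    · left
      exact Prod.ext h k
    · right; left; right
      exact ⟨h, k⟩
  · right; left; left
    exact h

theorem Pos.ne_zero {v : ℝ × ℝ} (h : Pos v) : v ≠ 0 := by
  rintro rfl
  rcases h with h | ⟨-, h⟩ <;> simp at h

theorem Pos.add {v w : ℝ × ℝ} (hv : Pos v) (hw : Pos w) : Pos (v + w) := by
  unfold Pos at *
  simp only [Prod.fst_add, Prod.snd_add]
  rcases hv with hv | ⟨hv, hv'⟩ <;> rcases hw with hw | ⟨hw, hw'⟩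
  · left; linarith
  · left; linarith
  · left; linarith
  · right; constructor <;> linarith

theorem Pos.smul {v : ℝ × ℝ} (hv : Pos v) {c : ℝ} (hc : 0 < c) : Pos (c • v) := by
  unfold Pos at *
  simp only [Prod.smul_fst, Prod.smul_snd, smul_eq_mul]
  rcases hv with hv | ⟨hv, hv'⟩
  · left; positivity
  · right
    exact ⟨by rw [hv]; ring, by positivity⟩

theorem Pos.not_neg {v : ℝ × ℝ} (hv : Pos v) : ¬ Pos (-v) := by
  intro h
  have := (hv.add h).ne_zero
  simp at this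

/-- the perturbed first coordinate -/
def gg (ε : ℝ) (v : ℝ × ℝ) : ℝ := v.1 + ε * v.2

theorem gg_sub (ε : ℝ) (v w : ℝ × ℝ) : gg ε (v - w) = gg ε v - gg ε w := by
  simp only [gg, Prod.fst_sub, Prod.snd_sub]; ring

theorem exists_gg_pos {v : ℝ × ℝ} (hv : Pos v) : ∃ ε₀ : ℝ, 0 < ε₀ ∧ ∀ ε, 0 < ε → ε ≤ ε₀ → 0 < gg ε v := by
  unfold gg
  rcases hv with hv | ⟨hv, hv'⟩
  · refine ⟨v.1 / (|v.2| + 1), by positivity, ?_⟩
    intro ε h0 h1
    have h2 : ε * (|v.2| + 1) ≤ v.1 := by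
      rwa [le_div_iff₀ (by positivity)] at h1
    have h3 := neg_abs_le v.2
    have h4 : ε * (-|v.2|) ≤ ε * v.2 := mul_le_mul_of_nonneg_left h3 h0.le
    nlinarith
  · refine ⟨1, one_pos, ?_⟩
    intro ε h0 _
    rw [hv]
    positivity

/-- a convex set with interior which straddles `p` in the direction `gg ε` contains interior points
at the height of `p` -/
theorem exists_level {Q : Set (ℝ × ℝ)} (hc : Convex ℝ Q) (hi : (interior Q).Nonempty)
    {p u v : ℝ × ℝ} (hu : u ∈ Q) (hv : v ∈ Q) {ε : ℝ} (h1 : gg ε u < gg ε p)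
    (h2 : gg ε p < gg ε v) : ∃ w ∈ interior Q, gg ε w = gg ε p := by
  have hcont : Continuous (gg ε) := by unfold gg; fun_prop
  have hcl : Q ⊆ closure (interior Q) := by
    rw [hc.closure_interior_eq_closure_of_nonempty_interior hi]
    exact subset_closure
  obtain ⟨u', hu1, hu2⟩ : ∃ u', u' ∈ {x | gg ε x < gg ε p} ∧ u' ∈ interior Q := by
    have := mem_closure_iff.1 (hcl hu) {x | gg ε x < gg ε p}
      (isOpen_lt hcont continuous_const) h1
    obtain ⟨x, hx⟩ := this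
    exact ⟨x, hx.1, hx.2⟩
  obtain ⟨v', hv1, hv2⟩ : ∃ v', v' ∈ {x | gg ε p < gg ε x} ∧ v' ∈ interior Q := by
    have := mem_closure_iff.1 (hcl hv) {x | gg ε p < gg ε x}
      (isOpen_lt continuous_const hcont) h2
    obtain ⟨x, hx⟩ := this
    exact ⟨x, hx.1, hx.2⟩
  change gg ε u' < gg ε p at hu1
  change gg ε p < gg ε v' at hv1
  have hpos : 0 < gg ε v' - gg ε u' := by linarith
  set t := (gg ε p - gg ε u') / (gg ε v' - gg ε u') with ht
  have ht0 : 0 ≤ t := div_nonneg (by linarith) hpos.le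
  have ht1 : t ≤ 1 := by
    rw [ht, div_le_one hpos]; linarith
  refine ⟨(1 - t) • u' + t • v', hc.interior hu2 hv2 (by linarith) ht0 (by ring), ?_⟩
  have : gg ε ((1 - t) • u' + t • v') = gg ε u' + t * (gg ε v' - gg ε u') := by
    simp only [gg, Prod.fst_add, Prod.snd_add, Prod.smul_fst, Prod.smul_snd, smul_eq_mul]
    ring
  rw [this, ht, div_mul_cancel₀ _ hpos.ne']
  ring

theorem ray_interior {Q : Set (ℝ × ℝ)} (hc : Convex ℝ Q) {p w r : ℝ × ℝ} {s t : ℝ}
    (hp : p ∈ Q) (hw : w ∈ interior Q) (hwp : w - p = s • r) (ht : 0 < t) (hts : t < s) :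
    p + t • r ∈ interior Q := by
  apply hc.openSegment_self_interior_subset_interior hp hw
  refine ⟨1 - t / s, t / s, ?_, div_pos ht (ht.trans hts), by ring, ?_⟩
  · have : t / s < 1 := by rw [div_lt_one (ht.trans hts)]; exact hts
    linarith
  · have : w = p + s • r := by rw [← hwp]; abel
    rw [this, smul_add, smul_smul, div_mul_cancel₀ _ (by linarith : s ≠ 0)]
    rw [sub_smul, one_smul]
    abel

/-- the data of a side set at `p` -/
structure Straddle (Q : Set (ℝ × ℝ)) (p : ℝ × ℝ) : Prop where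
  conv : Convex ℝ Q
  int : (interior Q).Nonempty
  mem : p ∈ Q
  nint : p ∉ interior Q
  below : ∃ u ∈ Q, Pos (p - u)
  above : ∃ v ∈ Q, Pos (v - p)

theorem straddle_dir {Q : Set (ℝ × ℝ)} {p : ℝ × ℝ} (h : Straddle Q p) :
    ∃ ε₀ : ℝ, 0 < ε₀ ∧ ∀ ε, 0 < ε → ε ≤ ε₀ → ∃ s : ℝ, s ≠ 0 ∧
      ∃ w ∈ interior Q, w - p = s • ((-ε, 1) : ℝ × ℝ) := by
  obtain ⟨u, hu, hpu⟩ := h.below
  obtain ⟨v, hv, hpv⟩ := h.above
  obtain ⟨ε₁, h1, h1'⟩ := exists_gg_pos hpu
  obtain ⟨ε₂, h2, h2'⟩ := exists_gg_pos hpv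
  refine ⟨min ε₁ ε₂, lt_min h1 h2, ?_⟩
  intro ε h0 hle
  have k1 := h1' ε h0 (hle.trans (min_le_left _ _))
  have k2 := h2' ε h0 (hle.trans (min_le_right _ _))
  rw [gg_sub] at k1 k2
  obtain ⟨w, hw, hwl⟩ := exists_level h.conv h.int hu hv (ε := ε) (p := p) (by linarith)
    (by linarith)
  have e1 : (w - p).1 = -ε * (w - p).2 := by
    have : gg ε (w - p) = 0 := by rw [gg_sub, hwl]; ring
    unfold gg at this
    linarith
  have e2 : w - p = (w - p).2 • ((-ε, 1) : ℝ × ℝ) := by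
    ext
    · rw [Prod.smul_fst, smul_eq_mul]; rw [e1]; ring
    · simp
  refine ⟨(w - p).2, ?_, w, hw, e2⟩
  intro h0'
  rw [h0', zero_smul] at e2
  rw [sub_eq_zero] at e2
  exact h.nint (e2 ▸ hw)

/-- two side sets on the same side have a common interior point -/
theorem same_side {Q₁ Q₂ : Set (ℝ × ℝ)} {p r w₁ w₂ : ℝ × ℝ} (h1 : Convex ℝ Q₁) (h2 : Convex ℝ Q₂)
    (hp1 : p ∈ Q₁) (hp2 : p ∈ Q₂) (hw1 : w₁ ∈ interior Q₁) (hw2 : w₂ ∈ interior Q₂) {s₁ s₂ : ℝ}
    (e1 : w₁ - p = s₁ • r) (e2 : w₂ - p = s₂ • r) (hs1 : 0 < s₁) (hs2 : 0 < s₂) :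
    (interior Q₁ ∩ interior Q₂).Nonempty := by
  have hm : 0 < min s₁ s₂ := lt_min hs1 hs2
  refine ⟨p + (min s₁ s₂ / 2) • r, ?_, ?_⟩
  · exact ray_interior h1 hp1 hw1 e1 (by linarith) (by linarith [min_le_left s₁ s₂])
  · exact ray_interior h2 hp2 hw2 e2 (by linarith) (by linarith [min_le_right s₁ s₂])

theorem same_side' {Q₁ Q₂ : Set (ℝ × ℝ)} {p r w₁ w₂ : ℝ × ℝ} (h1 : Convex ℝ Q₁) (h2 : Convex ℝ Q₂)
    (hp1 : p ∈ Q₁) (hp2 : p ∈ Q₂) (hw1 : w₁ ∈ interior Q₁) (hw2 : w₂ ∈ interior Q₂) {s₁ s₂ : ℝ}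
    (e1 : w₁ - p = s₁ • r) (e2 : w₂ - p = s₂ • r) (hs1 : s₁ < 0) (hs2 : s₂ < 0) :
    (interior Q₁ ∩ interior Q₂).Nonempty :=
  same_side h1 h2 hp1 hp2 hw1 hw2 (r := -r) (s₁ := -s₁) (s₂ := -s₂)
    (by rw [e1, smul_neg, neg_smul, neg_neg]) (by rw [e2, smul_neg, neg_smul, neg_neg])
    (by linarith) (by linarith)

/-- at most two side sets at a point -/
theorem no_three {Q₁ Q₂ Q₃ : Set (ℝ × ℝ)} {p : ℝ × ℝ} (h1 : Straddle Q₁ p) (h2 : Straddle Q₂ p)
    (h3 : Straddle Q₃ p) (d12 : Disjoint (interior Q₁) (interior Q₂))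
    (d13 : Disjoint (interior Q₁) (interior Q₃)) (d23 : Disjoint (interior Q₂) (interior Q₃)) :
    False := by
  obtain ⟨a, ha, ha'⟩ := straddle_dir h1
  obtain ⟨b, hb, hb'⟩ := straddle_dir h2
  obtain ⟨c, hc, hc'⟩ := straddle_dir h3
  set ε := min a (min b c) with hε
  have hε0 : 0 < ε := lt_min ha (lt_min hb hc)
  obtain ⟨s₁, z1, w₁, k1, e1⟩ := ha' ε hε0 (min_le_left _ _)
  obtain ⟨s₂, z2, w₂, k2, e2⟩ := hb' ε hε0 ((min_le_right _ _).trans (min_le_left _ _))
  obtain ⟨s₃, z3, w₃, k3, e3⟩ := hc' ε hε0 ((min_le_right _ _).trans (min_le_right _ _))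
  have n12 : ¬ (interior Q₁ ∩ interior Q₂).Nonempty := by
    rw [not_nonempty_iff_eq_empty]; exact d12.inter_eq
  have n13 : ¬ (interior Q₁ ∩ interior Q₃).Nonempty := by
    rw [not_nonempty_iff_eq_empty]; exact d13.inter_eq
  have n23 : ¬ (interior Q₂ ∩ interior Q₃).Nonempty := by
    rw [not_nonempty_iff_eq_empty]; exact d23.inter_eq
  rcases lt_or_gt_of_ne z1 with m1 | m1 <;> rcases lt_or_gt_of_ne z2 with m2 | m2 <;>
    rcases lt_or_gt_of_ne z3 with m3 | m3
  · exact n12 (same_side' h1.conv h2.conv h1.mem h2.mem k1 k2 e1 e2 m1 m2)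
  · exact n12 (same_side' h1.conv h2.conv h1.mem h2.mem k1 k2 e1 e2 m1 m2)
  · exact n13 (same_side' h1.conv h3.conv h1.mem h3.mem k1 k3 e1 e3 m1 m3)
  · exact n23 (same_side h2.conv h3.conv h2.mem h3.mem k2 k3 e2 e3 m2 m3)
  · exact n23 (same_side' h2.conv h3.conv h2.mem h3.mem k2 k3 e2 e3 m2 m3)
  · exact n13 (same_side h1.conv h3.conv h1.mem h3.mem k1 k3 e1 e3 m1 m3)
  · exact n12 (same_side h1.conv h2.conv h1.mem h2.mem k1 k2 e1 e2 m1 m2)
  · exact n12 (same_side h1.conv h2.conv h1.mem h2.mem k1 k2 e1 e2 m1 m2)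

/-- `p` is a point of `Q` which is not the midpoint of two different points of `Q` -/
def Ext (Q : Set (ℝ × ℝ)) (p : ℝ × ℝ) : Prop :=
  p ∈ Q ∧ ∀ v : ℝ × ℝ, p + v ∈ Q → p - v ∈ Q → v = 0

theorem Ext.nint {Q : Set (ℝ × ℝ)} {p : ℝ × ℝ} (h : Ext Q p) : p ∉ interior Q := by
  intro hp
  obtain ⟨δ, hδ, hb⟩ := Metric.isOpen_iff.1 isOpen_interior p hp
  have hm : ∀ v : ℝ × ℝ, ‖v‖ < δ → p + v ∈ Q := by
    intro v hv
    apply interior_subset
    apply hb
    rw [Metric.mem_ball, dist_eq_norm, add_sub_cancel_left]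
    exact hv
  have hn : ‖((δ / 2, 0) : ℝ × ℝ)‖ < δ := by
    rw [Prod.norm_def]
    simp only [norm_zero, Real.norm_eq_abs, abs_of_pos (half_pos hδ)]
    rw [max_eq_left (half_pos hδ).le]
    linarith
  have := h.2 (δ / 2, 0) (hm _ hn) (by
    rw [sub_eq_add_neg]
    exact hm _ (by rw [norm_neg]; exact hn))
  have h2 : δ / 2 = 0 := congrArg Prod.fst this
  linarith

theorem lin_apply (f : ℝ × ℝ →ₗ[ℝ] ℝ) (v : ℝ × ℝ) : f v = v.1 * f (1, 0) + v.2 * f (0, 1) := by
  have : v = v.1 • ((1, 0) : ℝ × ℝ) + v.2 • ((0, 1) : ℝ × ℝ) := by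
    ext <;> simp
  conv_lhs => rw [this]
  rw [map_add, map_smul, map_smul, smul_eq_mul, smul_eq_mul]

/-- a support functional at a point which is not interior -/
theorem exists_support {Q : Set (ℝ × ℝ)} (hc : Convex ℝ Q) (hi : (interior Q).Nonempty)
    {p : ℝ × ℝ} (hp : p ∉ interior Q) :
    ∃ f : ℝ × ℝ →ₗ[ℝ] ℝ, (∀ q ∈ Q, f q ≤ f p) ∧ ∃ a ∈ Q, f a < f p := by
  obtain ⟨f, hf⟩ := geometric_hahn_banach_open_point hc.interior isOpen_interior hp
  refine ⟨f.toLinearMap, ?_, ?_⟩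
  · intro q hq
    have hcl : Q ⊆ closure (interior Q) := by
      rw [hc.closure_interior_eq_closure_of_nonempty_interior hi]
      exact subset_closure
    have hclosed : IsClosed {x | f x ≤ f p} := isClosed_le f.continuous continuous_const
    have : closure (interior Q) ⊆ {x | f x ≤ f p} :=
      hclosed.closure_subset_iff.2 (fun x hx => (hf x hx).le)
    exact this (hcl hq)
  · obtain ⟨a, ha⟩ := hi
    exact ⟨a, interior_subset ha, hf a ha⟩

/-- some tile at a vertex has it as first or last point -/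
theorem exists_first_last {ι : Type*} [DecidableEq ι] (J : Finset ι) (Q : ι → Set (ℝ × ℝ))
    (p : ℝ × ℝ) (hcl : ∀ j ∈ J, IsClosed (Q j)) (hc : ∀ j ∈ J, Convex ℝ (Q j))
    (hi : ∀ j ∈ J, (interior (Q j)).Nonempty) (hp : ∀ j ∈ J, p ∈ Q j)
    (hd : ∀ i ∈ J, ∀ j ∈ J, i ≠ j → Disjoint (interior (Q i)) (interior (Q j)))
    {δ : ℝ} (hδ : 0 < δ) (hcov : ∀ q, ‖q - p‖ < δ → ∃ j ∈ J, q ∈ Q j)
    {j₀ : ι} (hj₀ : j₀ ∈ J) (hext : Ext (Q j₀) p) :
    ∃ j ∈ J, (∀ q ∈ Q j, q = p ∨ Pos (q - p)) ∨ (∀ q ∈ Q j, q = p ∨ Pos (p - q)) := by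
  by_contra hcon
  push Not at hcon
  have hni : ∀ j ∈ J, p ∉ interior (Q j) := by
    intro j hj hpj
    by_cases h : j = j₀
    · subst h
      exact hext.nint hpj
    · have hcl0 : Q j₀ ⊆ closure (interior (Q j₀)) := by
        rw [(hc j₀ hj₀).closure_interior_eq_closure_of_nonempty_interior (hi j₀ hj₀)]
        exact subset_closure
      have := mem_closure_iff.1 (hcl0 hext.1) (interior (Q j)) isOpen_interior hpj
      rw [(hd j hj j₀ hj₀ h).inter_eq] at this
      exact not_nonempty_empty this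
  have hst : ∀ j ∈ J, Straddle (Q j) p := by
    intro j hj
    obtain ⟨⟨u, hu, hu1, hu2⟩, v, hv, hv1, hv2⟩ := hcon j hj
    refine ⟨hc j hj, hi j hj, hp j hj, hni j hj, ⟨u, hu, ?_⟩, ⟨v, hv, ?_⟩⟩
    · rcases pos_trichotomy (u - p) with h | h | h
      · exact absurd (sub_eq_zero.1 h) hu1
      · exact absurd h hu2
      · rwa [neg_sub] at h
    · rcases pos_trichotomy (p - v) with h | h | h
      · exact absurd (sub_eq_zero.1 h).symm hv1
      · exact absurd h hv2
      · rwa [neg_sub] at h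
  obtain ⟨f, hf, a, ha, hfa⟩ := exists_support (hc j₀ hj₀) (hi j₀ hj₀) (hni j₀ hj₀)
  -- small points on the positive side of `f` are in another set
  have hout : ∀ v : ℝ × ℝ, 0 < f v → ‖v‖ < δ → ∃ j ∈ J, j ≠ j₀ ∧ p + v ∈ Q j := by
    intro v hv hvδ
    obtain ⟨j, hj, hq⟩ := hcov (p + v) (by rw [add_sub_cancel_left]; exact hvδ)
    refine ⟨j, hj, ?_, hq⟩
    rintro rfl
    have := hf _ hq
    rw [map_add] at this
    linarith
  set v₀ := p - a with hv₀
  have hfv₀ : 0 < f v₀ := by rw [hv₀, map_sub]; linarith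
  obtain ⟨j₁, hj₁, hne, -⟩ : ∃ j ∈ J, j ≠ j₀ ∧ p + (δ / 2 / (‖v₀‖ + 1)) • v₀ ∈ Q j := by
    apply hout
    · rw [map_smul, smul_eq_mul]
      positivity
    · rw [norm_smul, Real.norm_eq_abs, abs_of_nonneg (by positivity)]
      have : δ / 2 / (‖v₀‖ + 1) * ‖v₀‖ ≤ δ / 2 := by
        rw [div_mul_eq_mul_div, div_le_iff₀ (by positivity)]
        nlinarith [norm_nonneg v₀]
      linarith
  have hJ : ∀ j ∈ J, j = j₀ ∨ j = j₁ := by
    intro j hj
    by_contra h
    push Not at h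
    exact no_three (hst j₀ hj₀) (hst j₁ hj₁) (hst j hj) (hd j₀ hj₀ j₁ hj₁ (Ne.symm hne))
      (hd j₀ hj₀ j hj (Ne.symm h.1)) (hd j₁ hj₁ j hj (Ne.symm h.2))
  obtain ⟨g, hg, b, hb, hgb⟩ := exists_support (hc j₁ hj₁) (hi j₁ hj₁) (hni j₁ hj₁)
  have hfg : ∀ v : ℝ × ℝ, 0 < f v → g v ≤ 0 := by
    intro v hv
    have hc0 : 0 < δ / 2 / (‖v‖ + 1) := by positivity
    obtain ⟨j, hj, hjne, hq⟩ := hout ((δ / 2 / (‖v‖ + 1)) • v)
      (by rw [map_smul, smul_eq_mul]; positivity)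
      (by
        rw [norm_smul, Real.norm_eq_abs, abs_of_nonneg (by positivity)]
        have : δ / 2 / (‖v‖ + 1) * ‖v‖ ≤ δ / 2 := by
          rw [div_mul_eq_mul_div, div_le_iff₀ (by positivity)]
          nlinarith [norm_nonneg v]
        linarith)
    have hj1 : j = j₁ := (hJ j hj).resolve_left hjne
    subst hj1
    have := hg _ hq
    rw [map_add, map_smul, smul_eq_mul] at this
    have h2 : δ / 2 / (‖v‖ + 1) * g v ≤ 0 := by linarith
    by_contra hcon2
    push Not at hcon2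
    have := mul_pos hc0 hcon2
    linarith
  -- the kernel direction
  set k : ℝ × ℝ := (-f (0, 1), f (1, 0)) with hk
  have hfk : f k = 0 := by
    rw [lin_apply f k, hk]
    ring
  have hk0 : k ≠ 0 := by
    intro h
    have h1 : f (0, 1) = 0 := by
      have := congrArg Prod.fst h
      simpa [hk] using this
    have h2 : f (1, 0) = 0 := by
      have := congrArg Prod.snd h
      simpa [hk] using this
    rw [lin_apply f v₀, h1, h2] at hfv₀
    simp at hfv₀
  have hgk : ∀ c : ℝ, g (c • k) ≤ 0 := by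
    intro c
    by_contra hcon2
    push Not at hcon2
    have hgv : g v₀ ≤ 0 := hfg v₀ hfv₀
    set s := g (c • k) / (2 * (-(g v₀) + 1)) with hs
    have hs0 : 0 < s := by
      rw [hs]
      apply div_pos hcon2
      linarith
    have h1 := hfg (c • k + s • v₀) (by
      rw [map_add, map_smul, map_smul, hfk, smul_eq_mul, smul_eq_mul]
      have := mul_pos hs0 hfv₀
      linarith)
    rw [map_add, map_smul g s v₀, smul_eq_mul] at h1
    have h2 : s * (2 * (-(g v₀) + 1)) = g (c • k) := by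
      rw [hs]
      exact div_mul_cancel₀ _ (by linarith : (2 * (-(g v₀) + 1)) ≠ 0)
    nlinarith
  have hgk0 : g k = 0 := by
    have h1 := hgk 1
    have h2 := hgk (-1)
    rw [one_smul] at h1
    rw [map_smul, smul_eq_mul] at h2
    linarith
  have hgv₀ : g v₀ < 0 := by
    rcases lt_or_eq_of_le (hfg v₀ hfv₀) with h | h
    · exact h
    · exfalso
      -- then `g` vanishes on `k` and `v₀`, hence everywhere
      have hdet : k.1 * v₀.2 - k.2 * v₀.1 ≠ 0 := by
        have : k.1 * v₀.2 - k.2 * v₀.1 = - f v₀ := by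
          rw [lin_apply f v₀, hk]
          ring
        rw [this]
        linarith
      have e1 := lin_apply g k
      have e2 := lin_apply g v₀
      rw [hgk0] at e1
      rw [h] at e2
      have g1 : g (1, 0) = 0 := by
        have : g (1, 0) * (k.1 * v₀.2 - k.2 * v₀.1) = 0 := by linear_combination (-v₀.2) * e1 + k.2 * e2
        exact (mul_eq_zero.1 this).resolve_right hdet
      have g2 : g (0, 1) = 0 := by
        have : g (0, 1) * (k.1 * v₀.2 - k.2 * v₀.1) = 0 := by linear_combination v₀.1 * e1 - k.1 * e2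
        exact (mul_eq_zero.1 this).resolve_right hdet
      have g3 : ∀ x, g x = 0 := by
        intro x
        rw [lin_apply g x, g1, g2]
        ring
      rw [g3, g3] at hgb
      exact lt_irrefl _ hgb
  -- small multiples of the kernel direction stay in `Q j₀`
  have hin : ∀ c : ℝ, ‖c • k‖ < δ → p + c • k ∈ Q j₀ := by
    intro c hck
    have hseq : Filter.Tendsto (fun s : ℝ => p + c • k - s • v₀) (nhdsWithin 0 (Set.Ioi 0))
        (nhds (p + c • k)) := by
      have h1 : Filter.Tendsto (fun s : ℝ => p + c • k - s • v₀) (nhds 0)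
          (nhds (p + c • k - (0 : ℝ) • v₀)) := by
        apply Continuous.tendsto
        fun_prop
      rw [zero_smul, sub_zero] at h1
      exact h1.mono_left nhdsWithin_le_nhds
    apply (hcl j₀ hj₀).mem_of_tendsto hseq
    have hnear : ∀ᶠ s : ℝ in nhdsWithin 0 (Set.Ioi 0), ‖c • k - s • v₀‖ < δ := by
      have h1 : Filter.Tendsto (fun s : ℝ => ‖c • k - s • v₀‖) (nhds 0)
          (nhds ‖c • k - (0 : ℝ) • v₀‖) := by
        apply Continuous.tendsto
        fun_prop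
      rw [zero_smul, sub_zero] at h1
      exact (h1.mono_left nhdsWithin_le_nhds).eventually (gt_mem_nhds hck)
    filter_upwards [hnear, self_mem_nhdsWithin] with s hs hs0
    have hs0' : (0 : ℝ) < s := hs0
    obtain ⟨j, hj, hq⟩ := hcov (p + c • k - s • v₀) (by
      have : p + c • k - s • v₀ - p = c • k - s • v₀ := by abel
      rw [this]; exact hs)
    rcases hJ j hj with h | h
    · rw [← h]; exact hq
    · exfalso
      rw [h] at hq
      have := hg _ hq
      rw [map_sub, map_add, map_smul, map_smul, hgk0, smul_eq_mul, smul_eq_mul] at this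
      have := mul_neg_of_pos_of_neg hs0' hgv₀
      linarith
  set c := δ / 2 / (‖k‖ + 1) with hcdef
  have hc0 : 0 < c := by positivity
  have hcn : ‖c • k‖ < δ := by
    rw [norm_smul, Real.norm_eq_abs, abs_of_pos hc0, hcdef]
    have : δ / 2 / (‖k‖ + 1) * ‖k‖ ≤ δ / 2 := by
      rw [div_mul_eq_mul_div, div_le_iff₀ (by positivity)]
      nlinarith [norm_nonneg k]
    linarith
  have h1 := hin c hcn
  have h2 := hin (-c) (by rw [neg_smul, norm_neg]; exact hcn)
  have := hext.2 (c • k) h1 (by rw [neg_smul, ← sub_eq_add_neg] at h2; exact h2)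
  rcases smul_eq_zero.1 this with h | h
  · linarith
  · exact hk0 h

end Pool.Agent.Lib.MP_f0132d_co.SF52
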