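import Pool.Agent.Lib.MP_f0132d_co.PrismD52

/-!
The angle sum of a convex polygon, in terms of volumes.
-/

namespace Pool.Agent.Lib.MP_f0132d_co.SF52

open Set MeasureTheory

/-- the points of `S` are in convex position -/
def CP (S : Finset (ℝ × ℝ)) : Prop := ∀ q ∈ S, q ∉ convexHull ℝ ((S : Set (ℝ × ℝ)) \ {q})

/-- the convex polygon with the vertices `S` -/
def poly (S : Finset (ℝ × ℝ)) : Set (ℝ × ℝ) := convexHull ℝ (S : Set (ℝ × ℝ))

theorem poly_compact (S : Finset (ℝ × ℝ)) : IsCompact (poly S) :=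
  S.finite_toSet.isCompact_convexHull ℝ

theorem poly_convex (S : Finset (ℝ × ℝ)) : Convex ℝ (poly S) := convex_convexHull ℝ _

/-- points of the polygon relative to a vertex -/
theorem poly_split {S : Finset (ℝ × ℝ)} {q : ℝ × ℝ} (hq : q ∈ S)
    (hne : ((S : Set (ℝ × ℝ)) \ {q}).Nonempty) {x : ℝ × ℝ} (hx : x ∈ poly S) :
    ∃ t : ℝ, 0 ≤ t ∧ ∃ z ∈ convexHull ℝ ((S : Set (ℝ × ℝ)) \ {q}), x = q + t • (z - q) := by
  have h1 : (S : Set (ℝ × ℝ)) = insert q ((S : Set (ℝ × ℝ)) \ {q}) := by
    rw [insert_sdiff_singleton, insert_eq_of_mem (show q ∈ (S : Set (ℝ × ℝ)) from hq)]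
  unfold poly at hx
  rw [h1, convexHull_insert hne, mem_convexJoin] at hx
  obtain ⟨a, ha, z, hz, hx⟩ := hx
  rw [mem_singleton_iff] at ha
  subst ha
  obtain ⟨α, β, hα, hβ, hαβ, rfl⟩ := hx
  refine ⟨β, hβ, z, hz, ?_⟩
  have : α = 1 - β := by linarith
  rw [this, sub_smul, one_smul, smul_sub]
  abel

/-- the directions at a vertex are away from a line -/
theorem vertex_cone {S : Finset (ℝ × ℝ)} (hS : CP S) {q : ℝ × ℝ} (hq : q ∈ S)
    (hne : ((S : Set (ℝ × ℝ)) \ {q}).Nonempty) :
    ∃ f : ℝ × ℝ →L[ℝ] ℝ, ∃ κ : ℝ, 0 < κ ∧ f ≠ 0 ∧ ∀ w ∈ fc (poly S) q, f w ≤ -(κ * ‖w‖) := by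
  set K := convexHull ℝ ((S : Set (ℝ × ℝ)) \ {q}) with hK
  have hKc : IsCompact K := by
    rw [hK]
    exact (S.finite_toSet.subset sdiff_subset).isCompact_convexHull ℝ
  obtain ⟨f, u, hf, hu⟩ := geometric_hahn_banach_closed_point (convex_convexHull ℝ _)
    hKc.isClosed (hS q hq)
  obtain ⟨C, hC⟩ := hKc.isBounded.exists_norm_le
  set D := |C| + ‖q‖ + 1 with hD
  have hD0 : 0 < D := by positivity
  have hz : ∀ z ∈ K, ‖z - q‖ ≤ D := by
    intro z hz
    have h1 := hC z hz
    have h2 := norm_sub_le z q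
    have h3 := le_abs_self C
    linarith
  refine ⟨f, (f q - u) / D, div_pos (by linarith) hD0, ?_, ?_⟩
  · rintro rfl
    obtain ⟨s, hs⟩ := hne
    have := hf s (subset_convexHull ℝ _ hs)
    simp at this hu
    linarith
  · rintro w ⟨ε, h0, h1⟩
    obtain ⟨t, ht, z, hzK, e⟩ := poly_split hq hne h1
    have e1 : ε • w = t • (z - q) := add_left_cancel e
    have h2 : ε * f w = t * (f z - f q) := by
      have := congrArg f e1
      rw [map_smul, map_smul, map_sub, smul_eq_mul, smul_eq_mul] at this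
      exact this
    have h3 : ε * ‖w‖ = t * ‖z - q‖ := by
      have := congrArg norm e1
      rw [norm_smul, norm_smul, Real.norm_eq_abs, Real.norm_eq_abs, abs_of_pos h0,
        abs_of_nonneg ht] at this
      exact this
    have h4 := hf z hzK
    have h5 := hz z hzK
    -- ε f w = t (f z - f q) ≤ - t (f q - u) ≤ - t ‖z - q‖ (f q - u) / D
    have h6 : t * (f z - f q) ≤ -(t * (f q - u)) := by nlinarith
    have h7 : t * ‖z - q‖ * ((f q - u) / D) ≤ t * (f q - u) := by
      rw [mul_assoc]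
      apply mul_le_mul_of_nonneg_left _ ht
      rw [mul_div_assoc', div_le_iff₀ hD0]
      nlinarith
    have h8 : ε * f w ≤ ε * (-((f q - u) / D * ‖w‖)) := by
      have : ε * (-((f q - u) / D * ‖w‖)) = -(ε * ‖w‖ * ((f q - u) / D)) := by ring
      rw [this, h3, h2]
      linarith
    exact le_of_mul_le_mul_left h8 h0

theorem fc_meas2 {P : Set (ℝ × ℝ)} (hP : Convex ℝ P) (hc : IsClosed P) {x : ℝ × ℝ} (hx : x ∈ P) :
    MeasurableSet (fc P x) := by
  rw [fc_eq_iUnion hP hx]
  apply MeasurableSet.iUnion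
  intro m
  exact (hc.preimage (by fun_prop : Continuous fun w : ℝ × ℝ =>
    x + ((m : ℝ) + 1)⁻¹ • w)).measurableSet

theorem cyl_meas {C : Set (ℝ × ℝ)} (hC : MeasurableSet C) : MeasurableSet (Cyl C) :=
  hC.preimage pr_cont.measurable

/-- the directions of the unit ball outside of the cone at `q` and its opposite -/
def Out (S : Finset (ℝ × ℝ)) (q : ℝ × ℝ) : Set E3 :=
  {w | pr w ∉ fc (poly S) q ∧ -(pr w) ∉ fc (poly S) q} ∩ BB

theorem pr_null : volume {w : E3 | pr w = 0} = 0 := by
  apply measure_mono_null _ (null_ker (co_ne 0))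
  intro w hw
  exact congrArg Prod.fst hw

/-- the cone and its complement -/
theorem th_out {S : Finset (ℝ × ℝ)} (hS : CP S) {q : ℝ × ℝ} (hq : q ∈ S)
    (hne : ((S : Set (ℝ × ℝ)) \ {q}).Nonempty) :
    2 * th (fc (poly S) q) + (volume (Out S q)).toReal = bb := by
  set C := fc (poly S) q with hC
  have hqP : q ∈ poly S := subset_convexHull ℝ _ hq
  have hCm : MeasurableSet C := fc_meas2 (poly_convex S) (poly_compact S).isClosed hqP
  have hm1 : MeasurableSet (Cyl C) := cyl_meas hCm
  have hm2 : MeasurableSet {w : E3 | -w ∈ Cyl C} := hm1.preimage measurable_neg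
  have h1 := measure_inter_add_sdiff (μ := volume) BB hm1
  have h2 := measure_inter_add_sdiff (μ := volume) (BB \ Cyl C) hm2
  have e1 : (BB \ Cyl C) \ {w : E3 | -w ∈ Cyl C} = Out S q := by
    ext w
    constructor
    · rintro ⟨⟨k1, k2⟩, k3⟩
      refine ⟨⟨k2, ?_⟩, k1⟩
      intro k4
      apply k3
      change pr (-w) ∈ C
      rw [map_neg]
      exact k4
    · rintro ⟨⟨k2, k3⟩, k1⟩
      refine ⟨⟨k1, k2⟩, ?_⟩
      intro k4
      change pr (-w) ∈ C at k4
      rw [map_neg] at k4
      exact k3 k4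
  have e2 : volume ((BB \ Cyl C) ∩ {w : E3 | -w ∈ Cyl C}) = volume (Cyl C ∩ BB) := by
    rw [← vol_neg (Cyl C)]
    apply le_antisymm
    · apply measure_mono
      rintro w ⟨⟨k1, -⟩, k3⟩
      exact ⟨k3, k1⟩
    · obtain ⟨f, κ, hκ, hf, hcone⟩ := vertex_cone hS hq hne
      have hsub : {w : E3 | -w ∈ Cyl C} ∩ BB ⊆
          ((BB \ Cyl C) ∩ {w : E3 | -w ∈ Cyl C}) ∪ {w | pr w = 0} := by
        rintro w ⟨k1, k2⟩
        by_cases k3 : w ∈ Cyl C
        · right
          have a1 := hcone _ k3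
          have k1' : pr (-w) ∈ C := k1
          rw [map_neg] at k1'
          have a2 := hcone _ k1'
          rw [map_neg, norm_neg] at a2
          have : κ * ‖pr w‖ ≤ 0 := by linarith
          have h0 : ‖pr w‖ ≤ 0 := by
            by_contra hc
            push Not at hc
            have := mul_pos hκ hc
            linarith
          exact norm_le_zero_iff.1 h0
        · left
          exact ⟨⟨k2, k3⟩, k1⟩
      refine (measure_mono hsub).trans ((measure_union_le _ _).trans ?_)
      rw [pr_null, add_zero]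
  rw [e1, e2] at h2
  rw [← h2, inter_comm BB] at h1
  have h3 : volume (Out S q) ≠ ⊤ := inter_BB_ne_top _
  unfold th bb
  rw [← h1, ENNReal.toReal_add (inter_BB_ne_top _) (ENNReal.add_ne_top.2 ⟨inter_BB_ne_top _, h3⟩),
    ENNReal.toReal_add (inter_BB_ne_top _) h3]
  ring

/-- the cone at a vertex is less than half of the space -/
theorem th_lt_half {S : Finset (ℝ × ℝ)} (hS : CP S) {q : ℝ × ℝ} (hq : q ∈ S)
    (hne : ((S : Set (ℝ × ℝ)) \ {q}).Nonempty) : th (fc (poly S) q) < bb / 2 := by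
  have h := th_out hS hq hne
  suffices h0 : 0 < (volume (Out S q)).toReal by linarith
  obtain ⟨f, κ, hκ, hf, hcone⟩ := vertex_cone hS hq hne
  -- a direction in the kernel of `f`
  obtain ⟨v, hv, hfv⟩ : ∃ v : ℝ × ℝ, v ≠ 0 ∧ f v = 0 := by
    refine ⟨(-(f (0, 1)), f (1, 0)), ?_, ?_⟩
    · intro h0
      apply hf
      have h1 : f (0, 1) = 0 := by
        have := congrArg Prod.fst h0
        simpa using this
      have h2 : f (1, 0) = 0 := by
        have := congrArg Prod.snd h0
        simpa using this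
      ext
      · simpa using h2
      · simpa using h1
    · have := lin_apply f.toLinearMap (-(f (0, 1)), f (1, 0))
      change f (-(f (0, 1)), f (1, 0)) = -(f (0, 1)) * f (1, 0) + f (1, 0) * f (0, 1) at this
      rw [this]
      ring
  set U : Set E3 := {w | |f (pr w)| < κ * ‖pr w‖} ∩ Metric.ball 0 1 with hU
  have hUo : IsOpen U := by
    apply IsOpen.inter _ Metric.isOpen_ball
    exact isOpen_lt ((f.continuous.comp pr_cont).abs) (continuous_const.mul pr_cont.norm)
  have hUn : U.Nonempty := by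
    set w₀ : E3 := !₂[v.1, v.2, 0] with hw₀
    have hpw : pr w₀ = v := rfl
    set c : ℝ := (2 * (‖w₀‖ + 1))⁻¹ with hc
    have hc0 : 0 < c := by positivity
    refine ⟨c • w₀, ?_, ?_⟩
    · change |f (pr (c • w₀))| < κ * ‖pr (c • w₀)‖
      rw [map_smul, hpw, map_smul, hfv, smul_zero, abs_zero, norm_smul]
      have h1 : 0 < ‖v‖ := norm_pos_iff.2 hv
      have h2 : 0 < ‖c‖ := norm_pos_iff.2 hc0.ne'
      positivity
    · rw [mem_ball_zero_iff, norm_smul, Real.norm_eq_abs, abs_of_pos hc0, hc]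
      rw [inv_mul_lt_iff₀ (by positivity)]
      nlinarith [norm_nonneg w₀]
  have hsub : U ⊆ Out S q := by
    rintro w ⟨h1, h2⟩
    have h1' : |f (pr w)| < κ * ‖pr w‖ := h1
    refine ⟨⟨?_, ?_⟩, Metric.ball_subset_closedBall h2⟩
    · intro h3
      have h4 := hcone _ h3
      have h5 := neg_abs_le (f (pr w))
      linarith
    · intro h3
      have h4 := hcone _ h3
      rw [map_neg, norm_neg] at h4
      have h5 := le_abs_self (f (pr w))
      linarith
  rw [ENNReal.toReal_pos_iff]
  exact ⟨(hUo.measure_pos volume hUn).trans_le (measure_mono hsub),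
    (inter_BB_ne_top _).lt_top⟩

/-- the determinant of two planar vectors, as a functional of the second -/
def dt (u x : ℝ × ℝ) : ℝ := u.1 * x.2 - u.2 * x.1

theorem dt_add (u x y : ℝ × ℝ) : dt u (x + y) = dt u x + dt u y := by
  simp only [dt, Prod.fst_add, Prod.snd_add]; ring

theorem dt_smul (u x : ℝ × ℝ) (c : ℝ) : dt u (c • x) = c * dt u x := by
  simp only [dt, Prod.smul_fst, Prod.smul_snd, smul_eq_mul]; ring

theorem dt_sub (u x y : ℝ × ℝ) : dt u (x - y) = dt u x - dt u y := by
  simp only [dt, Prod.fst_sub, Prod.snd_sub]; ring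

theorem dt_self (u : ℝ × ℝ) : dt u u = 0 := by
  simp only [dt]; ring

theorem dt_zero_of {u x : ℝ × ℝ} (hu : u ≠ 0) (h : dt u x = 0) : ∃ c : ℝ, x = c • u := by
  unfold dt at h
  by_cases h1 : u.1 = 0
  · have h2 : u.2 ≠ 0 := fun h2 => hu (Prod.ext h1 h2)
    refine ⟨x.2 / u.2, ?_⟩
    ext
    · rw [Prod.smul_fst, smul_eq_mul, h1, mul_zero]
      rw [h1, zero_mul, zero_sub, neg_eq_zero] at h
      exact (mul_eq_zero.1 h).resolve_left h2
    · rw [Prod.smul_snd, smul_eq_mul, div_mul_cancel₀ _ h2]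
  · refine ⟨x.1 / u.1, ?_⟩
    ext
    · rw [Prod.smul_fst, smul_eq_mul, div_mul_cancel₀ _ h1]
    · rw [Prod.smul_snd, smul_eq_mul]
      field_simp
      linarith

/-- for a generic direction exactly two vertices are out -/
theorem two_out {S : Finset (ℝ × ℝ)} (hS : CP S) (h2 : 2 ≤ S.card) {u : ℝ × ℝ}
    (hgen : ∀ s ∈ S, ∀ s' ∈ S, s ≠ s' → dt u (s - s') ≠ 0) :
    ∃ a ∈ S, ∃ b ∈ S, a ≠ b ∧ ∀ q ∈ S,
      ((u ∉ fc (poly S) q ∧ -u ∉ fc (poly S) q) ↔ (q = a ∨ q = b)) := by
  classical
  have hu : u ≠ 0 := by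
    rintro rfl
    obtain ⟨s, hs, s', hs', hne⟩ := Finset.one_lt_card.1 (by omega : 1 < S.card)
    apply hgen s hs s' hs' hne
    simp [dt]
  have hSn : S.Nonempty := Finset.card_pos.1 (by omega)
  have hinj : ∀ s ∈ S, ∀ s' ∈ S, dt u s = dt u s' → s = s' := by
    intro s hs s' hs' h
    by_contra hne
    apply hgen s hs s' hs' hne
    rw [dt_sub, h, sub_self]
  obtain ⟨a, ha, hamax⟩ := S.exists_max_image (dt u) hSn
  obtain ⟨b, hb, hbmin⟩ := S.exists_min_image (dt u) hSn
  have hab : a ≠ b := by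
    rintro rfl
    obtain ⟨s, hs, s', hs', hne⟩ := Finset.one_lt_card.1 (by omega : 1 < S.card)
    apply hne
    apply hinj s hs s' hs'
    have h1 := hamax s hs
    have h2 := hbmin s hs
    have h3 := hamax s' hs'
    have h4 := hbmin s' hs'
    linarith
  -- values on the polygon
  have hmem : ∀ x ∈ poly S, ∃ w : ℝ × ℝ → ℝ, (∀ y ∈ S, 0 ≤ w y) ∧ ∑ y ∈ S, w y = 1 ∧
      ∑ y ∈ S, w y • y = x := fun x hx => Finset.mem_convexHull'.1 hx
  have hdt : ∀ (w : ℝ × ℝ → ℝ), dt u (∑ y ∈ S, w y • y) = ∑ y ∈ S, w y * dt u y := by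
    intro w
    have : ∀ T : Finset (ℝ × ℝ), dt u (∑ y ∈ T, w y • y) = ∑ y ∈ T, w y * dt u y := by
      intro T
      induction T using Finset.induction_on with
      | empty => simp [dt]
      | insert x T hx ih => rw [Finset.sum_insert hx, Finset.sum_insert hx, dt_add, dt_smul, ih]
    exact this S
  -- a point of the polygon with an extreme value is the extreme vertex
  have hext : ∀ (a : ℝ × ℝ), a ∈ S → ∀ σ : ℝ, (∀ y ∈ S, y ≠ a → 0 < σ * (dt u a - dt u y)) →
      ∀ x ∈ poly S, dt u x = dt u a → x = a := by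
    intro a ha σ hσ x hx hxa
    obtain ⟨w, w0, w1, rfl⟩ := hmem x hx
    rw [hdt] at hxa
    have h1 : ∑ y ∈ S, w y * (σ * (dt u a - dt u y)) = 0 := by
      have : ∀ y ∈ S, w y * (σ * (dt u a - dt u y)) = σ * (dt u a) * w y - σ * (w y * dt u y) := by
        intro y _; ring
      rw [Finset.sum_congr rfl this, Finset.sum_sub_distrib, ← Finset.mul_sum, ← Finset.mul_sum,
        w1, hxa]
      ring
    have h2 : ∀ y ∈ S, 0 ≤ w y * (σ * (dt u a - dt u y)) := by
      intro y hy
      by_cases hya : y = a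
      · rw [hya]; simp
      · exact mul_nonneg (w0 y hy) (hσ y hy hya).le
    have h3 := (Finset.sum_eq_zero_iff_of_nonneg h2).1 h1
    have h4 : ∀ y ∈ S, y ≠ a → w y = 0 := by
      intro y hy hya
      have := h3 y hy
      exact (mul_eq_zero.1 this).resolve_right (hσ y hy hya).ne'
    have h5 : w a = 1 := by
      rw [← w1, Finset.sum_eq_single a (fun y hy hya => h4 y hy hya) (fun h => absurd ha h)]
    rw [Finset.sum_eq_single a (fun y hy hya => by rw [h4 y hy hya, zero_smul])
      (fun h => absurd ha h), h5, one_smul]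
  have hout : ∀ (a : ℝ × ℝ), (∀ x ∈ poly S, dt u x = dt u a → x = a) →
      u ∉ fc (poly S) a ∧ -u ∉ fc (poly S) a := by
    intro a h
    constructor
    · rintro ⟨ε, h0, h1⟩
      have h2 := h _ h1 (by rw [dt_add, dt_smul, dt_self]; ring)
      have h3 : ε • u = 0 := by simpa using h2
      rcases smul_eq_zero.1 h3 with h4 | h4
      · exact h0.ne' h4
      · exact hu h4
    · rintro ⟨ε, h0, h1⟩
      have h2 := h _ h1 (by
        rw [dt_add, dt_smul]
        have : dt u (-u) = 0 := by simp only [dt, Prod.fst_neg, Prod.snd_neg]; ring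
        rw [this]; ring)
      have h3 : ε • u = 0 := by
        have : ε • (-u) = 0 := by simpa using h2
        rw [smul_neg, neg_eq_zero] at this
        exact this
      rcases smul_eq_zero.1 h3 with h4 | h4
      · exact h0.ne' h4
      · exact hu h4
  refine ⟨a, ha, b, hb, hab, ?_⟩
  intro q hq
  constructor
  · rintro ⟨h1, h2'⟩
    by_contra hcon
    push Not at hcon
    obtain ⟨hqa, hqb⟩ := hcon
    have k1 : dt u q < dt u a := lt_of_le_of_ne (hamax q hq) (fun h => hqa (hinj q hq a ha h))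
    have k2 : dt u b < dt u q := lt_of_le_of_ne (hbmin q hq)
      (fun h => hqb (hinj b hb q hq h).symm)
    -- the point of the segment `[b, a]` at the height of `q`
    set t := (dt u q - dt u b) / (dt u a - dt u b) with ht
    have hden : 0 < dt u a - dt u b := by linarith
    have t0 : 0 < t := div_pos (by linarith) hden
    have t1 : t < 1 := by rw [ht, div_lt_one hden]; linarith
    set x := (1 - t) • b + t • a with hx
    have hxP : x ∈ poly S := (poly_convex S) (subset_convexHull ℝ _ hb)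
      (subset_convexHull ℝ _ ha) (by linarith) t0.le (by ring)
    have hxd : dt u x = dt u q := by
      rw [hx, dt_add, dt_smul, dt_smul]
      have : (1 - t) * dt u b + t * dt u a = dt u b + t * (dt u a - dt u b) := by ring
      rw [this, ht, div_mul_cancel₀ _ hden.ne']
      ring
    have hxq : x ≠ q := by
      intro hxq
      apply hS q hq
      rw [← hxq]
      apply (convex_convexHull ℝ ((S : Set (ℝ × ℝ)) \ {x})) _ _ (by linarith) t0.le (by ring)
      · apply subset_convexHull
        exact ⟨hb, fun h => hqb (by rw [← hxq, ← (mem_singleton_iff.1 h)])⟩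
      · apply subset_convexHull
        exact ⟨ha, fun h => hqa (by rw [← hxq, ← (mem_singleton_iff.1 h)])⟩
    have hz : dt u (x - q) = 0 := by rw [dt_sub, hxd, sub_self]
    obtain ⟨c, hc⟩ := dt_zero_of hu hz
    have hc0 : c ≠ 0 := by
      rintro rfl
      rw [zero_smul, sub_eq_zero] at hc
      exact hxq hc
    rcases lt_or_gt_of_ne hc0 with h | h
    · apply h2'
      refine ⟨-c, by linarith, ?_⟩
      rw [smul_neg, neg_smul, neg_neg, ← hc, add_sub_cancel]
      exact hxP
    · apply h1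
      refine ⟨c, h, ?_⟩
      rw [← hc, add_sub_cancel]
      exact hxP
  · rintro (rfl | rfl)
    · apply hout
      apply hext q ha 1
      intro y hy hya
      have := lt_of_le_of_ne (hamax y hy) (fun h => hya (hinj y hy q ha h))
      linarith
    · apply hout
      apply hext q hb (-1)
      intro y hy hya
      have := lt_of_le_of_ne (hbmin y hy) (fun h => hya (hinj q hb y hy h).symm)
      linarith

end Pool.Agent.Lib.MP_f0132d_co.SF52
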