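import Pool.Agent.Lib.MP_f0132d_co.Poly52

/-!
The angle sum.
-/

namespace Pool.Agent.Lib.MP_f0132d_co.SF52

open Set MeasureTheory

theorem co_apply (i : Fin 3) (x : E3) : co i x = x i := rfl

theorem card_sdiff_nonempty {S : Finset (ℝ × ℝ)} (h2 : 2 ≤ S.card) (q : ℝ × ℝ) :
    ((S : Set (ℝ × ℝ)) \ {q}).Nonempty := by
  obtain ⟨x, hx, hxq⟩ := Finset.exists_mem_ne (by omega : 1 < S.card) q
  exact ⟨x, hx, hxq⟩

theorem out_meas {S : Finset (ℝ × ℝ)} {q : ℝ × ℝ} (hq : q ∈ S) : MeasurableSet (Out S q) := by
  have hqP : q ∈ poly S := subset_convexHull ℝ _ hq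
  have hCm : MeasurableSet (fc (poly S) q) :=
    fc_meas2 (poly_convex S) (poly_compact S).isClosed hqP
  have h1 : MeasurableSet {w : E3 | pr w ∉ fc (poly S) q} := (cyl_meas hCm).compl
  have h2 : MeasurableSet {w : E3 | -(pr w) ∉ fc (poly S) q} := by
    have : {w : E3 | -(pr w) ∉ fc (poly S) q} = (fun w : E3 => -w) ⁻¹' {w : E3 | pr w ∉ fc (poly S) q} := by
      ext w
      change -(pr w) ∉ fc (poly S) q ↔ pr (-w) ∉ fc (poly S) q
      rw [map_neg]
    rw [this]
    exact h1.preimage measurable_neg
  exact (h1.inter h2).inter measurableSet_closedBall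

theorem sum_out {S : Finset (ℝ × ℝ)} (hS : CP S) (h2 : 2 ≤ S.card) :
    ∑ q ∈ S, volume (Out S q) = 2 * volume BB := by
  classical
  -- generic directions
  have hgen : ∀ᵐ w : E3, ∀ s ∈ S, ∀ s' ∈ S, s ≠ s' → dt (pr w) (s - s') ≠ 0 := by
    have h1 : ∀ p ∈ S ×ˢ S, ∀ᵐ w : E3, p.1 ≠ p.2 → dt (pr w) (p.1 - p.2) ≠ 0 := by
      intro p _
      by_cases hne : p.1 = p.2
      · exact Filter.Eventually.of_forall (fun w h => absurd hne h)
      · set φ : E3 →ₗ[ℝ] ℝ := (p.1 - p.2).2 • co 0 - (p.1 - p.2).1 • co 1 with hφ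
        have hφ0 : φ ≠ 0 := by
          intro h0
          apply hne
          rw [← sub_eq_zero]
          have k1 := congrArg (fun g : E3 →ₗ[ℝ] ℝ => g (EuclideanSpace.single 0 (1 : ℝ))) h0
          have k2 := congrArg (fun g : E3 →ₗ[ℝ] ℝ => g (EuclideanSpace.single 1 (1 : ℝ))) h0
          simp [hφ, co_apply] at k1 k2
          ext
          · change p.1.1 - p.2.1 = 0
            linarith
          · change p.1.2 - p.2.2 = 0
            linarith
        have hnull := null_ker hφ0
        rw [ae_iff]
        apply measure_mono_null _ hnull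
        intro w hw
        change ¬ (p.1 ≠ p.2 → dt (pr w) (p.1 - p.2) ≠ 0) at hw
        push Not at hw
        change φ w = 0
        have e : φ w = dt (pr w) (p.1 - p.2) := by
          simp only [hφ, dt, LinearMap.sub_apply, LinearMap.smul_apply, smul_eq_mul, co_apply,
            pr_apply]
          ring
        rw [e]
        exact hw.2
    have h3 := (Filter.eventually_all_finset (S ×ˢ S)).2 h1
    filter_upwards [h3] with w hw s hs s' hs' hne
    exact hw (s, s') (Finset.mem_product.2 ⟨hs, hs'⟩) hne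
  have hind : ∀ q ∈ S, volume (Out S q) = ∫⁻ w, (Out S q).indicator 1 w := by
    intro q hq
    rw [lintegral_indicator_one (out_meas hq)]
  rw [Finset.sum_congr rfl hind, ← lintegral_finsetSum]
  · have h4 : ∀ᵐ w : E3, (∑ q ∈ S, (Out S q).indicator (1 : E3 → ENNReal) w) =
        BB.indicator (fun _ => (2 : ENNReal)) w := by
      filter_upwards [hgen] with w hw
      by_cases hwB : w ∈ BB
      · rw [indicator_of_mem hwB]
        obtain ⟨a, ha, b, hb, hab, hall⟩ := two_out hS h2 hw
        have h5 : ∀ q ∈ S, (Out S q).indicator (1 : E3 → ENNReal) w =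
            if q = a ∨ q = b then 1 else 0 := by
          intro q hq
          have := hall q hq
          by_cases hc : q = a ∨ q = b
          · rw [if_pos hc, indicator_of_mem (show w ∈ Out S q from ⟨this.2 hc, hwB⟩)]
            rfl
          · rw [if_neg hc, indicator_of_notMem (fun h : w ∈ Out S q => hc (this.1 h.1))]
        rw [Finset.sum_congr rfl h5, ← Finset.sum_filter]
        have h6 : S.filter (fun q => q = a ∨ q = b) = {a, b} := by
          ext q
          rw [Finset.mem_filter, Finset.mem_insert, Finset.mem_singleton]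
          constructor
          · exact fun h => h.2
          · rintro (rfl | rfl)
            · exact ⟨ha, Or.inl rfl⟩
            · exact ⟨hb, Or.inr rfl⟩
        rw [h6, Finset.sum_pair hab]
        norm_num
      · rw [indicator_of_notMem hwB]
        apply Finset.sum_eq_zero
        intro q _
        exact indicator_of_notMem (fun h => hwB h.2) _
    rw [lintegral_congr_ae h4, lintegral_indicator measurableSet_closedBall, setLIntegral_const]
  · intro q hq
    exact measurable_one.indicator (out_meas hq)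

/-- the angle sum of a convex polygon -/
theorem angle_sum {S : Finset (ℝ × ℝ)} (hS : CP S) (h2 : 2 ≤ S.card) :
    ∑ q ∈ S, th (fc (poly S) q) = ((S.card : ℝ) - 2) / 2 * bb := by
  have h := sum_out hS h2
  have h1 := congrArg ENNReal.toReal h
  rw [ENNReal.toReal_sum (fun q _ => (show volume (Out S q) ≠ ⊤ from inter_BB_ne_top _)),
    ENNReal.toReal_mul] at h1
  have h3 : ∀ q ∈ S, (volume (Out S q)).toReal = bb - 2 * th (fc (poly S) q) := by
    intro q hq
    have := th_out hS hq (card_sdiff_nonempty h2 q)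
    linarith
  rw [Finset.sum_congr rfl h3, Finset.sum_sub_distrib, ← Finset.mul_sum, Finset.sum_const,
    nsmul_eq_mul] at h1
  have h4 : (2 : ENNReal).toReal = 2 := by simp
  rw [h4] at h1
  change (S.card : ℝ) * bb - 2 * ∑ q ∈ S, th (fc (poly S) q) = 2 * bb at h1
  linarith

/-- an extreme point of the polygon is a vertex -/
theorem ext_mem {S : Finset (ℝ × ℝ)} {q : ℝ × ℝ} (h : Ext (poly S) q) : q ∈ S := by
  have h1 : q ∈ (poly S).extremePoints ℝ := by
    rw [mem_extremePoints]
    refine ⟨h.1, ?_⟩
    intro x₁ hx₁ x₂ hx₂ hseg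
    obtain ⟨a, b, ha, hb, hab, rfl⟩ := hseg
    -- the smaller of the two coefficients
    set c := min a b with hc
    have hc0 : 0 < c := lt_min ha hb
    have hca : c ≤ a := min_le_left _ _
    have hcb : c ≤ b := min_le_right _ _
    have p1 : a • x₁ + b • x₂ + c • (x₁ - x₂) ∈ poly S := by
      have e : a • x₁ + b • x₂ + c • (x₁ - x₂) = (a + c) • x₁ + (b - c) • x₂ := by
        rw [add_smul, sub_smul, smul_sub]; abel
      rw [e]
      exact (poly_convex S) hx₁ hx₂ (by linarith) (by linarith) (by linarith)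
    have p2 : a • x₁ + b • x₂ - c • (x₁ - x₂) ∈ poly S := by
      have e : a • x₁ + b • x₂ - c • (x₁ - x₂) = (a - c) • x₁ + (b + c) • x₂ := by
        rw [add_smul, sub_smul, smul_sub]; abel
      rw [e]
      exact (poly_convex S) hx₁ hx₂ (by linarith) (by linarith) (by linarith)
    have h3 := h.2 _ p1 p2
    rcases smul_eq_zero.1 h3 with h4 | h4
    · exact absurd h4 hc0.ne'
    · have h5 : x₁ = x₂ := sub_eq_zero.1 h4
      rw [h5, ← add_smul, hab, one_smul]
      exact ⟨rfl, rfl⟩
  exact extremePoints_convexHull_subset h1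

end Pool.Agent.Lib.MP_f0132d_co.SF52
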