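import Pool.Agent.Lib.MP_f0132d_co.PolyS52

/-!
Right prisms which tile space.
-/

namespace Pool.Agent.Lib.MP_f0132d_co.SF52

open Set MeasureTheory Measure

/-- the number of tiles in a ball cannot grow exponentially -/
theorem growth_principle {P : Set E3} (hPc : IsCompact P) (hPi : (interior P).Nonempty)
    {ι : Type*} (g : ι → E3 ≃ᵢ E3) (hcov : (⋃ i, g i '' P) = univ)
    (hdisj : ∀ i j, i ≠ j → Disjoint (interior (g i '' P)) (interior (g j '' P)))
    {D : ℝ} (hD0 : 0 < D) {c : ℝ} (hc0 : 0 < c)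
    (hstep : ∀ (R : ℝ) (I M : Finset ι), (∀ i, i ∈ I ↔ g i '' P ⊆ Metric.closedBall 0 R) →
      (∀ i, i ∈ M ↔ g i '' P ⊆ Metric.closedBall 0 (R + 1 + D)) →
      (1 + c) * (I.card : ℝ) ≤ M.card) : False := by
  classical
  have hPn : P.Nonempty := hPi.mono interior_subset
  set V := (volume (interior P)).toReal with hV
  set β := (volume (Metric.ball (0 : E3) 1)).toReal with hβ
  have hV0 : 0 < V := by
    rw [hV, ENNReal.toReal_pos_iff]
    exact ⟨isOpen_interior.measure_pos volume hPi,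
      (measure_mono interior_subset).trans_lt hPc.measure_lt_top⟩
  have hβ0 : 0 ≤ β := ENNReal.toReal_nonneg
  have hfin : ∀ R : ℝ, {i | g i '' P ⊆ Metric.closedBall (0 : E3) R}.Finite := by
    intro R
    by_contra hinf
    rcases lt_or_ge R 0 with hR | hR
    · apply hinf
      have : {i | g i '' P ⊆ Metric.closedBall (0 : E3) R} = ∅ := by
        rw [eq_empty_iff_forall_notMem]
        intro i hi
        obtain ⟨x, hx⟩ := hPn
        have h1 : g i x ∈ Metric.closedBall (0 : E3) R := hi ⟨x, hx, rfl⟩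
        rw [Metric.closedBall_eq_empty.2 hR] at h1
        exact h1
      rw [this]
      exact finite_empty
    obtain ⟨n, hn⟩ := exists_nat_gt (R ^ 3 * β / V)
    obtain ⟨s, hs, hsn⟩ := Set.Infinite.exists_subset_card_eq hinf n
    have h1 := pack g hdisj s hR (fun i hi => hs hi)
    rw [hsn] at h1
    rw [div_lt_iff₀ hV0] at hn
    linarith
  set Ins : ℝ → Finset ι := fun R => (hfin R).toFinset with hIns
  have hInsm : ∀ R i, i ∈ Ins R ↔ g i '' P ⊆ Metric.closedBall (0 : E3) R := by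
    intro R i
    rw [hIns]
    simp only [Set.Finite.mem_toFinset]
    rfl
  obtain ⟨i₀, hi₀⟩ : ∃ i : ι, True := by
    obtain ⟨i, -⟩ := mem_iUnion.1 (hcov ▸ mem_univ (0 : E3) : (0 : E3) ∈ ⋃ i, g i '' P)
    exact ⟨i, trivial⟩
  obtain ⟨R₀, hR₀⟩ := ((hPc.image (g i₀).continuous).isBounded).subset_closedBall (0 : E3)
  have hR₀0 : 0 ≤ R₀ := by
    by_contra h
    push Not at h
    rw [Metric.closedBall_eq_empty.2 h] at hR₀
    obtain ⟨x, hx⟩ := hPn
    exact hR₀ ⟨x, hx, rfl⟩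
  have hcard0 : 1 ≤ (Ins R₀).card := Finset.card_pos.2 ⟨i₀, (hInsm _ _).2 hR₀⟩
  refine no_growth (a := (R₀ + 1 + D) ^ 3 * β / V) hc0
    (fun k => ((Ins (R₀ + k * (1 + D))).card : ℝ)) ?_ ?_ ?_
  · simp only [Nat.cast_zero, zero_mul, add_zero]
    exact_mod_cast hcard0
  · intro k
    have h1 := hstep (R₀ + k * (1 + D)) (Ins (R₀ + k * (1 + D)))
      (Ins (R₀ + k * (1 + D) + 1 + D)) (hInsm _) (hInsm _)
    have e : R₀ + k * (1 + D) + 1 + D = R₀ + ((k + 1 : ℕ) : ℝ) * (1 + D) := by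
      push_cast; ring
    rw [e] at h1
    exact h1
  · intro k hk
    have hk1 : (1 : ℝ) ≤ k := by exact_mod_cast hk
    have hR : 0 ≤ R₀ + k * (1 + D) := by positivity
    have h1 := pack g hdisj (Ins (R₀ + k * (1 + D))) hR (fun i hi => (hInsm _ _).1 hi)
    change ((Ins (R₀ + k * (1 + D))).card : ℝ) ≤ _
    rw [div_mul_eq_mul_div, le_div_iff₀ hV0]
    refine h1.trans ?_
    have h2 : R₀ + k * (1 + D) ≤ (R₀ + 1 + D) * k := by nlinarith
    have h3 : (R₀ + k * (1 + D)) ^ 3 ≤ ((R₀ + 1 + D) * k) ^ 3 := pow_le_pow_left₀ hR h2 3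
    calc (R₀ + k * (1 + D)) ^ 3 * β ≤ ((R₀ + 1 + D) * k) ^ 3 * β :=
          mul_le_mul_of_nonneg_right h3 hβ0
      _ = (R₀ + 1 + D) ^ 3 * β * k ^ 3 := by ring

/-- a point of space above a point of the plane -/
noncomputable def mk3 (q : ℝ × ℝ) (t : ℝ) : E3 := !₂[q.1, q.2, t]

theorem mk3_eq {y : E3} {q : ℝ × ℝ} {t : ℝ} (h1 : pr y = q) (h2 : y 2 = t) : y = mk3 q t := by
  have h0 : y 0 = q.1 := congrArg Prod.fst h1
  have h1' : y 1 = q.2 := congrArg Prod.snd h1
  ext i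
  fin_cases i
  · exact h0
  · exact h1'
  · exact h2

theorem pr_mk3 (q : ℝ × ℝ) (t : ℝ) : pr (mk3 q t) = q := rfl

theorem mk3_two (q : ℝ × ℝ) (t : ℝ) : (mk3 q t) 2 = t := rfl

/-- the vertical segment above `q` -/
def col (q : ℝ × ℝ) (h : ℝ) : Set E3 := {y | pr y = q ∧ 0 ≤ y 2 ∧ y 2 ≤ h}

theorem col_eq (q : ℝ × ℝ) {h : ℝ} (hh : 0 < h) : col q h = segment ℝ (mk3 q 0) (mk3 q h) := by
  ext y
  constructor
  · rintro ⟨h1, h2, h3⟩
    refine ⟨1 - y 2 / h, y 2 / h, ?_, div_nonneg h2 hh.le, by ring, ?_⟩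
    · have : y 2 / h ≤ 1 := (div_le_one hh).2 h3
      linarith
    · symm
      have h0 : y 0 = q.1 := congrArg Prod.fst h1
      have h1' : y 1 = q.2 := congrArg Prod.snd h1
      ext i
      fin_cases i
      · simp [mk3]
        rw [h0]; ring
      · simp [mk3]
        rw [h1']; ring
      · simp [mk3]
        field_simp
  · rintro ⟨a, b, ha, hb, hab, rfl⟩
    have e2 : (a • mk3 q 0 + b • mk3 q h) 2 = b * h := by simp [mk3]
    refine ⟨?_, ?_, ?_⟩
    · rw [map_add, map_smul, map_smul, pr_mk3, pr_mk3, ← add_smul, hab, one_smul]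
    · rw [e2]; positivity
    · rw [e2]
      nlinarith

theorem edist_mk3 (q : ℝ × ℝ) {h : ℝ} (hh : 0 < h) : edist (mk3 q 0) (mk3 q h) = ENNReal.ofReal h := by
  rw [edist_dist, EuclideanSpace.dist_eq, Fin.sum_univ_three]
  congr 1
  simp [mk3, Real.dist_eq, Real.sqrt_sq hh.le]

theorem col_compact (q : ℝ × ℝ) {h : ℝ} (hh : 0 < h) : IsCompact (col q h) := by
  rw [col_eq q hh, segment_eq_image_lineMap]
  exact isCompact_Icc.image (AffineMap.lineMap_continuous)

theorem col_measure (g : E3 ≃ᵢ E3) (q : ℝ × ℝ) {h : ℝ} (hh : 0 < h) :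
    (μH[1] : Measure E3).real (g '' col q h) = h := by
  rw [Measure.real, g.hausdorffMeasure_image, col_eq q hh, hausdorffMeasure_segment,
    edist_mk3 q hh, ENNReal.toReal_ofReal hh.le]

theorem col_ne_top (g : E3 ≃ᵢ E3) (q : ℝ × ℝ) {h : ℝ} (hh : 0 < h) :
    (μH[1] : Measure E3) (g '' col q h) ≠ ⊤ := by
  rw [g.hausdorffMeasure_image, col_eq q hh, hausdorffMeasure_segment, edist_mk3 q hh]
  exact ENNReal.ofReal_ne_top

/-- the arithmetic at a point of an edge -/
theorem edge_arith {s b : ℝ} (hb : 0 < b) (v m : ℕ) (hv : 1 ≤ v) (h : s + m * (b / 4) = b)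
    (hlt : s < v * (b / 2)) : s ≤ 3 / 8 * b * v := by
  have hv' : (1 : ℝ) ≤ v := by exact_mod_cast hv
  by_cases h3 : 3 ≤ v
  · have h3' : (3 : ℝ) ≤ v := by exact_mod_cast h3
    have h1 : 0 ≤ (m : ℝ) * (b / 4) := by positivity
    nlinarith
  · by_cases h2 : v = 2
    · subst h2
      push_cast at hlt ⊢
      have hm : 1 ≤ m := by
        by_contra h0
        have : m = 0 := by omega
        subst this
        push_cast at h
        linarith
      have hm' : (1 : ℝ) ≤ m := by exact_mod_cast hm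
      nlinarith
    · have h1 : v = 1 := by omega
      subst h1
      push_cast at hlt ⊢
      have hm : 3 ≤ m := by
        by_contra h0
        have h0' : m ≤ 2 := by omega
        have : (m : ℝ) ≤ 2 := by exact_mod_cast h0'
        nlinarith
      have hm' : (3 : ℝ) ≤ m := by exact_mod_cast hm
      nlinarith

end Pool.Agent.Lib.MP_f0132d_co.SF52
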