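import Pool.Agent.Lib.MP_f0132d_co.Dens52

/-!
Cones of feasible directions of right prisms.
-/

namespace Pool.Agent.Lib.MP_f0132d_co.SF52

open Set MeasureTheory

/-- the projection to the plane -/
noncomputable def pr : E3 →ₗ[ℝ] ℝ × ℝ where
  toFun x := (x 0, x 1)
  map_add' x y := by simp
  map_smul' c x := by simp

theorem pr_apply (x : E3) : pr x = (x 0, x 1) := rfl

/-- the right prism over `Q` of height `h` -/
def prism (Q : Set (ℝ × ℝ)) (h : ℝ) : Set E3 := {x | pr x ∈ Q ∧ 0 ≤ x 2 ∧ x 2 ≤ h}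

theorem pr_cont : Continuous pr := pr.continuous_of_finiteDimensional

theorem room_below {y w : ℝ} (hy : 0 ≤ y) (h : y = 0 → 0 ≤ w) :
    ∃ ε : ℝ, 0 < ε ∧ ∀ δ, 0 ≤ δ → δ ≤ ε → 0 ≤ y + δ * w := by
  rcases eq_or_lt_of_le hy with h0 | h0
  · refine ⟨1, one_pos, fun δ hδ _ => ?_⟩
    have := mul_nonneg hδ (h h0.symm)
    linarith
  · refine ⟨y / (|w| + 1), by positivity, fun δ hδ hδ' => ?_⟩
    rw [le_div_iff₀ (by positivity)] at hδ'
    have h1 := neg_abs_le w
    have h2 : δ * (-|w|) ≤ δ * w := mul_le_mul_of_nonneg_left h1 hδ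
    nlinarith

theorem fc_prism {Q : Set (ℝ × ℝ)} (hQ : Convex ℝ Q) {h : ℝ} {y : E3}
    (hy : y ∈ prism Q h) : fc (prism Q h) y =
      {w | pr w ∈ fc Q (pr y) ∧ (y 2 = 0 → 0 ≤ w 2) ∧ (y 2 = h → w 2 ≤ 0)} := by
  obtain ⟨hy1, hy2, hy3⟩ := hy
  ext w
  constructor
  · rintro ⟨ε, h0, k1, k2, k3⟩
    rw [map_add, map_smul] at k1
    have e : (y + ε • w) 2 = y 2 + ε * w 2 := by simp
    rw [e] at k2 k3
    refine ⟨⟨ε, h0, k1⟩, ?_, ?_⟩
    · intro hz
      rw [hz, zero_add] at k2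
      exact nonneg_of_mul_nonneg_right k2 h0
    · intro hz
      rw [hz] at k3
      by_contra hc
      push Not at hc
      have := mul_pos h0 hc
      linarith
  · rintro ⟨⟨ε, h0, k1⟩, k2, k3⟩
    obtain ⟨ε₁, h1, h1'⟩ := room_below hy2 k2
    obtain ⟨ε₂, h2, h2'⟩ := room_below (y := h - y 2) (w := -(w 2)) (by linarith)
      (fun hz => by
        have := k3 (by linarith)
        linarith)
    have hm : 0 < min ε (min ε₁ ε₂) := lt_min h0 (lt_min h1 h2)
    have e : (y + min ε (min ε₁ ε₂) • w) 2 = y 2 + min ε (min ε₁ ε₂) * w 2 := by simp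
    refine ⟨min ε (min ε₁ ε₂), hm, ?_, ?_, ?_⟩
    · rw [map_add, map_smul]
      exact fc_small hQ hy1 k1 hm.le (min_le_left _ _)
    · rw [e]
      exact h1' _ hm.le ((min_le_right _ _).trans (min_le_left _ _))
    · rw [e]
      have := h2' _ hm.le ((min_le_right _ _).trans (min_le_right _ _))
      linarith

/-- the part of space above a planar set -/
def Cyl (C : Set (ℝ × ℝ)) : Set E3 := {w | pr w ∈ C}

/-- the volume of the unit ball above a planar cone -/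
noncomputable def th (C : Set (ℝ × ℝ)) : ℝ := (volume (Cyl C ∩ BB)).toReal

theorem th_univ : th univ = bb := by
  unfold th bb
  congr 2
  ext w
  exact ⟨fun h => h.2, fun h => ⟨mem_univ _, h⟩⟩

theorem null_ker {φ : E3 →ₗ[ℝ] ℝ} (hφ : φ ≠ 0) : volume {w : E3 | φ w = 0} = 0 := by
  have h : {w : E3 | φ w = 0} = (LinearMap.ker φ : Submodule ℝ E3) := by
    ext w
    exact Iff.rfl
  rw [h]
  apply Measure.addHaar_submodule
  intro htop
  exact hφ (LinearMap.ker_eq_top.1 htop)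

/-- a coordinate functional -/
noncomputable def co (i : Fin 3) : E3 →ₗ[ℝ] ℝ where
  toFun x := x i
  map_add' x y := by simp
  map_smul' c x := by simp

theorem co_ne (i : Fin 3) : co i ≠ 0 := by
  intro h
  have h1 : (co i) (EuclideanSpace.single i (1 : ℝ)) = 0 := by rw [h]; rfl
  have h2 : (co i) (EuclideanSpace.single i (1 : ℝ)) = 1 := by
    change (EuclideanSpace.single i (1 : ℝ) : E3) i = 1
    simp
  rw [h1] at h2
  exact zero_ne_one h2

/-- the reflection in the plane -/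
noncomputable def rfl3 : E3 ≃ₗᵢ[ℝ] E3 where
  toFun x := !₂[x 0, x 1, -(x 2)]
  invFun x := !₂[x 0, x 1, -(x 2)]
  left_inv x := by
    ext i
    fin_cases i <;> simp
  right_inv x := by
    ext i
    fin_cases i <;> simp
  map_add' x y := by
    ext i
    fin_cases i <;> simp [add_comm]
  map_smul' c x := by
    ext i
    fin_cases i <;> simp
  norm_map' x := by
    rw [EuclideanSpace.norm_eq, EuclideanSpace.norm_eq, Fin.sum_univ_three, Fin.sum_univ_three]
    simp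

theorem rfl3_pr (x : E3) : pr (rfl3 x) = pr x := rfl

theorem rfl3_two (x : E3) : (rfl3 x) 2 = -(x 2) := rfl

theorem rfl3_rfl3 (x : E3) : rfl3 (rfl3 x) = x := by
  ext i
  fin_cases i
  · rfl
  · rfl
  · change -(-(x 2)) = x 2
    rw [neg_neg]

theorem half_up (C : Set (ℝ × ℝ)) :
    (volume ({w | pr w ∈ C ∧ 0 ≤ w 2} ∩ BB)).toReal = th C / 2 ∧
    (volume ({w | pr w ∈ C ∧ w 2 ≤ 0} ∩ BB)).toReal = th C / 2 := by
  have hcl : MeasurableSet {w : E3 | 0 ≤ w 2} :=
    (isClosed_le continuous_const (by fun_prop)).measurableSet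
  have h1 := measure_inter_add_sdiff (μ := volume) (Cyl C ∩ BB) hcl
  have e1 : Cyl C ∩ BB ∩ {w : E3 | 0 ≤ w 2} = {w | pr w ∈ C ∧ 0 ≤ w 2} ∩ BB := by
    ext w
    constructor
    · rintro ⟨⟨h1, h2⟩, h3⟩
      exact ⟨⟨h1, h3⟩, h2⟩
    · rintro ⟨⟨h1, h3⟩, h2⟩
      exact ⟨⟨h1, h2⟩, h3⟩
  have e2 : volume ((Cyl C ∩ BB) \ {w : E3 | 0 ≤ w 2}) =
      volume ({w | pr w ∈ C ∧ w 2 ≤ 0} ∩ BB) := by
    apply le_antisymm
    · apply measure_mono
      rintro w ⟨⟨h1, h2⟩, h3⟩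
      have h3' : ¬ (0 ≤ w 2) := h3
      exact ⟨⟨h1, by linarith⟩, h2⟩
    · have hsub : {w | pr w ∈ C ∧ w 2 ≤ 0} ∩ BB ⊆
          ((Cyl C ∩ BB) \ {w : E3 | 0 ≤ w 2}) ∪ {w | co 2 w = 0} := by
        rintro w ⟨⟨h1, h2⟩, h3⟩
        by_cases hw : w 2 = 0
        · right; exact hw
        · left
          refine ⟨⟨h1, h3⟩, ?_⟩
          intro h4
          have h4' : 0 ≤ w 2 := h4
          exact hw (le_antisymm h2 h4')
      refine (measure_mono hsub).trans ((measure_union_le _ _).trans ?_)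
      rw [null_ker (co_ne 2), add_zero]
  have e3 : volume ({w | pr w ∈ C ∧ w 2 ≤ 0} ∩ BB) = volume ({w | pr w ∈ C ∧ 0 ≤ w 2} ∩ BB) := by
    have : ({w | pr w ∈ C ∧ w 2 ≤ 0} : Set E3) = rfl3 '' {w | pr w ∈ C ∧ 0 ≤ w 2} := by
      ext w
      constructor
      · rintro ⟨h1, h2⟩
        refine ⟨rfl3 w, ⟨h1, ?_⟩, rfl3_rfl3 w⟩
        rw [rfl3_two]; linarith
      · rintro ⟨u, ⟨h1, h2⟩, rfl⟩
        refine ⟨h1, ?_⟩
        rw [rfl3_two]; linarith
    rw [this, vol_rot]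
  rw [e1, e2, e3] at h1
  have h2 : (volume ({w | pr w ∈ C ∧ 0 ≤ w 2} ∩ BB)).toReal +
      (volume ({w | pr w ∈ C ∧ 0 ≤ w 2} ∩ BB)).toReal = th C := by
    unfold th
    rw [← h1, ENNReal.toReal_add (inter_BB_ne_top _) (inter_BB_ne_top _)]
  rw [e3]
  constructor <;> linarith

/-- the volume of the cone at a point of a prism -/
theorem dv_prism {Q : Set (ℝ × ℝ)} (hQ : Convex ℝ Q) {h : ℝ} (hh : 0 < h) {y : E3}
    (hy : y ∈ prism Q h) :
    ((0 < y 2 ∧ y 2 < h) → dv (prism Q h) y = th (fc Q (pr y))) ∧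
    (¬ (0 < y 2 ∧ y 2 < h) → dv (prism Q h) y = th (fc Q (pr y)) / 2) := by
  have hfc := fc_prism hQ hy
  obtain ⟨hy1, hy2, hy3⟩ := hy
  constructor
  · rintro ⟨h1, h2⟩
    unfold dv th
    rw [hfc]
    congr 2
    ext w
    constructor
    · rintro ⟨⟨k1, -, -⟩, k2⟩
      exact ⟨k1, k2⟩
    · rintro ⟨k1, k2⟩
      exact ⟨⟨k1, fun hz => absurd hz h1.ne', fun hz => absurd hz h2.ne⟩, k2⟩
  · intro hn
    unfold dv
    rw [hfc]
    rcases eq_or_lt_of_le hy2 with h0 | h0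
    · rw [← (half_up (fc Q (pr y))).1]
      congr 2
      ext w
      constructor
      · rintro ⟨⟨k1, k2, -⟩, k4⟩
        exact ⟨⟨k1, k2 h0.symm⟩, k4⟩
      · rintro ⟨⟨k1, k2⟩, k4⟩
        exact ⟨⟨k1, fun _ => k2, fun hz => by rw [← h0] at hz; exact absurd hz hh.ne⟩, k4⟩
    · have h1 : y 2 = h := by
        by_contra hne
        exact hn ⟨h0, lt_of_le_of_ne hy3 hne⟩
      rw [← (half_up (fc Q (pr y))).2]
      congr 2
      ext w
      constructor
      · rintro ⟨⟨k1, -, k3⟩, k4⟩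
        exact ⟨⟨k1, k3 h1⟩, k4⟩
      · rintro ⟨⟨k1, k3⟩, k4⟩
        exact ⟨⟨k1, fun hz => absurd hz h0.ne', fun _ => k3⟩, k4⟩

theorem vol_neg (S : Set E3) : volume ({w | -w ∈ S} ∩ BB) = volume (S ∩ BB) := by
  have : {w : E3 | -w ∈ S} = (LinearIsometryEquiv.neg ℝ : E3 ≃ₗᵢ[ℝ] E3) '' S := by
    ext w
    constructor
    · intro h
      exact ⟨-w, h, by simp⟩
    · rintro ⟨u, hu, rfl⟩
      change -(-u) ∈ S
      rw [neg_neg]; exact hu
  rw [this, vol_rot]

theorem fc_smul' {V : Type*} [AddCommGroup V] [Module ℝ V] {P : Set V} {x w : V}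
    (hx : x ∈ P) (h : w ∈ fc P x) {c : ℝ} (hc : 0 ≤ c) : c • w ∈ fc P x := by
  obtain ⟨ε, h0, h1⟩ := h
  rcases eq_or_lt_of_le hc with h2 | h2
  · refine ⟨1, one_pos, ?_⟩
    rw [← h2, zero_smul, smul_zero, add_zero]
    exact hx
  · refine ⟨ε / c, div_pos h0 h2, ?_⟩
    rw [smul_smul, div_mul_cancel₀ _ h2.ne']
    exact h1

theorem fc_add {V : Type*} [AddCommGroup V] [Module ℝ V] {P : Set V} (hP : Convex ℝ P) {x w u : V}
    (hx : x ∈ P) (h : w ∈ fc P x) (h' : u ∈ fc P x) : w + u ∈ fc P x := by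
  obtain ⟨ε, h0, h1⟩ := h
  obtain ⟨δ, k0, k1⟩ := h'
  have m0 : 0 < min ε δ := lt_min h0 k0
  have a1 := fc_small hP hx h1 m0.le (min_le_left _ _)
  have a2 := fc_small hP hx k1 m0.le (min_le_right _ _)
  refine ⟨min ε δ / 2, by linarith, ?_⟩
  have := hP a1 a2 (a := 1 / 2) (b := 1 / 2) (by norm_num) (by norm_num) (by norm_num)
  have e : (1 / 2 : ℝ) • (x + min ε δ • w) + (1 / 2 : ℝ) • (x + min ε δ • u) =
      x + (min ε δ / 2) • (w + u) := by
    rw [smul_add, smul_add, smul_smul, smul_smul, smul_add]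
    have e1 : (1 / 2 : ℝ) * min ε δ = min ε δ / 2 := by ring
    rw [e1]
    have e2 : x = (1 / 2 : ℝ) • x + (1 / 2 : ℝ) • x := by
      rw [← add_smul]; norm_num
    conv_rhs => rw [e2]
    abel
  rw [e] at this
  exact this

/-- the cone at an interior point -/
theorem fc_interior {Q : Set (ℝ × ℝ)} {q : ℝ × ℝ} (hq : q ∈ interior Q) : fc Q q = univ := by
  rw [eq_univ_iff_forall]
  intro w
  obtain ⟨δ, hδ, hb⟩ := Metric.isOpen_iff.1 isOpen_interior q hq
  refine ⟨δ / 2 / (‖w‖ + 1), by positivity, ?_⟩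
  apply interior_subset
  apply hb
  rw [Metric.mem_ball, dist_eq_norm, add_sub_cancel_left, norm_smul, Real.norm_eq_abs,
    abs_of_nonneg (by positivity)]
  have : δ / 2 / (‖w‖ + 1) * ‖w‖ ≤ δ / 2 := by
    rw [div_mul_eq_mul_div, div_le_iff₀ (by positivity)]
    nlinarith [norm_nonneg w]
  linarith

/-- the cone at a boundary point which is not extreme is a half-plane -/
theorem fc_side {Q : Set (ℝ × ℝ)} (hQ : Convex ℝ Q) (hi : (interior Q).Nonempty) {q : ℝ × ℝ}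
    (hq : q ∈ Q) (hqi : q ∉ interior Q) (hne : ¬ Ext Q q) :
    ∃ f : ℝ × ℝ →ₗ[ℝ] ℝ, f ≠ 0 ∧ fc Q q = {w | f w ≤ 0} := by
  unfold Ext at hne
  push Not at hne
  obtain ⟨v, h1, h2, hv⟩ := hne hq
  obtain ⟨f, hf, a, ha, hfa⟩ := exists_support hQ hi hqi
  have hf0 : f ≠ 0 := by
    rintro rfl
    simp at hfa
  refine ⟨f, hf0, ?_⟩
  have hfv : f v = 0 := by
    have k1 := hf _ h1
    have k2 := hf _ h2
    rw [map_add] at k1
    rw [map_sub] at k2
    linarith
  have hvC : v ∈ fc Q q := ⟨1, one_pos, by rw [one_smul]; exact h1⟩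
  have hvC' : -v ∈ fc Q q := ⟨1, one_pos, by rw [one_smul, ← sub_eq_add_neg]; exact h2⟩
  have hline : ∀ c : ℝ, c • v ∈ fc Q q := by
    intro c
    rcases le_or_gt 0 c with hc | hc
    · exact fc_smul' hq hvC hc
    · have := fc_smul' hq hvC' (c := -c) (by linarith)
      rw [smul_neg, neg_smul, neg_neg] at this
      exact this
  ext w
  constructor
  · rintro ⟨ε, h0, h1⟩
    have := hf _ h1
    rw [map_add, map_smul, smul_eq_mul] at this
    change f w ≤ 0
    by_contra hc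
    push Not at hc
    have := mul_pos h0 hc
    linarith
  · intro hw
    change f w ≤ 0 at hw
    set u := a - q with hu
    have hfu : f u < 0 := by rw [hu, map_sub]; linarith
    have huC : u ∈ fc Q q := ⟨1, one_pos, by rw [one_smul, hu, add_sub_cancel]; exact ha⟩
    set s := f w / f u with hs
    have hs0 : 0 ≤ s := div_nonneg_of_nonpos hw hfu.le
    have hz : f (w - s • u) = 0 := by
      rw [map_sub, map_smul, smul_eq_mul, hs, div_mul_cancel₀ _ hfu.ne, sub_self]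
    obtain ⟨c, hc⟩ := ker_line f hf0 hv hfv hz
    have e : w = s • u + c • v := by rw [← hc]; abel
    rw [e]
    exact fc_add hQ hq (fc_smul' hq huC hs0) (hline c)

theorem th_half {f : ℝ × ℝ →ₗ[ℝ] ℝ} (hf : f ≠ 0) : th {w | f w ≤ 0} = bb / 2 := by
  have hcl : MeasurableSet {w : E3 | f (pr w) ≤ 0} :=
    (isClosed_le ((f.continuous_of_finiteDimensional).comp pr_cont)
      continuous_const).measurableSet
  have h1 := measure_inter_add_sdiff (μ := volume) BB hcl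
  have e1 : BB ∩ {w : E3 | f (pr w) ≤ 0} = Cyl {w | f w ≤ 0} ∩ BB := by
    rw [inter_comm]; rfl
  have hfp : f ∘ₗ pr ≠ 0 := by
    intro h0
    apply hf
    apply LinearMap.ext
    intro v
    have h2 : pr (!₂[v.1, v.2, 0] : E3) = v := rfl
    have h3 := congrArg (fun g : E3 →ₗ[ℝ] ℝ => g (!₂[v.1, v.2, 0] : E3)) h0
    change f (pr (!₂[v.1, v.2, 0] : E3)) = 0 at h3
    rw [h2] at h3
    exact h3
  have e2 : volume (BB \ {w : E3 | f (pr w) ≤ 0}) = volume (Cyl {w | f w ≤ 0} ∩ BB) := by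
    have k1 : volume (BB \ {w : E3 | f (pr w) ≤ 0}) =
        volume ({w : E3 | -w ∈ {w : E3 | f (pr w) < 0}} ∩ BB) := by
      congr 1
      ext w
      constructor
      · rintro ⟨h1, h2⟩
        refine ⟨?_, h1⟩
        have h2' : ¬ (f (pr w) ≤ 0) := h2
        change f (pr (-w)) < 0
        rw [map_neg, map_neg]
        linarith
      · rintro ⟨h1, h2⟩
        have h1' : f (pr (-w)) < 0 := h1
        rw [map_neg, map_neg] at h1'
        refine ⟨h2, ?_⟩
        intro h3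
        have h3' : f (pr w) ≤ 0 := h3
        linarith
    rw [k1, vol_neg]
    apply le_antisymm
    · apply measure_mono
      rintro w ⟨h1, h2⟩
      have h1' : f (pr w) < 0 := h1
      exact ⟨(show f (pr w) ≤ 0 from h1'.le), h2⟩
    · have hsub : Cyl {w | f w ≤ 0} ∩ BB ⊆
          ({w : E3 | f (pr w) < 0} ∩ BB) ∪ {w | (f ∘ₗ pr) w = 0} := by
        rintro w ⟨h1, h2⟩
        have h1' : f (pr w) ≤ 0 := h1
        rcases eq_or_lt_of_le h1' with h3 | h3
        · right; exact h3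
        · left; exact ⟨h3, h2⟩
      refine (measure_mono hsub).trans ((measure_union_le _ _).trans ?_)
      rw [null_ker hfp, add_zero]
  rw [e1, e2] at h1
  have h2 : th {w | f w ≤ 0} + th {w | f w ≤ 0} = bb := by
    unfold th bb
    rw [← h1, ENNReal.toReal_add (inter_BB_ne_top _) (inter_BB_ne_top _)]
  linarith

/-- points which are not above extreme points -/
theorem dv_other {Q : Set (ℝ × ℝ)} (hQ : Convex ℝ Q) (hi : (interior Q).Nonempty) {h : ℝ}
    (hh : 0 < h) {y : E3} (hy : y ∈ prism Q h) (hne : ¬ Ext Q (pr y)) :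
    ∃ m : ℕ, dv (prism Q h) y = m * (bb / 4) := by
  have hth : ∃ m : ℕ, th (fc Q (pr y)) = m * (bb / 2) := by
    by_cases hqi : pr y ∈ interior Q
    · refine ⟨2, ?_⟩
      rw [fc_interior hqi, th_univ]
      push_cast
      ring
    · obtain ⟨f, hf, hfc⟩ := fc_side hQ hi hy.1 hqi hne
      refine ⟨1, ?_⟩
      rw [hfc, th_half hf]
      push_cast
      ring
  obtain ⟨m, hm⟩ := hth
  obtain ⟨h1, h2⟩ := dv_prism hQ hh hy
  by_cases hc : 0 < y 2 ∧ y 2 < h
  · refine ⟨2 * m, ?_⟩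
    rw [h1 hc, hm]
    push_cast
    ring
  · refine ⟨m, ?_⟩
    rw [h2 hc, hm]
    ring

end Pool.Agent.Lib.MP_f0132d_co.SF52
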