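import Pool.Agent.Lib.MP_f0132d_co.PrismC52

/-!
Right prisms which tile space have at most eight lateral facets.
-/

namespace Pool.Agent.Lib.MP_f0132d_co.SF52

open Set MeasureTheory Measure

theorem prism_compact (S : Finset (ℝ × ℝ)) (h : ℝ) : IsCompact (prism (poly S) h) := by
  have h1 : IsCompact (poly S ×ˢ Icc (0 : ℝ) h) := (poly_compact S).prod isCompact_Icc
  have h2 : Continuous (fun p : (ℝ × ℝ) × ℝ => mk3 p.1 p.2) := by
    unfold mk3
    refine (PiLp.continuous_toLp 2 _).comp ?_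
    refine continuous_pi ?_
    intro i
    fin_cases i
    · exact (by fun_prop : Continuous fun p : (ℝ × ℝ) × ℝ => p.1.1)
    · exact (by fun_prop : Continuous fun p : (ℝ × ℝ) × ℝ => p.1.2)
    · exact (by fun_prop : Continuous fun p : (ℝ × ℝ) × ℝ => p.2)
  have h3 : prism (poly S) h = (fun p : (ℝ × ℝ) × ℝ => mk3 p.1 p.2) '' (poly S ×ˢ Icc (0 : ℝ) h) := by
    ext y
    constructor
    · rintro ⟨k1, k2, k3⟩
      exact ⟨(pr y, y 2), ⟨k1, k2, k3⟩, (mk3_eq rfl rfl).symm⟩
    · rintro ⟨p, ⟨k1, k2, k3⟩, rfl⟩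
      exact ⟨k1, k2, k3⟩
  rw [h3]
  exact h1.image h2

theorem prism_convex (S : Finset (ℝ × ℝ)) (h : ℝ) : Convex ℝ (prism (poly S) h) := by
  rintro x ⟨h1, h2, h3⟩ y ⟨k1, k2, k3⟩ a b ha hb hab
  have e : (a • x + b • y) 2 = a * x 2 + b * y 2 := by simp
  refine ⟨?_, ?_, ?_⟩
  · rw [map_add, map_smul, map_smul]
    exact poly_convex S h1 k1 ha hb hab
  · rw [e]; positivity
  · rw [e]
    have h4 := mul_le_mul_of_nonneg_left h3 ha
    have h5 := mul_le_mul_of_nonneg_left k3 hb
    have : a * h + b * h = h := by rw [← add_mul, hab, one_mul]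
    linarith

/-- the inequality at a point -/
theorem point_ineq {S : Finset (ℝ × ℝ)} (hS : CP S) (h2 : 2 ≤ S.card)
    (hi : (interior (poly S)).Nonempty) {h : ℝ} (hh : 0 < h)
    {ι : Type*} [DecidableEq ι] (g : ι → E3 ≃ᵢ E3) (M : Finset ι)
    (hdisj : ∀ i j, i ≠ j → Disjoint (interior (g i '' prism (poly S) h))
      (interior (g j '' prism (poly S) h)))
    {x : E3} {δ : ℝ} (hδ : 0 < δ)
    (hcov : ∀ y, ‖y - x‖ < δ → ∃ j ∈ M, y ∈ g j '' prism (poly S) h)
    (hbad : ∀ j ∈ M, ∀ q ∈ S, x ≠ g j (mk3 q 0) ∧ x ≠ g j (mk3 q h)) :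
    ∑ j ∈ M, ∑ q ∈ S, (g j '' col q h).indicator (fun _ => th (fc (poly S) q)) x ≤
      3 / 8 * bb * ∑ j ∈ M, ∑ q ∈ S, (g j '' col q h).indicator (fun _ => (1 : ℝ)) x := by
  classical
  set P := prism (poly S) h with hP
  set y : ι → E3 := fun j => (g j).symm x with hy
  have hgy : ∀ j, g j (y j) = x := fun j => (g j).apply_symm_apply x
  have hxT : ∀ j, x ∈ g j '' P ↔ y j ∈ P := by
    intro j
    constructor
    · rintro ⟨z, hz, hzx⟩
      have : z = y j := by
        apply (g j).injective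
        rw [hzx, hgy]
      rw [← this]; exact hz
    · intro hz
      exact ⟨y j, hz, hgy j⟩
  have hxc : ∀ j q, x ∈ g j '' col q h ↔ y j ∈ col q h := by
    intro j q
    constructor
    · rintro ⟨z, hz, hzx⟩
      have : z = y j := by
        apply (g j).injective
        rw [hzx, hgy]
      rw [← this]; exact hz
    · intro hz
      exact ⟨y j, hz, hgy j⟩
  set J := M.filter (fun j => x ∈ g j '' P) with hJ
  have hJm : ∀ j, j ∈ J ↔ j ∈ M ∧ x ∈ g j '' P := by
    intro j
    rw [hJ, Finset.mem_filter]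
  have hTc : ∀ j ∈ M, IsClosed (g j '' P) := fun j _ =>
    ((prism_compact S h).image (g j).continuous).isClosed
  have hTv : ∀ j ∈ M, Convex ℝ (g j '' P) := fun j _ => image_convex (g j) (prism_convex S h)
  have hsum := sum_dv (fun j => g j '' P) M hTc hTv (fun i _ j _ hij => hdisj i j hij) hδ hcov J hJm
  have hdv : ∀ j, dv (g j '' P) x = dv P (y j) := by
    intro j
    conv_lhs => rw [← hgy j]
    exact dv_image (g j) P (y j)
  simp only [hdv] at hsum
  -- tiles with an edge through the point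
  set V := J.filter (fun j => pr (y j) ∈ S) with hV
  have hVm : ∀ j, j ∈ V ↔ (j ∈ M ∧ y j ∈ P) ∧ pr (y j) ∈ S := by
    intro j
    rw [hV, Finset.mem_filter, hJm, hxT]
  have hVdv : ∀ j ∈ V, dv P (y j) = th (fc (poly S) (pr (y j))) := by
    intro j hj
    obtain ⟨⟨hjM, hyP⟩, hyS⟩ := (hVm j).1 hj
    have hyP' : y j ∈ prism (poly S) h := hyP
    apply (dv_prism (poly_convex S) hh hyP').1
    obtain ⟨-, k2, k3⟩ := hyP'
    obtain ⟨b1, b2⟩ := hbad j hjM _ hyS
    constructor
    · refine lt_of_le_of_ne k2 ?_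
      intro h0
      apply b1
      rw [← mk3_eq rfl h0.symm, hgy]
    · refine lt_of_le_of_ne k3 ?_
      intro h0
      apply b2
      rw [← mk3_eq rfl h0, hgy]
  have hOdv : ∀ j ∈ J, j ∉ V → ∃ m : ℕ, dv P (y j) = m * (bb / 4) := by
    intro j hj hjV
    have hyP : y j ∈ prism (poly S) h := (hxT j).1 ((hJm j).1 hj).2
    apply dv_other (poly_convex S) hi hh hyP
    intro hE
    apply hjV
    rw [hVm]
    exact ⟨⟨((hJm j).1 hj).1, hyP⟩, ext_mem hE⟩
  have hOsum : ∃ m : ℕ, ∑ j ∈ J \ V, dv P (y j) = m * (bb / 4) := by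
    have : ∀ T : Finset ι, (∀ j ∈ T, ∃ m : ℕ, dv P (y j) = m * (bb / 4)) →
        ∃ m : ℕ, ∑ j ∈ T, dv P (y j) = m * (bb / 4) := by
      intro T
      induction T using Finset.induction_on with
      | empty => intro _; exact ⟨0, by simp⟩
      | insert j T hj ih =>
        intro hT
        obtain ⟨m, hm⟩ := ih (fun k hk => hT k (Finset.mem_insert_of_mem hk))
        obtain ⟨m', hm'⟩ := hT j (Finset.mem_insert_self j T)
        refine ⟨m' + m, ?_⟩
        rw [Finset.sum_insert hj, hm, hm']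
        push_cast
        ring
    apply this
    intro j hj
    rw [Finset.mem_sdiff] at hj
    exact hOdv j hj.1 hj.2
  obtain ⟨m, hm⟩ := hOsum
  have hVJ : V ⊆ J := Finset.filter_subset _ _
  have htot : ∑ j ∈ V, dv P (y j) + m * (bb / 4) = bb := by
    rw [← hm, ← hsum, add_comm]
    exact Finset.sum_sdiff hVJ
  -- the two sums
  have hone : ∀ j ∈ M, ∀ a : ℝ × ℝ → ℝ,
      ∑ q ∈ S, (g j '' col q h).indicator (fun _ => a q) x =
        if j ∈ V then a (pr (y j)) else 0 := by
    intro j hj a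
    by_cases hjV : j ∈ V
    · rw [if_pos hjV]
      obtain ⟨⟨hjM, hyP⟩, hyS⟩ := (hVm j).1 hjV
      rw [Finset.sum_eq_single (pr (y j))]
      · rw [indicator_of_mem]
        rw [hxc]
        exact ⟨rfl, hyP.2.1, hyP.2.2⟩
      · intro q _ hq
        rw [indicator_of_notMem]
        rw [hxc]
        rintro ⟨k1, -, -⟩
        exact hq k1.symm
      · intro hn
        exact absurd hyS hn
    · rw [if_neg hjV]
      apply Finset.sum_eq_zero
      intro q hq
      rw [indicator_of_notMem]
      rw [hxc]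
      rintro ⟨k1, k2, k3⟩
      apply hjV
      rw [hVm]
      refine ⟨⟨hj, ?_, k2, k3⟩, ?_⟩
      · rw [k1]; exact subset_convexHull ℝ _ hq
      · rw [k1]; exact hq
  have hVM : V ⊆ M := hVJ.trans (Finset.filter_subset _ _)
  rw [Finset.sum_congr rfl (fun j hj => hone j hj (fun q => th (fc (poly S) q))),
    Finset.sum_congr rfl (fun j hj => hone j hj (fun _ => 1))]
  rw [← Finset.sum_filter, ← Finset.sum_filter]
  have hfil : M.filter (fun j => j ∈ V) = V := by
    ext j
    rw [Finset.mem_filter]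
    exact ⟨fun h => h.2, fun h => ⟨hVM h, h⟩⟩
  rw [hfil, Finset.sum_const, nsmul_eq_mul, mul_one]
  rcases Nat.eq_zero_or_pos V.card with h0 | h0
  · have : V = ∅ := Finset.card_eq_zero.1 h0
    rw [this]
    simp
  rw [← Finset.sum_congr rfl hVdv]
  refine edge_arith bb_pos V.card m h0 htot ?_
  have hVn : V.Nonempty := Finset.card_pos.1 h0
  have h5 : ∀ j ∈ V, dv P (y j) < bb / 2 := by
    intro j hj
    rw [hVdv j hj]
    obtain ⟨-, hyS⟩ := (hVm j).1 hj
    exact th_lt_half hS hyS (card_sdiff_nonempty h2 _)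
  have h6 := Finset.sum_lt_sum_of_nonempty hVn h5
  rw [Finset.sum_const, nsmul_eq_mul] at h6
  exact h6

theorem th_nonneg (C : Set (ℝ × ℝ)) : 0 ≤ th C := ENNReal.toReal_nonneg

/-- the count for large balls -/
theorem prism_step {S : Finset (ℝ × ℝ)} (hS : CP S) (h2 : 2 ≤ S.card)
    (hi : (interior (poly S)).Nonempty) {h : ℝ} (hh : 0 < h)
    {ι : Type*} (g : ι → E3 ≃ᵢ E3)
    (hcov : (⋃ i, g i '' prism (poly S) h) = univ)
    (hdisj : ∀ i j, i ≠ j → Disjoint (interior (g i '' prism (poly S) h))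
      (interior (g j '' prism (poly S) h)))
    {D : ℝ} (hD0 : 0 ≤ D)
    (hD : ∀ x ∈ prism (poly S) h, ∀ y ∈ prism (poly S) h, ‖x - y‖ ≤ D) {R : ℝ} (I M : Finset ι)
    (hI : ∀ i, i ∈ I ↔ g i '' prism (poly S) h ⊆ Metric.closedBall 0 R)
    (hM : ∀ i, i ∈ M ↔ g i '' prism (poly S) h ⊆ Metric.closedBall 0 (R + 1 + D)) :
    4 * ((S.card : ℝ) - 2) * I.card ≤ 3 * S.card * M.card := by
  classical
  have hIM : I ⊆ M := by
    intro i hi
    rw [hM]
    exact ((hI i).1 hi).trans (Metric.closedBall_subset_closedBall (by linarith))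
  have hsegT : ∀ j, ∀ q ∈ S, g j '' col q h ⊆ g j '' prism (poly S) h := by
    intro j q hq
    apply image_mono
    rintro y ⟨k1, k2, k3⟩
    exact ⟨k1 ▸ subset_convexHull ℝ _ hq, k2, k3⟩
  -- pointwise
  set Bad : Set E3 := ⋃ j ∈ M, ⋃ q ∈ S, {g j (mk3 q 0), g j (mk3 q h)} with hBad
  have hBf : Bad.Finite := by
    rw [hBad]
    apply Set.Finite.biUnion (Finset.finite_toSet M)
    intro j _
    apply Set.Finite.biUnion (Finset.finite_toSet S)
    intro q _
    exact Set.toFinite _
  have : NullSingletonClass (μH[1] : Measure E3) := nullSingletonClass_hausdorff E3 one_pos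
  have hpt : ∀ x, x ∉ Bad →
      ∑ j ∈ I, ∑ q ∈ S, (g j '' col q h).indicator (fun _ => th (fc (poly S) q)) x ≤
        3 / 8 * bb * ∑ j ∈ M, ∑ q ∈ S, (g j '' col q h).indicator (fun _ => (1 : ℝ)) x := by
    intro x hx
    have hnn : ∀ j, 0 ≤ ∑ q ∈ S, (g j '' col q h).indicator (fun _ => th (fc (poly S) q)) x :=
      fun j => Finset.sum_nonneg (fun q _ => indicator_nonneg (fun _ _ => th_nonneg _) x)
    have hnn1 : 0 ≤ ∑ j ∈ M, ∑ q ∈ S, (g j '' col q h).indicator (fun _ => (1 : ℝ)) x :=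
      Finset.sum_nonneg (fun j _ => Finset.sum_nonneg
        (fun q _ => indicator_nonneg (fun _ _ => zero_le_one) x))
    by_cases hxI : ∃ i ∈ I, x ∈ g i '' prism (poly S) h
    · obtain ⟨i, hiI, hxi⟩ := hxI
      have hxR : x ∈ Metric.closedBall (0 : E3) R := (hI i).1 hiI hxi
      refine (Finset.sum_le_sum_of_subset_of_nonneg hIM (fun j _ _ => hnn j)).trans ?_
      apply point_ineq hS h2 hi hh g M hdisj one_pos
      · intro y hy
        obtain ⟨j, hj⟩ := mem_iUnion.1 (hcov ▸ mem_univ y : y ∈ ⋃ i, g i '' prism (poly S) h)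
        refine ⟨j, ?_, hj⟩
        rw [hM]
        intro w hw
        obtain ⟨y₀, hy₀, rfl⟩ := hj
        obtain ⟨w₀, hw₀, rfl⟩ := hw
        rw [mem_closedBall_zero_iff] at hxR ⊢
        have h1 : ‖g j w₀ - g j y₀‖ ≤ D := by
          rw [← dist_eq_norm, (g j).isometry.dist_eq, dist_eq_norm]
          exact hD _ hw₀ _ hy₀
        have h2 : g j w₀ = x + (g j y₀ - x) + (g j w₀ - g j y₀) := by abel
        rw [h2]
        have h3 := norm_add_le (x + (g j y₀ - x)) (g j w₀ - g j y₀)
        have h4 := norm_add_le x (g j y₀ - x)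
        linarith
      · intro j hj q hq
        constructor
        · intro he
          apply hx
          rw [hBad]
          simp only [mem_iUnion]
          exact ⟨j, hj, q, hq, Or.inl he⟩
        · intro he
          apply hx
          rw [hBad]
          simp only [mem_iUnion]
          exact ⟨j, hj, q, hq, Or.inr he⟩
    · push Not at hxI
      have h0 : ∑ j ∈ I, ∑ q ∈ S, (g j '' col q h).indicator (fun _ => th (fc (poly S) q)) x = 0 := by
        apply Finset.sum_eq_zero
        intro j hj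
        apply Finset.sum_eq_zero
        intro q hq
        rw [indicator_of_notMem]
        exact fun hm => hxI j hj (hsegT j q hq hm)
      rw [h0]
      have := bb_pos
      positivity
  have hae : ∀ᵐ x ∂(μH[1] : Measure E3),
      ∑ j ∈ I, ∑ q ∈ S, (g j '' col q h).indicator (fun _ => th (fc (poly S) q)) x ≤
        3 / 8 * bb * ∑ j ∈ M, ∑ q ∈ S, (g j '' col q h).indicator (fun _ => (1 : ℝ)) x := by
    rw [ae_iff]
    apply measure_mono_null _ (hBf.measure_zero _)
    intro x hx
    by_contra hn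
    exact hx (hpt x hn)
  have hms : ∀ j q, MeasurableSet (g j '' col q h) := fun j q =>
    ((col_compact q hh).image (g j).continuous).isClosed.measurableSet
  have hint : ∀ (j : ι) (q : ℝ × ℝ) (a : ℝ), Integrable
      ((g j '' col q h).indicator (fun _ => a)) (μH[1] : Measure E3) := by
    intro j q a
    rw [integrable_indicator_iff (hms j q)]
    exact integrableOn_const (col_ne_top (g j) q hh)
  have hval : ∀ (j : ι) (q : ℝ × ℝ) (a : ℝ),
      ∫ x, (g j '' col q h).indicator (fun _ => a) x ∂(μH[1] : Measure E3) = h * a := by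
    intro j q a
    rw [integral_indicator (hms j q), setIntegral_const, col_measure (g j) q hh, smul_eq_mul]
  have hI2 := integral_mono_ae
    (integrable_finsetSum _ (fun j (_ : j ∈ I) => integrable_finsetSum _
      (fun q (_ : q ∈ S) => hint j q (th (fc (poly S) q)))))
    ((integrable_finsetSum _ (fun j (_ : j ∈ M) => integrable_finsetSum _
      (fun q (_ : q ∈ S) => hint j q 1))).const_mul (3 / 8 * bb)) hae
  rw [integral_finsetSum _ (fun j _ => integrable_finsetSum _
      (fun q _ => hint j q (th (fc (poly S) q)))),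
    Finset.sum_congr rfl (fun j _ => integral_finsetSum S
      (fun q _ => hint j q (th (fc (poly S) q)))),
    integral_const_mul,
    integral_finsetSum _ (fun j _ => integrable_finsetSum _ (fun q _ => hint j q 1)),
    Finset.sum_congr rfl (fun j _ => integral_finsetSum S (fun q _ => hint j q 1))] at hI2
  simp only [hval] at hI2
  rw [← Finset.mul_sum, angle_sum hS h2, Finset.sum_const, Finset.sum_const, Finset.sum_const,
    nsmul_eq_mul, nsmul_eq_mul, nsmul_eq_mul] at hI2
  have hb := bb_pos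
  have hpos : 0 < h * bb / 8 := by positivity
  have h7 : (4 * ((S.card : ℝ) - 2) * I.card) * (h * bb / 8) ≤
      (3 * S.card * M.card) * (h * bb / 8) := by
    calc (4 * ((S.card : ℝ) - 2) * I.card) * (h * bb / 8)
        = (I.card : ℝ) * (h * (((S.card : ℝ) - 2) / 2 * bb)) := by ring
      _ ≤ _ := hI2
      _ = (3 * S.card * M.card) * (h * bb / 8) := by ring
  exact le_of_mul_le_mul_right h7 hpos

/-- **right prisms** -/
theorem prism_bound {S : Finset (ℝ × ℝ)} (hS : CP S)
    (hi : (interior (poly S)).Nonempty) {h : ℝ} (hh : 0 < h)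
    (hPi : (interior (prism (poly S) h)).Nonempty)
    {ι : Type*} (g : ι → E3 ≃ᵢ E3)
    (hcov : (⋃ i, g i '' prism (poly S) h) = univ)
    (hdisj : ∀ i j, i ≠ j → Disjoint (interior (g i '' prism (poly S) h))
      (interior (g j '' prism (poly S) h))) : S.card ≤ 8 := by
  by_contra hcon
  push Not at hcon
  obtain ⟨D, hD0, hD⟩ := exists_bound (prism_compact S h)
  have hn : (9 : ℝ) ≤ S.card := by exact_mod_cast (by omega : 9 ≤ S.card)
  refine growth_principle (prism_compact S h) hPi g hcov hdisj hD0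
    (c := ((S.card : ℝ) - 8) / (3 * S.card)) (div_pos (by linarith) (by linarith)) ?_
  intro R I M hI hM
  have h1 := prism_step hS (by omega) hi hh g hcov hdisj hD0.le hD I M hI hM
  have h3 : (0 : ℝ) < 3 * S.card := by linarith
  have h4 : (1 + ((S.card : ℝ) - 8) / (3 * S.card)) = 4 * ((S.card : ℝ) - 2) / (3 * S.card) := by
    field_simp
    ring
  rw [h4, div_mul_eq_mul_div, div_le_iff₀ h3]
  linarith

end Pool.Agent.Lib.MP_f0132d_co.SF52
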