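import Pool.Agent.Lib.MP_f0132d_co.PrismF52

/-!
Right prisms which tile space: the refined inequalities.
-/

namespace Pool.Agent.Lib.MP_f0132d_co.SF52

open Set MeasureTheory Measure

/-- growth with two constants -/
theorem growth_AB {P : Set E3} (hPc : IsCompact P) (hPi : (interior P).Nonempty)
    {ι : Type*} (g : ι → E3 ≃ᵢ E3) (hcov : (⋃ i, g i '' P) = univ)
    (hdisj : ∀ i j, i ≠ j → Disjoint (interior (g i '' P)) (interior (g j '' P)))
    {D : ℝ} (hD0 : 0 < D) {A B : ℝ} (hB : 0 < B) (hAB : B < A)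
    (hstep : ∀ (R : ℝ) (I M : Finset ι), (∀ i, i ∈ I ↔ g i '' P ⊆ Metric.closedBall 0 R) →
      (∀ i, i ∈ M ↔ g i '' P ⊆ Metric.closedBall 0 (R + 1 + D)) →
      A * (I.card : ℝ) ≤ B * M.card) : False := by
  refine growth_principle hPc hPi g hcov hdisj hD0 (c := A / B - 1) ?_ ?_
  · have : 1 < A / B := (one_lt_div hB).2 hAB
    linarith
  · intro R I M hI hM
    have h1 := hstep R I M hI hM
    have e : 1 + (A / B - 1) = A / B := by ring
    rw [e, div_mul_eq_mul_div, div_le_iff₀ hB]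
    linarith

/-- the vertex `q` has a partner: the two angles add up to three quarters of the full angle -/
def Pt (S : Finset (ℝ × ℝ)) (q : ℝ × ℝ) : Prop :=
  ∃ q' ∈ S, th (fc (poly S) q) + th (fc (poly S) q') = 3 / 4 * bb

/-- the horizontal edges of the prism -/
def Hs (S : Finset (ℝ × ℝ)) (h : ℝ) : Set E3 :=
  {y | pr y ∈ frontier (poly S) ∧ (y 2 = 0 ∨ y 2 = h)}

theorem dv_small {S : Finset (ℝ × ℝ)} (hi : (interior (poly S)).Nonempty) {h : ℝ} (hh : 0 < h)
    {y : E3} (hy : y ∈ prism (poly S) h) (hne : ¬ Ext (poly S) (pr y))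
    (hlt : dv (prism (poly S) h) y < bb / 2) : y ∈ Hs S h := by
  obtain ⟨h1, h2⟩ := dv_prism (poly_convex S) hh hy
  have hb := bb_pos
  have hqi : pr y ∉ interior (poly S) := by
    intro hqi
    rw [fc_interior hqi, th_univ] at h1 h2
    by_cases hc : 0 < y 2 ∧ y 2 < h
    · rw [h1 hc] at hlt
      linarith
    · rw [h2 hc] at hlt
      linarith
  obtain ⟨f, hf, hfc⟩ := fc_side (poly_convex S) hi hy.1 hqi hne
  rw [hfc, th_half hf] at h1 h2
  have hc : ¬ (0 < y 2 ∧ y 2 < h) := by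
    intro hc
    rw [h1 hc] at hlt
    linarith
  refine ⟨⟨subset_closure hy.1, hqi⟩, ?_⟩
  rcases eq_or_lt_of_le hy.2.1 with h0 | h0
  · left; exact h0.symm
  · right
    by_contra hne2
    exact hc ⟨h0, lt_of_le_of_ne hy.2.2 hne2⟩

/-- the situation at a point: the tiles with a lateral edge through the point -/
theorem point_data {S : Finset (ℝ × ℝ)}
    (hi : (interior (poly S)).Nonempty) {h : ℝ} (hh : 0 < h)
    {ι : Type*} [DecidableEq ι] (g : ι → E3 ≃ᵢ E3) (M : Finset ι)
    (hdisj : ∀ i j, i ≠ j → Disjoint (interior (g i '' prism (poly S) h))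
      (interior (g j '' prism (poly S) h)))
    {x : E3} {δ : ℝ} (hδ : 0 < δ)
    (hcov : ∀ y, ‖y - x‖ < δ → ∃ j ∈ M, y ∈ g j '' prism (poly S) h)
    (hbad : ∀ j ∈ M, ∀ q ∈ S, x ≠ g j (mk3 q 0) ∧ x ≠ g j (mk3 q h)) :
    ∃ (V : Finset ι) (q : ι → ℝ × ℝ) (m : ℕ), V ⊆ M ∧ (∀ j ∈ V, q j ∈ S) ∧
      (∀ a : ℝ × ℝ → ℝ, ∑ j ∈ M, ∑ p ∈ S, (g j '' col p h).indicator (fun _ => a p) x =
        ∑ j ∈ V, a (q j)) ∧
      ∑ j ∈ V, th (fc (poly S) (q j)) + m * (bb / 4) = bb ∧
      (m = 1 → (1 : ℝ) ≤ ∑ j ∈ M, (g j '' Hs S h).indicator (fun _ => (1 : ℝ)) x) := by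
  classical
  set P := prism (poly S) h with hP
  set y : ι → E3 := fun j => (g j).symm x with hy
  have hgy : ∀ j, g j (y j) = x := fun j => (g j).apply_symm_apply x
  have himg : ∀ (j : ι) (U : Set E3), x ∈ g j '' U ↔ y j ∈ U := by
    intro j U
    constructor
    · rintro ⟨z, hz, hzx⟩
      have : z = y j := by
        apply (g j).injective
        rw [hzx, hgy]
      rw [← this]; exact hz
    · intro hz
      exact ⟨y j, hz, hgy j⟩
  have hxT : ∀ j, x ∈ g j '' P ↔ y j ∈ P := fun j => himg j P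
  have hxc : ∀ j q, x ∈ g j '' col q h ↔ y j ∈ col q h := fun j q => himg j _
  set J := M.filter (fun j => x ∈ g j '' P) with hJ
  have hJm : ∀ j, j ∈ J ↔ j ∈ M ∧ x ∈ g j '' P := by
    intro j
    rw [hJ, Finset.mem_filter]
  have hTc : ∀ j ∈ M, IsClosed (g j '' P) := fun j _ =>
    ((prism_compact S h).image (g j).continuous).isClosed
  have hTv : ∀ j ∈ M, Convex ℝ (g j '' P) := fun j _ => image_convex (g j) (prism_convex S h)
  have hsum := sum_dv (fun j => g j '' P) M hTc hTv (fun i _ j _ hij => hdisj i j hij) hδ hcov J hJm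
  have hdv : ∀ j, dv (g j '' P) x = dv P (y j) := by
    intro j
    conv_lhs => rw [← hgy j]
    exact dv_image (g j) P (y j)
  simp only [hdv] at hsum
  set V := J.filter (fun j => pr (y j) ∈ S) with hV
  have hVm : ∀ j, j ∈ V ↔ (j ∈ M ∧ y j ∈ P) ∧ pr (y j) ∈ S := by
    intro j
    rw [hV, Finset.mem_filter, hJm, hxT]
  have hVdv : ∀ j ∈ V, dv P (y j) = th (fc (poly S) (pr (y j))) := by
    intro j hj
    obtain ⟨⟨hjM, hyP⟩, hyS⟩ := (hVm j).1 hj
    have hyP' : y j ∈ prism (poly S) h := hyP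
    apply (dv_prism (poly_convex S) hh hyP').1
    obtain ⟨-, k2, k3⟩ := hyP'
    obtain ⟨b1, b2⟩ := hbad j hjM _ hyS
    constructor
    · refine lt_of_le_of_ne k2 ?_
      intro h0
      apply b1
      rw [← mk3_eq rfl h0.symm, hgy]
    · refine lt_of_le_of_ne k3 ?_
      intro h0
      apply b2
      rw [← mk3_eq rfl h0, hgy]
  have hOne : ∀ j ∈ J, j ∉ V → ¬ Ext (poly S) (pr (y j)) := by
    intro j hj hjV hE
    apply hjV
    rw [hVm]
    exact ⟨⟨((hJm j).1 hj).1, (hxT j).1 ((hJm j).1 hj).2⟩, ext_mem hE⟩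
  have hOdv : ∀ j ∈ J, j ∉ V → ∃ m : ℕ, dv P (y j) = m * (bb / 4) := by
    intro j hj hjV
    have hyP : y j ∈ prism (poly S) h := (hxT j).1 ((hJm j).1 hj).2
    exact dv_other (poly_convex S) hi hh hyP (hOne j hj hjV)
  have hOsum : ∃ m : ℕ, ∑ j ∈ J \ V, dv P (y j) = m * (bb / 4) := by
    have : ∀ T : Finset ι, (∀ j ∈ T, ∃ m : ℕ, dv P (y j) = m * (bb / 4)) →
        ∃ m : ℕ, ∑ j ∈ T, dv P (y j) = m * (bb / 4) := by
      intro T
      induction T using Finset.induction_on with
      | empty => intro _; exact ⟨0, by simp⟩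
      | insert j T hj ih =>
        intro hT
        obtain ⟨m, hm⟩ := ih (fun k hk => hT k (Finset.mem_insert_of_mem hk))
        obtain ⟨m', hm'⟩ := hT j (Finset.mem_insert_self j T)
        refine ⟨m' + m, ?_⟩
        rw [Finset.sum_insert hj, hm, hm']
        push_cast
        ring
    apply this
    intro j hj
    rw [Finset.mem_sdiff] at hj
    exact hOdv j hj.1 hj.2
  obtain ⟨m, hm⟩ := hOsum
  have hVJ : V ⊆ J := Finset.filter_subset _ _
  have htot : ∑ j ∈ V, dv P (y j) + m * (bb / 4) = bb := by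
    rw [← hm, ← hsum, add_comm]
    exact Finset.sum_sdiff hVJ
  have hone : ∀ j ∈ M, ∀ a : ℝ × ℝ → ℝ,
      ∑ q ∈ S, (g j '' col q h).indicator (fun _ => a q) x =
        if j ∈ V then a (pr (y j)) else 0 := by
    intro j hj a
    by_cases hjV : j ∈ V
    · rw [if_pos hjV]
      obtain ⟨⟨hjM, hyP⟩, hyS⟩ := (hVm j).1 hjV
      rw [Finset.sum_eq_single (pr (y j))]
      · rw [indicator_of_mem]
        rw [hxc]
        exact ⟨rfl, hyP.2.1, hyP.2.2⟩
      · intro q _ hq
        rw [indicator_of_notMem]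
        rw [hxc]
        rintro ⟨k1, -, -⟩
        exact hq k1.symm
      · intro hn
        exact absurd hyS hn
    · rw [if_neg hjV]
      apply Finset.sum_eq_zero
      intro q hq
      rw [indicator_of_notMem]
      rw [hxc]
      rintro ⟨k1, k2, k3⟩
      apply hjV
      rw [hVm]
      refine ⟨⟨hj, ?_, k2, k3⟩, ?_⟩
      · rw [k1]; exact subset_convexHull ℝ _ hq
      · rw [k1]; exact hq
  have hVM : V ⊆ M := hVJ.trans (Finset.filter_subset _ _)
  have hfil : M.filter (fun j => j ∈ V) = V := by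
    ext j
    rw [Finset.mem_filter]
    exact ⟨fun h => h.2, fun h => ⟨hVM h, h⟩⟩
  refine ⟨V, fun j => pr (y j), m, hVM, fun j hj => ((hVm j).1 hj).2, ?_, ?_, ?_⟩
  · intro a
    rw [Finset.sum_congr rfl (fun j hj => hone j hj a), ← Finset.sum_filter, hfil]
  · rw [← Finset.sum_congr rfl hVdv]
    exact htot
  · intro hm1
    subst hm1
    -- some other tile has the volume `bb / 4`
    have hb := bb_pos
    have hJVn : (J \ V).Nonempty := by
      rw [Finset.nonempty_iff_ne_empty]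
      intro h0
      rw [h0, Finset.sum_empty] at hm
      push_cast at hm
      linarith
    obtain ⟨j, hj⟩ := hJVn
    have hnn : ∀ k ∈ J \ V, 0 ≤ dv P (y k) := fun k _ => ENNReal.toReal_nonneg
    have hle := Finset.single_le_sum hnn hj
    rw [hm] at hle
    push_cast at hle
    rw [Finset.mem_sdiff] at hj
    have hyP : y j ∈ prism (poly S) h := (hxT j).1 ((hJm j).1 hj.1).2
    have hH : y j ∈ Hs S h := dv_small hi hh hyP (hOne j hj.1 hj.2) (by
      change dv P (y j) < bb / 2
      linarith)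
    have hjM : j ∈ M := ((hJm j).1 hj.1).1
    have h1 : (g j '' Hs S h).indicator (fun _ => (1 : ℝ)) x = 1 :=
      indicator_of_mem ((himg j _).2 hH) _
    have h2 : (g j '' Hs S h).indicator (fun _ => (1 : ℝ)) x ≤
        ∑ j ∈ M, (g j '' Hs S h).indicator (fun _ => (1 : ℝ)) x :=
      Finset.single_le_sum (f := fun j => (g j '' Hs S h).indicator (fun _ => (1 : ℝ)) x)
        (fun k _ => indicator_nonneg (fun _ _ => zero_le_one) x) hjM
    exact h1.symm.le.trans h2

/-- the arithmetic for the partners -/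
theorem arith_partner {S : Finset (ℝ × ℝ)} (hS : CP S) (h2 : 2 ≤ S.card) {ι : Type*}
    (V : Finset ι) (q : ι → ℝ × ℝ) (m : ℕ) (hq : ∀ j ∈ V, q j ∈ S)
    (hsum : ∑ j ∈ V, th (fc (poly S) (q j)) + m * (bb / 4) = bb) (c : ℝ × ℝ → ℝ)
    (hc : ∀ p, bb / 3 ≤ c p) (hc2 : ∀ p, Pt S p → c p = 3 / 8 * bb) :
    ∑ j ∈ V, th (fc (poly S) (q j)) ≤ ∑ j ∈ V, c (q j) := by
  classical
  have hb := bb_pos
  have hlt : ∀ j ∈ V, th (fc (poly S) (q j)) < bb / 2 := fun j hj =>
    th_lt_half hS (hq j hj) (card_sdiff_nonempty h2 _)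
  have hcs : (V.card : ℝ) * (bb / 3) ≤ ∑ j ∈ V, c (q j) := by
    rw [← nsmul_eq_mul]
    exact Finset.card_nsmul_le_sum _ _ _ (fun j _ => hc _)
  have hm0 : 0 ≤ (m : ℝ) * (bb / 4) := by positivity
  by_cases h3 : 3 ≤ V.card
  · have h3' : (3 : ℝ) ≤ V.card := by exact_mod_cast h3
    nlinarith
  · have hcard : V.card = 0 ∨ V.card = 1 ∨ V.card = 2 := by omega
    rcases hcard with h0 | h1 | h2'
    · rw [Finset.card_eq_zero.1 h0]
      simp
    · obtain ⟨j, rfl⟩ := Finset.card_eq_one.1 h1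
      rw [Finset.sum_singleton] at hsum hcs ⊢
      rw [Finset.sum_singleton]
      have h4 := hlt j (Finset.mem_singleton_self j)
      have hm : 3 ≤ m := by
        by_contra hn
        have hn' : m ≤ 2 := by omega
        have : (m : ℝ) ≤ 2 := by exact_mod_cast hn'
        nlinarith
      have hm' : (3 : ℝ) ≤ m := by exact_mod_cast hm
      have := hc (q j)
      nlinarith
    · obtain ⟨i, j, hij, rfl⟩ := Finset.card_eq_two.1 h2'
      rw [Finset.sum_pair hij] at hsum ⊢
      rw [Finset.sum_pair hij]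
      have h4 := hlt i (by simp)
      have h5 := hlt j (by simp)
      rcases Nat.lt_or_ge m 2 with hm | hm
      · have hm1 : m = 1 := by
          rcases Nat.eq_zero_or_pos m with h0 | h0
          · subst h0
            push_cast at hsum
            linarith
          · omega
        subst hm1
        push_cast at hsum
        have p1 : Pt S (q i) := ⟨q j, hq j (by simp), by linarith⟩
        have p2 : Pt S (q j) := ⟨q i, hq i (by simp), by linarith⟩
        rw [hc2 _ p1, hc2 _ p2]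
        linarith
      · have hm' : (2 : ℝ) ≤ m := by exact_mod_cast hm
        have c1 := hc (q i)
        have c2 := hc (q j)
        nlinarith

/-- the arithmetic for the horizontal edges -/
theorem arith_hor {S : Finset (ℝ × ℝ)} (hS : CP S) (h2 : 2 ≤ S.card) {ι : Type*}
    (V : Finset ι) (q : ι → ℝ × ℝ) (m : ℕ) (hq : ∀ j ∈ V, q j ∈ S)
    (hsum : ∑ j ∈ V, th (fc (poly S) (q j)) + m * (bb / 4) = bb) {H : ℝ} (hH0 : 0 ≤ H)
    (hH : m = 1 → 1 ≤ H) :
    ∑ j ∈ V, th (fc (poly S) (q j)) ≤ ∑ j ∈ V, bb / 3 + bb / 12 * H := by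
  classical
  have hb := bb_pos
  have hlt : ∀ j ∈ V, th (fc (poly S) (q j)) < bb / 2 := fun j hj =>
    th_lt_half hS (hq j hj) (card_sdiff_nonempty h2 _)
  have hm0 : 0 ≤ (m : ℝ) * (bb / 4) := by positivity
  have hH' : 0 ≤ bb / 12 * H := by positivity
  rw [Finset.sum_const, nsmul_eq_mul]
  by_cases h3 : 3 ≤ V.card
  · have h3' : (3 : ℝ) ≤ V.card := by exact_mod_cast h3
    nlinarith
  · have hcard : V.card = 0 ∨ V.card = 1 ∨ V.card = 2 := by omega
    rcases hcard with h0 | h1 | h2'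
    · rw [Finset.card_eq_zero.1 h0]
      simpa using hH'
    · obtain ⟨j, rfl⟩ := Finset.card_eq_one.1 h1
      rw [Finset.sum_singleton] at hsum ⊢
      rw [Finset.card_singleton]
      have h4 := hlt j (Finset.mem_singleton_self j)
      have hm : 3 ≤ m := by
        by_contra hn
        have hn' : m ≤ 2 := by omega
        have : (m : ℝ) ≤ 2 := by exact_mod_cast hn'
        nlinarith
      have hm' : (3 : ℝ) ≤ m := by exact_mod_cast hm
      push_cast
      nlinarith
    · obtain ⟨i, j, hij, rfl⟩ := Finset.card_eq_two.1 h2'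
      rw [Finset.sum_pair hij] at hsum ⊢
      rw [Finset.card_pair hij]
      have h4 := hlt i (by simp)
      have h5 := hlt j (by simp)
      push_cast
      rcases Nat.lt_or_ge m 2 with hm | hm
      · have hm1 : m = 1 := by
          rcases Nat.eq_zero_or_pos m with h0 | h0
          · subst h0
            push_cast at hsum
            linarith
          · omega
        have := hH hm1
        subst hm1
        push_cast at hsum
        nlinarith
      · have hm' : (2 : ℝ) ≤ m := by exact_mod_cast hm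
        nlinarith

end Pool.Agent.Lib.MP_f0132d_co.SF52
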