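import Pool.Agent.Lib.MP_f0132d_co.PrismG52

/-!
Right prisms which tile space: the refined bounds.
-/

namespace Pool.Agent.Lib.MP_f0132d_co.SF52

open Set MeasureTheory Measure

/-- the count for large balls, with weights -/
theorem gen_step {S : Finset (ℝ × ℝ)} (hS : CP S) (h2 : 2 ≤ S.card) {h : ℝ} (hh : 0 < h)
    {ι : Type*} [DecidableEq ι] (g : ι → E3 ≃ᵢ E3)
    (hcov : (⋃ i, g i '' prism (poly S) h) = univ)
    {D : ℝ} (hD0 : 0 ≤ D)
    (hD : ∀ x ∈ prism (poly S) h, ∀ y ∈ prism (poly S) h, ‖x - y‖ ≤ D) {R : ℝ} (I M : Finset ι)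
    (hI : ∀ i, i ∈ I ↔ g i '' prism (poly S) h ⊆ Metric.closedBall 0 R)
    (hM : ∀ i, i ∈ M ↔ g i '' prism (poly S) h ⊆ Metric.closedBall 0 (R + 1 + D))
    (c : ℝ × ℝ → ℝ) (hc : ∀ q, 0 ≤ c q) {K : ℝ} (hK : 0 ≤ K) {W : Set E3} (hW : IsClosed W)
    (hWf : (μH[1] : Measure E3) W ≠ ⊤)
    (hpt : ∀ (x : E3), (∀ y, ‖y - x‖ < 1 → ∃ j ∈ M, y ∈ g j '' prism (poly S) h) →
      (∀ j ∈ M, ∀ q ∈ S, x ≠ g j (mk3 q 0) ∧ x ≠ g j (mk3 q h)) →
      ∑ j ∈ M, ∑ q ∈ S, (g j '' col q h).indicator (fun _ => th (fc (poly S) q)) x ≤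
        ∑ j ∈ M, (∑ q ∈ S, (g j '' col q h).indicator (fun _ => c q) x +
          (g j '' W).indicator (fun _ => K) x)) :
    (h * (((S.card : ℝ) - 2) / 2 * bb)) * I.card ≤
      (h * ∑ q ∈ S, c q + K * (μH[1] : Measure E3).real W) * M.card := by
  classical
  have hIM : I ⊆ M := by
    intro i hi
    rw [hM]
    exact ((hI i).1 hi).trans (Metric.closedBall_subset_closedBall (by linarith))
  have hsegT : ∀ j, ∀ q ∈ S, g j '' col q h ⊆ g j '' prism (poly S) h := by
    intro j q hq
    apply image_mono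
    rintro y ⟨k1, k2, k3⟩
    exact ⟨k1 ▸ subset_convexHull ℝ _ hq, k2, k3⟩
  set Bad : Set E3 := ⋃ j ∈ M, ⋃ q ∈ S, {g j (mk3 q 0), g j (mk3 q h)} with hBad
  have hBf : Bad.Finite := by
    rw [hBad]
    apply Set.Finite.biUnion (Finset.finite_toSet M)
    intro j _
    apply Set.Finite.biUnion (Finset.finite_toSet S)
    intro q _
    exact Set.toFinite _
  have : NullSingletonClass (μH[1] : Measure E3) := nullSingletonClass_hausdorff E3 one_pos
  have hR0 : ∀ x, 0 ≤ ∑ j ∈ M, (∑ q ∈ S, (g j '' col q h).indicator (fun _ => c q) x +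
      (g j '' W).indicator (fun _ => K) x) := fun x => Finset.sum_nonneg (fun j _ =>
        add_nonneg (Finset.sum_nonneg (fun q _ => indicator_nonneg (fun _ _ => hc q) x))
          (indicator_nonneg (fun _ _ => hK) x))
  have hpt' : ∀ x, x ∉ Bad →
      ∑ j ∈ I, ∑ q ∈ S, (g j '' col q h).indicator (fun _ => th (fc (poly S) q)) x ≤
        ∑ j ∈ M, (∑ q ∈ S, (g j '' col q h).indicator (fun _ => c q) x +
          (g j '' W).indicator (fun _ => K) x) := by
    intro x hx
    have hnn : ∀ j, 0 ≤ ∑ q ∈ S, (g j '' col q h).indicator (fun _ => th (fc (poly S) q)) x :=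
      fun j => Finset.sum_nonneg (fun q _ => indicator_nonneg (fun _ _ => th_nonneg _) x)
    by_cases hxI : ∃ i ∈ I, x ∈ g i '' prism (poly S) h
    · obtain ⟨i, hiI, hxi⟩ := hxI
      have hxR : x ∈ Metric.closedBall (0 : E3) R := (hI i).1 hiI hxi
      refine (Finset.sum_le_sum_of_subset_of_nonneg hIM (fun j _ _ => hnn j)).trans ?_
      apply hpt
      · intro y hy
        obtain ⟨j, hj⟩ := mem_iUnion.1 (hcov ▸ mem_univ y : y ∈ ⋃ i, g i '' prism (poly S) h)
        refine ⟨j, ?_, hj⟩
        rw [hM]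
        intro w hw
        obtain ⟨y₀, hy₀, rfl⟩ := hj
        obtain ⟨w₀, hw₀, rfl⟩ := hw
        rw [mem_closedBall_zero_iff] at hxR ⊢
        have h1 : ‖g j w₀ - g j y₀‖ ≤ D := by
          rw [← dist_eq_norm, (g j).isometry.dist_eq, dist_eq_norm]
          exact hD _ hw₀ _ hy₀
        have h2 : g j w₀ = x + (g j y₀ - x) + (g j w₀ - g j y₀) := by abel
        rw [h2]
        have h3 := norm_add_le (x + (g j y₀ - x)) (g j w₀ - g j y₀)
        have h4 := norm_add_le x (g j y₀ - x)
        linarith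
      · intro j hj q hq
        constructor
        · intro he
          apply hx
          rw [hBad]
          simp only [mem_iUnion]
          exact ⟨j, hj, q, hq, Or.inl he⟩
        · intro he
          apply hx
          rw [hBad]
          simp only [mem_iUnion]
          exact ⟨j, hj, q, hq, Or.inr he⟩
    · push Not at hxI
      have h0 : ∑ j ∈ I, ∑ q ∈ S, (g j '' col q h).indicator (fun _ => th (fc (poly S) q)) x = 0 := by
        apply Finset.sum_eq_zero
        intro j hj
        apply Finset.sum_eq_zero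
        intro q hq
        rw [indicator_of_notMem]
        exact fun hm => hxI j hj (hsegT j q hq hm)
      rw [h0]
      exact hR0 x
  have hae : ∀ᵐ x ∂(μH[1] : Measure E3),
      ∑ j ∈ I, ∑ q ∈ S, (g j '' col q h).indicator (fun _ => th (fc (poly S) q)) x ≤
        ∑ j ∈ M, (∑ q ∈ S, (g j '' col q h).indicator (fun _ => c q) x +
          (g j '' W).indicator (fun _ => K) x) := by
    rw [ae_iff]
    apply measure_mono_null _ (hBf.measure_zero _)
    intro x hx
    by_contra hn
    exact hx (hpt' x hn)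
  have hms : ∀ j q, MeasurableSet (g j '' col q h) := fun j q =>
    ((col_compact q hh).image (g j).continuous).isClosed.measurableSet
  have hmW : ∀ j, MeasurableSet (g j '' W) := fun j =>
    ((g j).toHomeomorph.isClosedMap W hW).measurableSet
  have hint : ∀ (j : ι) (q : ℝ × ℝ) (a : ℝ), Integrable
      ((g j '' col q h).indicator (fun _ => a)) (μH[1] : Measure E3) := by
    intro j q a
    rw [integrable_indicator_iff (hms j q)]
    exact integrableOn_const (col_ne_top (g j) q hh)
  have hintW : ∀ (j : ι), Integrable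
      ((g j '' W).indicator (fun _ => K)) (μH[1] : Measure E3) := by
    intro j
    rw [integrable_indicator_iff (hmW j)]
    refine integrableOn_const ?_
    rw [(g j).hausdorffMeasure_image]
    exact hWf
  have hval : ∀ (j : ι) (q : ℝ × ℝ) (a : ℝ),
      ∫ x, (g j '' col q h).indicator (fun _ => a) x ∂(μH[1] : Measure E3) = h * a := by
    intro j q a
    rw [integral_indicator (hms j q), setIntegral_const, col_measure (g j) q hh, smul_eq_mul]
  have hvalW : ∀ (j : ι),
      ∫ x, (g j '' W).indicator (fun _ => K) x ∂(μH[1] : Measure E3) =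
        K * (μH[1] : Measure E3).real W := by
    intro j
    rw [integral_indicator (hmW j), setIntegral_const, smul_eq_mul, Measure.real,
      (g j).hausdorffMeasure_image, mul_comm]
    rfl
  have hadd : ∀ j : ι, Integrable (fun x => ∑ q ∈ S, (g j '' col q h).indicator (fun _ => c q) x +
      (g j '' W).indicator (fun _ => K) x) (μH[1] : Measure E3) := fun j =>
    (integrable_finsetSum _ (fun q _ => hint j q (c q))).add (hintW j)
  have hI2 := integral_mono_ae
    (integrable_finsetSum _ (fun j (_ : j ∈ I) => integrable_finsetSum _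
      (fun q (_ : q ∈ S) => hint j q (th (fc (poly S) q)))))
    (integrable_finsetSum _ (fun j (_ : j ∈ M) => hadd j)) hae
  rw [integral_finsetSum _ (fun j _ => integrable_finsetSum _
      (fun q _ => hint j q (th (fc (poly S) q)))),
    Finset.sum_congr rfl (fun j _ => integral_finsetSum S
      (fun q _ => hint j q (th (fc (poly S) q)))),
    integral_finsetSum _ (fun j _ => hadd j)] at hI2
  have hval2 : ∀ j ∈ M, ∫ x, ∑ q ∈ S, (g j '' col q h).indicator (fun _ => c q) x +
      (g j '' W).indicator (fun _ => K) x ∂(μH[1] : Measure E3) =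
      h * ∑ q ∈ S, c q + K * (μH[1] : Measure E3).real W := by
    intro j _
    rw [integral_add (integrable_finsetSum _ (fun q _ => hint j q (c q))) (hintW j),
      integral_finsetSum S (fun q _ => hint j q (c q)), hvalW j,
      Finset.sum_congr rfl (fun q _ => hval j q (c q)), Finset.mul_sum]
  rw [Finset.sum_congr rfl hval2] at hI2
  simp only [hval] at hI2
  rw [← Finset.mul_sum, angle_sum hS h2, Finset.sum_const, Finset.sum_const,
    nsmul_eq_mul, nsmul_eq_mul] at hI2
  linarith

/-- **partners**: at least `4 (n - 6)` vertices have a partner -/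
theorem partner_bound {S : Finset (ℝ × ℝ)} (hS : CP S) (h3 : 3 ≤ S.card)
    (hi : (interior (poly S)).Nonempty) {h : ℝ} (hh : 0 < h)
    (hPi : (interior (prism (poly S) h)).Nonempty)
    {ι : Type*} (g : ι → E3 ≃ᵢ E3)
    (hcov : (⋃ i, g i '' prism (poly S) h) = univ)
    (hdisj : ∀ i j, i ≠ j → Disjoint (interior (g i '' prism (poly S) h))
      (interior (g j '' prism (poly S) h))) (T : Finset (ℝ × ℝ))
    (hT : ∀ q ∈ S, Pt S q → q ∈ T) : 4 * S.card ≤ 24 + T.card := by
  classical
  by_contra hcon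
  push Not at hcon
  have h2 : 2 ≤ S.card := by omega
  have hb := bb_pos
  obtain ⟨D, hD0, hD⟩ := exists_bound (prism_compact S h)
  set c : ℝ × ℝ → ℝ := fun q => if Pt S q then 3 / 8 * bb else bb / 3 with hc
  have hc1 : ∀ q, bb / 3 ≤ c q := by
    intro q
    simp only [hc]
    split_ifs
    · linarith
    · exact le_refl _
  have hc2 : ∀ q, Pt S q → c q = 3 / 8 * bb := fun q hq => by
    simp only [hc]
    rw [if_pos hq]
  have hc0 : ∀ q, 0 ≤ c q := fun q => le_trans (by positivity) (hc1 q)
  have hm : ((S.filter (fun q => Pt S q)).card : ℝ) ≤ T.card := by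
    have : S.filter (fun q => Pt S q) ⊆ T := by
      intro q hq
      rw [Finset.mem_filter] at hq
      exact hT q hq.1 hq.2
    exact_mod_cast Finset.card_le_card this
  have hcs : ∑ q ∈ S, c q = S.card * (bb / 3) + (S.filter (fun q => Pt S q)).card * (bb / 24) := by
    have h1 : ∀ q, c q = bb / 3 + if Pt S q then bb / 24 else 0 := by
      intro q
      simp only [hc]
      split_ifs
      · ring
      · ring
    rw [Finset.sum_congr rfl (fun q _ => h1 q), Finset.sum_add_distrib, Finset.sum_const,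
      nsmul_eq_mul, ← Finset.sum_filter, Finset.sum_const, nsmul_eq_mul]
  have hn : (24 : ℝ) + T.card < 4 * S.card := by exact_mod_cast hcon
  have hn3 : (3 : ℝ) ≤ S.card := by exact_mod_cast h3
  have hm0 : (0 : ℝ) ≤ (S.filter (fun q => Pt S q)).card := Nat.cast_nonneg _
  refine growth_AB (prism_compact S h) hPi g hcov hdisj hD0
    (A := h * (((S.card : ℝ) - 2) / 2 * bb)) (B := h * ∑ q ∈ S, c q) ?_ ?_ ?_
  · rw [hcs]
    have : 0 < (S.card : ℝ) * (bb / 3) := by positivity
    have h5 : 0 ≤ ((S.filter (fun q => Pt S q)).card : ℝ) * (bb / 24) := by positivity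
    exact mul_pos hh (by linarith)
  · apply mul_lt_mul_of_pos_left _ hh
    rw [hcs]
    nlinarith
  · intro R I M hI hM
    have h1 := gen_step hS h2 hh g hcov hD0.le hD I M hI hM c hc0 (K := 0) le_rfl
      (W := ∅) isClosed_empty (by simp) ?_
    · rw [zero_mul, add_zero] at h1
      exact h1
    · intro x hx hbad
      obtain ⟨V, q, m, hVM, hq, hV1, hV2, -⟩ :=
        point_data hi hh g M hdisj one_pos hx hbad
      simp only [image_empty, indicator_empty, add_zero]
      rw [hV1 (fun p => th (fc (poly S) p)), hV1 c]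
      exact arith_partner hS h2 V q m hq hV2 c hc1 hc2

theorem Hs_closed (S : Finset (ℝ × ℝ)) (h : ℝ) : IsClosed (Hs S h) := by
  have h1 : Continuous (fun y : E3 => pr y) := pr.continuous_of_finiteDimensional
  have h2 : Continuous (fun y : E3 => y 2) := by fun_prop
  have e : Hs S h = (fun y : E3 => pr y) ⁻¹' frontier (poly S) ∩
      ((fun y : E3 => y 2) ⁻¹' {0} ∪ (fun y : E3 => y 2) ⁻¹' {h}) := by
    ext y
    rfl
  rw [e]
  exact (isClosed_frontier.preimage h1).inter
    ((isClosed_singleton.preimage h2).union (isClosed_singleton.preimage h2))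

/-- the boundary of the base, as a subset of space -/
def Rim (S : Finset (ℝ × ℝ)) : Set E3 := {y | pr y ∈ frontier (poly S) ∧ y 2 = 0}

theorem Hs_measure (S : Finset (ℝ × ℝ)) (h : ℝ) :
    (μH[1] : Measure E3) (Hs S h) ≤ 2 * (μH[1] : Measure E3) (Rim S) := by
  have h1 : Hs S h ⊆ Rim S ∪ (IsometryEquiv.addRight (mk3 (0, 0) h) : E3 ≃ᵢ E3) '' Rim S := by
    rintro y ⟨k1, k2 | k2⟩
    · left
      exact ⟨k1, k2⟩
    · right
      refine ⟨y - mk3 (0, 0) h, ⟨?_, ?_⟩, ?_⟩
      · rw [map_sub, pr_mk3]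
        have : pr y - ((0 : ℝ), (0 : ℝ)) = pr y := by
          ext <;> simp
        rw [this]
        exact k1
      · change y 2 - h = 0
        rw [k2, sub_self]
      · simp
  refine (measure_mono h1).trans ((measure_union_le _ _).trans ?_)
  rw [IsometryEquiv.hausdorffMeasure_image, two_mul]

/-- **tall prisms**: `(n - 6) h` is at most the perimeter of the base -/
theorem tall_bound {S : Finset (ℝ × ℝ)} (hS : CP S) (h3 : 3 ≤ S.card)
    (hi : (interior (poly S)).Nonempty) {h : ℝ} (hh : 0 < h)
    (hPi : (interior (prism (poly S) h)).Nonempty)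
    {ι : Type*} (g : ι → E3 ≃ᵢ E3)
    (hcov : (⋃ i, g i '' prism (poly S) h) = univ)
    (hdisj : ∀ i j, i ≠ j → Disjoint (interior (g i '' prism (poly S) h))
      (interior (g j '' prism (poly S) h))) :
    ENNReal.ofReal (((S.card : ℝ) - 6) * h) ≤ (μH[1] : Measure E3) (Rim S) := by
  classical
  by_contra hcon
  push Not at hcon
  have hRf : (μH[1] : Measure E3) (Rim S) ≠ ⊤ := (hcon.trans_le le_top).ne
  have h2 : 2 ≤ S.card := by omega
  have hb := bb_pos
  have hn3 : (3 : ℝ) ≤ S.card := by exact_mod_cast h3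
  have hHf : (μH[1] : Measure E3) (Hs S h) ≠ ⊤ := by
    refine ne_top_of_le_ne_top ?_ (Hs_measure S h)
    exact ENNReal.mul_ne_top (by simp) hRf
  set L := (μH[1] : Measure E3).real (Hs S h) with hL
  set p := (μH[1] : Measure E3).real (Rim S) with hp
  have hLp : L ≤ 2 * p := by
    have h5 := ENNReal.toReal_mono (ENNReal.mul_ne_top (by simp) hRf) (Hs_measure S h)
    rw [ENNReal.toReal_mul] at h5
    exact h5
  have hL0 : 0 ≤ L := ENNReal.toReal_nonneg
  have hlt : p < ((S.card : ℝ) - 6) * h := by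
    have h5 := (ENNReal.lt_ofReal_iff_toReal_lt hRf).1 hcon
    exact h5
  obtain ⟨D, hD0, hD⟩ := exists_bound (prism_compact S h)
  refine growth_AB (prism_compact S h) hPi g hcov hdisj hD0
    (A := h * (((S.card : ℝ) - 2) / 2 * bb))
    (B := h * ∑ q ∈ S, bb / 3 + bb / 12 * L) ?_ ?_ ?_
  · rw [Finset.sum_const, nsmul_eq_mul]
    positivity
  · rw [Finset.sum_const, nsmul_eq_mul]
    have h6 : 4 * (S.card : ℝ) * h + L < 6 * ((S.card : ℝ) - 2) * h := by nlinarith
    nlinarith
  · intro R I M hI hM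
    refine gen_step hS h2 hh g hcov hD0.le hD I M hI hM (fun _ => bb / 3)
      (fun _ => by positivity) (K := bb / 12) (by positivity)
      (W := Hs S h) (Hs_closed S h) hHf ?_
    intro x hx hbad
    obtain ⟨V, q, m, hVM, hq, hV1, hV2, hV3⟩ :=
      point_data hi hh g M hdisj one_pos hx hbad
    rw [Finset.sum_add_distrib]
    rw [hV1 (fun p => th (fc (poly S) p)), hV1 (fun _ => bb / 3)]
    have e : ∑ j ∈ M, (g j '' Hs S h).indicator (fun _ => bb / 12) x =
        bb / 12 * ∑ j ∈ M, (g j '' Hs S h).indicator (fun _ => (1 : ℝ)) x := by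
      rw [Finset.mul_sum]
      apply Finset.sum_congr rfl
      intro j _
      by_cases hj : x ∈ g j '' Hs S h
      · rw [indicator_of_mem hj, indicator_of_mem hj, mul_one]
      · rw [indicator_of_notMem hj, indicator_of_notMem hj, mul_zero]
    rw [e]
    exact arith_hor hS h2 V q m hq hV2
      (Finset.sum_nonneg (fun j _ => indicator_nonneg (fun _ _ => zero_le_one) x)) hV3

end Pool.Agent.Lib.MP_f0132d_co.SF52
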