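import Pool.Agent.Lib.MP_f0132d_co.Fibre52

/-!
Slices of convex bodies of three-dimensional space by horizontal planes.
-/

namespace Pool.Agent.Lib.MP_f0132d_co.SF52

open Set

/-- facets of a convex body (two-dimensional exposed faces) -/
def IsFacet {V : Type*} [AddCommGroup V] [Module ℝ V] (P F : Set V) : Prop :=
  (∃ φ : V →ₗ[ℝ] ℝ, φ ≠ 0 ∧ F = {x | x ∈ P ∧ ∀ y ∈ P, φ y ≤ φ x}) ∧ ¬ Collinear ℝ F

/-- the slice of a set at height `z` -/
def sl (z : ℝ) (T : Set (ℝ × (ℝ × ℝ))) : Set (ℝ × ℝ) := {p | (z, p) ∈ T}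

/-- the set has points below and above the height `z` -/
def Cr (z : ℝ) (T : Set (ℝ × (ℝ × ℝ))) : Prop := (∃ a ∈ T, a.1 < z) ∧ ∃ b ∈ T, z < b.1

theorem Cr.mono {z : ℝ} {S T : Set (ℝ × (ℝ × ℝ))} (h : Cr z S) (hST : S ⊆ T) : Cr z T := by
  obtain ⟨⟨a, ha, ha'⟩, b, hb, hb'⟩ := h
  exact ⟨⟨a, hST ha, ha'⟩, b, hST hb, hb'⟩

/-! ### first and last points -/

theorem lexmin_exists {Q : Set (ℝ × ℝ)} (hc : IsCompact Q) (hne : Q.Nonempty) :
    ∃ m ∈ Q, ∀ q ∈ Q, q = m ∨ Pos (q - m) := by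
  obtain ⟨a, ha, ha'⟩ := hc.exists_isMinOn hne continuous_fst.continuousOn
  have hc2 : IsCompact (Q ∩ {q | q.1 = a.1}) :=
    hc.inter_right (isClosed_eq continuous_fst continuous_const)
  obtain ⟨m, hm, hm'⟩ := hc2.exists_isMinOn ⟨a, ha, rfl⟩ continuous_snd.continuousOn
  have hm1 : m.1 = a.1 := hm.2
  refine ⟨m, hm.1, ?_⟩
  intro q hq
  have h1 : a.1 ≤ q.1 := ha' hq
  rcases eq_or_lt_of_le h1 with h | h
  · have h2 : m.2 ≤ q.2 := hm' (show q ∈ Q ∩ {q | q.1 = a.1} from ⟨hq, h.symm⟩)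
    rcases eq_or_lt_of_le h2 with h3 | h3
    · left
      exact Prod.ext (by rw [hm1, h]) h3.symm
    · right; right
      exact ⟨by simp [hm1, h], by simpa using h3⟩
  · right; left
    simp only [Prod.fst_sub, sub_pos]
    rw [hm1]; exact h

theorem lexmax_exists {Q : Set (ℝ × ℝ)} (hc : IsCompact Q) (hne : Q.Nonempty) :
    ∃ m ∈ Q, ∀ q ∈ Q, q = m ∨ Pos (m - q) := by
  have hc' : IsCompact ((fun x => -x) '' Q) := hc.image continuous_neg
  obtain ⟨m, ⟨m', hm', rfl⟩, h⟩ := lexmin_exists hc' (hne.image _)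
  refine ⟨m', hm', ?_⟩
  intro q hq
  rcases h (-q) ⟨q, hq, rfl⟩ with h1 | h1
  · left
    exact neg_injective h1
  · right
    have : m' - q = -q - -m' := by abel
    rw [this]; exact h1

open Classical in
/-- the first point of a planar set -/
noncomputable def lx (Q : Set (ℝ × ℝ)) : ℝ × ℝ :=
  if h : ∃ m ∈ Q, ∀ q ∈ Q, q = m ∨ Pos (q - m) then h.choose else 0

open Classical in
/-- the last point of a planar set -/
noncomputable def ux (Q : Set (ℝ × ℝ)) : ℝ × ℝ :=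
  if h : ∃ m ∈ Q, ∀ q ∈ Q, q = m ∨ Pos (m - q) then h.choose else 0

theorem lx_spec {Q : Set (ℝ × ℝ)} (hc : IsCompact Q) (hne : Q.Nonempty) :
    lx Q ∈ Q ∧ ∀ q ∈ Q, q = lx Q ∨ Pos (q - lx Q) := by
  have h := lexmin_exists hc hne
  unfold lx
  rw [dif_pos h]
  exact h.choose_spec

theorem lx_unique {Q : Set (ℝ × ℝ)} (hc : IsCompact Q) {p : ℝ × ℝ} (hp : p ∈ Q)
    (h : ∀ q ∈ Q, q = p ∨ Pos (q - p)) : p = lx Q := by
  obtain ⟨h1, h2⟩ := lx_spec hc ⟨p, hp⟩
  rcases h2 p hp with h3 | h3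
  · exact h3
  · rcases h _ h1 with h4 | h4
    · exact h4.symm
    · exact absurd (by rw [neg_sub]; exact h4) h3.not_neg

theorem ux_unique {Q : Set (ℝ × ℝ)} (hc : IsCompact Q) {p : ℝ × ℝ} (hp : p ∈ Q)
    (h : ∀ q ∈ Q, q = p ∨ Pos (p - q)) : p = ux Q := by
  have hex := lexmax_exists hc ⟨p, hp⟩
  have h0 : ux Q ∈ Q ∧ ∀ q ∈ Q, q = ux Q ∨ Pos (ux Q - q) := by
    unfold ux
    rw [dif_pos hex]
    exact hex.choose_spec
  rcases h0.2 p hp with h3 | h3
  · exact h3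
  · rcases h _ h0.1 with h4 | h4
    · exact h4.symm
    · exact absurd (by rw [neg_sub]; exact h4) h3.not_neg

/-! ### slices -/

theorem sl_closed {T : Set (ℝ × (ℝ × ℝ))} (hT : IsClosed T) (z : ℝ) : IsClosed (sl z T) :=
  hT.preimage (by fun_prop : Continuous fun p : ℝ × ℝ => ((z, p) : ℝ × (ℝ × ℝ)))

theorem sl_compact {T : Set (ℝ × (ℝ × ℝ))} (hT : IsCompact T) (z : ℝ) : IsCompact (sl z T) := by
  have h1 : IsCompact ((fun x : ℝ × (ℝ × ℝ) => x.2) '' (T ∩ {x | x.1 = z})) :=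
    (hT.inter_right (isClosed_eq continuous_fst continuous_const)).image continuous_snd
  have h2 : sl z T = (fun x : ℝ × (ℝ × ℝ) => x.2) '' (T ∩ {x | x.1 = z}) := by
    ext p
    constructor
    · intro hp
      exact ⟨(z, p), ⟨hp, rfl⟩, rfl⟩
    · rintro ⟨x, ⟨hx, hz⟩, rfl⟩
      change (z, x.2) ∈ T
      have : x = (z, x.2) := Prod.ext hz rfl
      rw [← this]; exact hx
  rw [h2]; exact h1

theorem sl_convex {T : Set (ℝ × (ℝ × ℝ))} (hT : Convex ℝ T) (z : ℝ) : Convex ℝ (sl z T) := by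
  intro p hp q hq a b ha hb hab
  change (z, a • p + b • q) ∈ T
  have := hT (show (z, p) ∈ T from hp) (show (z, q) ∈ T from hq) ha hb hab
  have e : a • ((z, p) : ℝ × (ℝ × ℝ)) + b • (z, q) = (z, a • p + b • q) := by
    ext <;> simp
    rw [← add_mul, hab, one_mul]
  rw [e] at this
  exact this

/-- a point at the height `z` between two points -/
theorem mid_height {a b : ℝ × (ℝ × ℝ)} {z : ℝ} (ha : a.1 < z) (hb : z < b.1) :
    ∃ t : ℝ, 0 < t ∧ t < 1 ∧ ((1 - t) • a + t • b).1 = z := by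
  refine ⟨(z - a.1) / (b.1 - a.1), div_pos (by linarith) (by linarith), ?_, ?_⟩
  · rw [div_lt_one (by linarith)]; linarith
  · simp only [Prod.fst_add, Prod.smul_fst, smul_eq_mul]
    have : b.1 - a.1 ≠ 0 := by linarith
    field_simp
    ring

theorem sl_int_nonempty {T : Set (ℝ × (ℝ × ℝ))} (hT : Convex ℝ T) (hi : (interior T).Nonempty)
    {z : ℝ} (hz : Cr z T) : (interior (sl z T)).Nonempty := by
  obtain ⟨⟨a, ha, ha'⟩, b, hb, hb'⟩ := hz
  have key : ∃ x ∈ interior T, x.1 = z := by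
    obtain ⟨c, hc⟩ := hi
    rcases lt_trichotomy c.1 z with h | h | h
    · obtain ⟨t, h0, h1, e⟩ := mid_height h hb'
      exact ⟨_, hT.openSegment_interior_self_subset_interior hc hb
        ⟨1 - t, t, by linarith, h0, by ring, rfl⟩, e⟩
    · exact ⟨c, hc, h⟩
    · obtain ⟨t, h0, h1, e⟩ := mid_height ha' h
      exact ⟨_, hT.openSegment_self_interior_subset_interior ha hc
        ⟨1 - t, t, by linarith, h0, by ring, rfl⟩, e⟩
  obtain ⟨x, hx, hxz⟩ := key
  refine ⟨x.2, ?_⟩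
  have hcont : Continuous fun p : ℝ × ℝ => ((z, p) : ℝ × (ℝ × ℝ)) := by fun_prop
  have : (fun p : ℝ × ℝ => ((z, p) : ℝ × (ℝ × ℝ))) ⁻¹' interior T ⊆ interior (sl z T) := by
    apply interior_maximal
    · intro p hp
      change (z, p) ∈ T
      exact interior_subset (show (z, p) ∈ interior T from hp)
    · exact isOpen_interior.preimage hcont
  apply this
  change (z, x.2) ∈ interior T
  have e : x = (z, x.2) := Prod.ext hxz rfl
  rw [← e]; exact hx

theorem lin3_apply (φ : ℝ × (ℝ × ℝ) →ₗ[ℝ] ℝ) (x : ℝ × (ℝ × ℝ)) :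
    φ x = x.1 * φ (1, 0) + φ (0, x.2) := by
  have : x = x.1 • ((1, 0) : ℝ × (ℝ × ℝ)) + (0, x.2) := by
    ext <;> simp
  conv_lhs => rw [this]
  rw [map_add, map_smul, smul_eq_mul]

theorem sl_int_sub {T : Set (ℝ × (ℝ × ℝ))} (hT : Convex ℝ T) (hi : (interior T).Nonempty)
    {z : ℝ} (hz : Cr z T) {p : ℝ × ℝ} (hp : p ∈ interior (sl z T)) : (z, p) ∈ interior T := by
  obtain ⟨⟨a, ha, ha'⟩, b, hb, hb'⟩ := hz
  by_contra hcon
  obtain ⟨f, hf⟩ := geometric_hahn_banach_open_point hT.interior isOpen_interior hcon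
  have hle : ∀ q ∈ T, f q ≤ f (z, p) := by
    intro q hq
    have hcl : T ⊆ closure (interior T) := by
      rw [hT.closure_interior_eq_closure_of_nonempty_interior hi]
      exact subset_closure
    have hclosed : IsClosed {x | f x ≤ f (z, p)} := isClosed_le f.continuous continuous_const
    have : closure (interior T) ⊆ {x | f x ≤ f (z, p)} :=
      hclosed.closure_subset_iff.2 (fun x hx => (hf x hx).le)
    exact this (hcl hq)
  -- the restriction to the plane vanishes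
  have hplane : ∀ v : ℝ × ℝ, f (0, v) = 0 := by
    intro v
    obtain ⟨δ, hδ, hball⟩ := Metric.isOpen_iff.1 isOpen_interior p hp
    set c := δ / 2 / (‖v‖ + 1) with hc
    have hc0 : 0 < c := by positivity
    have hcn : ‖c • v‖ < δ := by
      rw [norm_smul, Real.norm_eq_abs, abs_of_pos hc0, hc]
      have : δ / 2 / (‖v‖ + 1) * ‖v‖ ≤ δ / 2 := by
        rw [div_mul_eq_mul_div, div_le_iff₀ (by positivity)]
        nlinarith [norm_nonneg v]
      linarith
    have m1 : p + c • v ∈ sl z T := by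
      apply interior_subset
      apply hball
      rw [Metric.mem_ball, dist_eq_norm, add_sub_cancel_left]; exact hcn
    have m2 : p - c • v ∈ sl z T := by
      apply interior_subset
      apply hball
      rw [Metric.mem_ball, dist_eq_norm, sub_sub_cancel_left, norm_neg]; exact hcn
    have k1 := hle _ m1
    have k2 := hle _ m2
    have e1 : ((z, p + c • v) : ℝ × (ℝ × ℝ)) = (z, p) + c • (0, v) := by
      ext <;> simp
    have e2 : ((z, p - c • v) : ℝ × (ℝ × ℝ)) = (z, p) - c • (0, v) := by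
      ext <;> simp
    rw [e1, map_add, map_smul, smul_eq_mul] at k1
    rw [e2, map_sub, map_smul, smul_eq_mul] at k2
    have : c * f (0, v) = 0 := by linarith
    exact (mul_eq_zero.1 this).resolve_left hc0.ne'
  have hform : ∀ x : ℝ × (ℝ × ℝ), f x = x.1 * f (1, 0) := by
    intro x
    have := lin3_apply f.toLinearMap x
    change f x = x.1 * f (1, 0) + f (0, x.2) at this
    rw [this, hplane, add_zero]
  obtain ⟨c, hc⟩ := hi
  have h1 := hf c hc
  have h2 := hle a ha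
  have h3 := hle b hb
  rw [hform, hform (z, p)] at h1 h2 h3
  change c.1 * f (1, 0) < z * f (1, 0) at h1
  change a.1 * f (1, 0) ≤ z * f (1, 0) at h2
  change b.1 * f (1, 0) ≤ z * f (1, 0) at h3
  have h4 : f (1, 0) = 0 := by nlinarith
  rw [h4] at h1
  simp at h1

/-- a facet which crosses a height has two points at that height -/
theorem two_points {F : Set (ℝ × (ℝ × ℝ))} (hF : Convex ℝ F) (hn : ¬ Collinear ℝ F) {z : ℝ}
    (hz : Cr z F) : ∃ p ∈ sl z F, ∃ q ∈ sl z F, p ≠ q := by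
  obtain ⟨⟨a, ha, ha'⟩, b, hb, hb'⟩ := hz
  by_contra hcon
  push Not at hcon
  apply hn
  rw [collinear_iff_of_mem ha]
  refine ⟨b - a, ?_⟩
  -- the point of `[a, b]` at height `z`
  obtain ⟨t, t0, t1, te⟩ := mid_height ha' hb'
  set p := (1 - t) • a + t • b with hp
  have hpF : p ∈ F := hF ha hb (by linarith) t0.le (by ring)
  have hps : p.2 ∈ sl z F := by
    change (z, p.2) ∈ F
    rw [← te]; exact hpF
  have huniq : ∀ x ∈ F, x.1 = z → x = p := by
    intro x hx hxz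
    have hxs : x.2 ∈ sl z F := by
      change (z, x.2) ∈ F
      rw [← hxz]; exact hx
    exact Prod.ext (by rw [hxz, te]) (hcon _ hxs _ hps)
  intro c hc
  simp only [vadd_eq_add]
  rcases lt_trichotomy c.1 z with h | h | h
  · obtain ⟨s, s0, s1, se⟩ := mid_height h hb'
    have hq := huniq _ (hF hc hb (by linarith) s0.le (by ring)) se
    -- (1 - s) c + s b = (1 - t) a + t b
    refine ⟨(t - s) / (1 - s), ?_⟩
    have h1s : 1 - s ≠ 0 := by linarith
    have e1 : (1 - s) • c = (1 - t) • a + t • b - s • b := by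
      rw [hp] at hq
      rw [← hq]; abel
    have e2 : c = (1 - s)⁻¹ • ((1 - t) • a + t • b - s • b) := by
      rw [← e1, smul_smul, inv_mul_cancel₀ h1s, one_smul]
    rw [e2]
    ext <;> simp <;> field_simp <;> ring
  · have := huniq c hc h
    refine ⟨t, ?_⟩
    rw [this, hp]
    ext <;> simp <;> ring
  · obtain ⟨s, s0, s1, se⟩ := mid_height ha' h
    have hq := huniq _ (hF ha hc (by linarith) s0.le (by ring)) se
    -- (1 - s) a + s c = (1 - t) a + t b
    refine ⟨t / s, ?_⟩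
    have hs0 : s ≠ 0 := s0.ne'
    have e1 : s • c = (1 - t) • a + t • b - (1 - s) • a := by
      rw [hp] at hq
      rw [← hq]; abel
    have e2 : c = s⁻¹ • ((1 - t) • a + t • b - (1 - s) • a) := by
      rw [← e1, smul_smul, inv_mul_cancel₀ hs0, one_smul]
    rw [e2]
    ext <;> simp <;> field_simp <;> ring

theorem ker_line (ψ : ℝ × ℝ →ₗ[ℝ] ℝ) (hψ : ψ ≠ 0) {k x : ℝ × ℝ} (hk : k ≠ 0) (h1 : ψ k = 0)
    (h2 : ψ x = 0) : ∃ t : ℝ, x = t • k := by
  have e1 := lin_apply ψ k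
  have e2 := lin_apply ψ x
  rw [h1] at e1
  rw [h2] at e2
  have hdet : x.1 * k.2 - x.2 * k.1 = 0 := by
    have k1 : ψ (1, 0) * (x.1 * k.2 - x.2 * k.1) = 0 := by
      linear_combination (-k.2) * e2 + x.2 * e1
    have k2 : ψ (0, 1) * (x.1 * k.2 - x.2 * k.1) = 0 := by
      linear_combination k.1 * e2 - x.1 * e1
    by_contra hne
    have c1 := (mul_eq_zero.1 k1).resolve_right hne
    have c2 := (mul_eq_zero.1 k2).resolve_right hne
    apply hψ
    ext <;> simp [c1, c2]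
  by_cases hk1 : k.1 = 0
  · have hk2 : k.2 ≠ 0 := by
      intro h
      exact hk (Prod.ext hk1 h)
    refine ⟨x.2 / k.2, ?_⟩
    ext
    · rw [Prod.smul_fst, smul_eq_mul, hk1, mul_zero]
      rw [hk1, mul_zero, sub_zero] at hdet
      exact (mul_eq_zero.1 hdet).resolve_right hk2
    · rw [Prod.smul_snd, smul_eq_mul, div_mul_cancel₀ _ hk2]
  · refine ⟨x.1 / k.1, ?_⟩
    ext
    · rw [Prod.smul_fst, smul_eq_mul, div_mul_cancel₀ _ hk1]
    · rw [Prod.smul_snd, smul_eq_mul]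
      field_simp
      linarith

/-- the planar part of a functional -/
def pl (φ : ℝ × (ℝ × ℝ) →ₗ[ℝ] ℝ) : ℝ × ℝ →ₗ[ℝ] ℝ := φ.comp (LinearMap.inr ℝ ℝ (ℝ × ℝ))

theorem pl_apply (φ : ℝ × (ℝ × ℝ) →ₗ[ℝ] ℝ) (p : ℝ × ℝ) : pl φ p = φ (0, p) := rfl

theorem pl_diff (φ : ℝ × (ℝ × ℝ) →ₗ[ℝ] ℝ) (z : ℝ) (p q : ℝ × ℝ) :
    φ (z, p) - φ (z, q) = pl φ p - pl φ q := by
  rw [pl_apply, pl_apply, ← map_sub, ← map_sub]
  congr 1
  ext <;> simp

theorem ker_sub (φ φ' : ℝ × (ℝ × ℝ) →ₗ[ℝ] ℝ) (h : φ ≠ 0) {k : ℝ × ℝ} (hk : k ≠ 0)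
    {d : ℝ × (ℝ × ℝ)} (hd : d.1 ≠ 0) (h1 : φ (0, k) = 0) (h2 : φ d = 0) (h1' : φ' (0, k) = 0)
    (h2' : φ' d = 0) {x : ℝ × (ℝ × ℝ)} (hx : φ x = 0) : φ' x = 0 := by
  have hpl : pl φ ≠ 0 := by
    intro h0
    apply h
    have hz : ∀ v : ℝ × ℝ, φ (0, v) = 0 := fun v => by
      rw [← pl_apply, h0]; rfl
    have e := lin3_apply φ d
    rw [h2, hz, add_zero] at e
    have hc : φ (1, 0) = 0 := by
      have := mul_eq_zero.1 e.symm
      exact this.resolve_left hd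
    apply LinearMap.ext
    intro y
    rw [lin3_apply φ y, hz, hc]
    simp
  -- subtract a multiple of `d`
  set y := x - (x.1 / d.1) • d with hy
  have hy1 : y.1 = 0 := by
    rw [hy, Prod.fst_sub, Prod.smul_fst, smul_eq_mul, div_mul_cancel₀ _ hd, sub_self]
  have hyφ : φ y = 0 := by
    rw [hy, map_sub, map_smul, hx, h2, smul_zero, sub_zero]
  have hye : y = (0, y.2) := Prod.ext hy1 rfl
  have h3 : pl φ y.2 = 0 := by
    rw [pl_apply, ← hye]; exact hyφ
  obtain ⟨t, ht⟩ := ker_line (pl φ) hpl hk (by rw [pl_apply]; exact h1) h3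
  have h4 : φ' y = 0 := by
    rw [hye, ht]
    have : ((0, t • k) : ℝ × (ℝ × ℝ)) = t • (0, k) := by ext <;> simp
    rw [this, map_smul, h1', smul_zero]
  have h5 : x = y + (x.1 / d.1) • d := by rw [hy]; abel
  rw [h5, map_add, h4, map_smul, h2', smul_zero, add_zero]

/-- two facets with a non-degenerate piece in common are equal -/
theorem facet_eq {T F F' : Set (ℝ × (ℝ × ℝ))} (hF : IsFacet T F) (hF' : IsFacet T F')
    {z : ℝ} {p q : ℝ × ℝ} (hpq : p ≠ q) (hp : (z, p) ∈ F ∩ F') (hq : (z, q) ∈ F ∩ F')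
    {r : ℝ × (ℝ × ℝ)} (hr : r ∈ F ∩ F') (hrz : r.1 ≠ z) : F = F' := by
  obtain ⟨⟨φ, hφ, eF⟩, -⟩ := hF
  obtain ⟨⟨φ', hφ', eF'⟩, -⟩ := hF'
  have hmemF : ∀ x, x ∈ F → x ∈ T ∧ ∀ y ∈ T, φ y ≤ φ x := fun x hx => by rw [eF] at hx; exact hx
  have hmemF' : ∀ x, x ∈ F' → x ∈ T ∧ ∀ y ∈ T, φ' y ≤ φ' x := fun x hx => by
    rw [eF'] at hx; exact hx
  have eqF : ∀ x ∈ F, ∀ y ∈ F, φ (x - y) = 0 := by
    intro x hx y hy
    have h1 := (hmemF x hx).2 y (hmemF y hy).1
    have h2 := (hmemF y hy).2 x (hmemF x hx).1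
    rw [map_sub]; linarith
  have eqF' : ∀ x ∈ F', ∀ y ∈ F', φ' (x - y) = 0 := by
    intro x hx y hy
    have h1 := (hmemF' x hx).2 y (hmemF' y hy).1
    have h2 := (hmemF' y hy).2 x (hmemF' x hx).1
    rw [map_sub]; linarith
  have hk : p - q ≠ 0 := sub_ne_zero.2 hpq
  have ek : ((z, p) : ℝ × (ℝ × ℝ)) - (z, q) = (0, p - q) := by ext <;> simp
  have hd : (r - (z, p)).1 ≠ 0 := by
    rw [Prod.fst_sub]; exact sub_ne_zero.2 hrz
  have a1 : φ (0, p - q) = 0 := by rw [← ek]; exact eqF _ hp.1 _ hq.1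
  have a2 : φ (r - (z, p)) = 0 := eqF _ hr.1 _ hp.1
  have b1 : φ' (0, p - q) = 0 := by rw [← ek]; exact eqF' _ hp.2 _ hq.2
  have b2 : φ' (r - (z, p)) = 0 := eqF' _ hr.2 _ hp.2
  apply Subset.antisymm
  · intro x hx
    have h1 : φ' (x - r) = 0 := ker_sub φ φ' hφ hk hd a1 a2 b1 b2 (eqF x hx r hr.1)
    rw [eF']
    refine ⟨(hmemF x hx).1, ?_⟩
    intro y hy
    have := (hmemF' r hr.2).2 y hy
    rw [map_sub] at h1
    linarith
  · intro x hx
    have h1 : φ (x - r) = 0 := ker_sub φ' φ hφ' hk hd b1 b2 a1 a2 (eqF' x hx r hr.2)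
    rw [eF]
    refine ⟨(hmemF' x hx).1, ?_⟩
    intro y hy
    have := (hmemF r hr.1).2 y hy
    rw [map_sub] at h1
    linarith

theorem facet_convex {V : Type*} [AddCommGroup V] [Module ℝ V] {T F : Set V} (hT : Convex ℝ T)
    (hF : IsFacet T F) : Convex ℝ F := by
  obtain ⟨⟨φ, hφ, eF⟩, -⟩ := hF
  rw [eF]
  intro x hx y hy a b ha hb hab
  refine ⟨hT hx.1 hy.1 ha hb hab, ?_⟩
  intro w hw
  have h1 := mul_le_mul_of_nonneg_left (hx.2 w hw) ha
  have h2 := mul_le_mul_of_nonneg_left (hy.2 w hw) hb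
  rw [map_add, map_smul, map_smul, smul_eq_mul, smul_eq_mul]
  have : φ w = a * φ w + b * φ w := by rw [← add_mul, hab, one_mul]
  linarith

theorem facet_sub {V : Type*} [AddCommGroup V] [Module ℝ V] {T F : Set V} (hF : IsFacet T F) :
    F ⊆ T := by
  obtain ⟨⟨φ, hφ, eF⟩, -⟩ := hF
  rw [eF]
  exact fun x hx => hx.1

theorem facet_nonempty {V : Type*} [AddCommGroup V] [Module ℝ V] {T F : Set V}
    (hF : IsFacet T F) : F.Nonempty := by
  by_contra h
  rw [not_nonempty_iff_eq_empty] at h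
  exact hF.2 (h ▸ collinear_empty ℝ V)

theorem facet_closed {V : Type*} [NormedAddCommGroup V] [NormedSpace ℝ V] [FiniteDimensional ℝ V]
    {T F : Set V} (hT : IsClosed T) (hF : IsFacet T F) : IsClosed F := by
  obtain ⟨⟨φ, hφ, eF⟩, -⟩ := hF
  have hc : Continuous φ := φ.continuous_of_finiteDimensional
  have : F = T ∩ ⋂ y ∈ T, {x | φ y ≤ φ x} := by
    rw [eF]
    ext x
    simp only [mem_inter_iff, mem_iInter]
    rfl
  rw [this]
  exact hT.inter (isClosed_biInter fun y _ => isClosed_le continuous_const hc)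

end Pool.Agent.Lib.MP_f0132d_co.SF52
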