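import Pool.Agent.Lib.MP_f0132d_co.Height52

/-!
Integration of the inequality over all heights.
-/

namespace Pool.Agent.Lib.MP_f0132d_co.SF52

open Set MeasureTheory

/-- the extent of a set in the direction of the first coordinate -/
noncomputable def wd (T : Set (ℝ × (ℝ × ℝ))) : ℝ := sSup (Prod.fst '' T) - sInf (Prod.fst '' T)

theorem cr_iff {T : Set (ℝ × (ℝ × ℝ))} (hT : IsCompact T) (hne : T.Nonempty) (z : ℝ) :
    Cr z T ↔ z ∈ Ioo (sInf (Prod.fst '' T)) (sSup (Prod.fst '' T)) := by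
  have hc : IsCompact (Prod.fst '' T) := hT.image continuous_fst
  have hne' : (Prod.fst '' T).Nonempty := hne.image _
  constructor
  · rintro ⟨⟨a, ha, ha'⟩, b, hb, hb'⟩
    exact ⟨(csInf_le hc.bddBelow ⟨a, ha, rfl⟩).trans_lt ha',
      hb'.trans_le (le_csSup hc.bddAbove ⟨b, hb, rfl⟩)⟩
  · rintro ⟨h1, h2⟩
    obtain ⟨a, ha, ha'⟩ := hc.sInf_mem hne'
    obtain ⟨b, hb, hb'⟩ := hc.sSup_mem hne'
    exact ⟨⟨a, ha, by rw [ha']; exact h1⟩, b, hb, by rw [hb']; exact h2⟩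

theorem wd_nonneg {T : Set (ℝ × (ℝ × ℝ))} (hT : IsCompact T) (hne : T.Nonempty) : 0 ≤ wd T := by
  have hc : IsCompact (Prod.fst '' T) := hT.image continuous_fst
  obtain ⟨a, ha⟩ := hne
  have h1 := csInf_le hc.bddBelow ⟨a, ha, rfl⟩
  have h2 := le_csSup hc.bddAbove ⟨a, ha, rfl⟩
  unfold wd
  linarith

theorem lintegral_cr {T : Set (ℝ × (ℝ × ℝ))} (hT : IsCompact T) (hne : T.Nonempty) :
    ∫⁻ z, indicator {z | Cr z T} 1 z = ENNReal.ofReal (wd T) := by
  have : {z | Cr z T} = Ioo (sInf (Prod.fst '' T)) (sSup (Prod.fst '' T)) := by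
    ext z
    exact cr_iff hT hne z
  rw [this, lintegral_indicator_one measurableSet_Ioo, Real.volume_Ioo]
  rfl

theorem meas_cr {T : Set (ℝ × (ℝ × ℝ))} (hT : IsCompact T) (hne : T.Nonempty) :
    Measurable (indicator {z | Cr z T} (1 : ℝ → ENNReal)) := by
  have : {z | Cr z T} = Ioo (sInf (Prod.fst '' T)) (sSup (Prod.fst '' T)) := by
    ext z
    exact cr_iff hT hne z
  rw [this]
  exact measurable_one.indicator measurableSet_Ioo

/-- almost all heights are good -/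
theorem good_ae {ι : Type*} (T : ι → Set (ℝ × (ℝ × ℝ))) (I M : Finset ι)
    (Fc : ι → Finset (Set (ℝ × (ℝ × ℝ))))
    (hTc : ∀ j ∈ M, IsCompact (T j)) (hTi : ∀ j ∈ M, (T j).Nonempty)
    (hFc : ∀ i ∈ I, ∀ F ∈ Fc i, IsFacet (T i) F) : ∀ᵐ z : ℝ, Good T I M Fc z := by
  classical
  set B : Set ℝ := ⋃ j ∈ M, {sInf (Prod.fst '' T j), sSup (Prod.fst '' T j)} with hB
  set C : Set ℝ := ⋃ i ∈ I, ⋃ F ∈ Fc i, ⋃ F' ∈ Fc i,
    {z | F ≠ F' ∧ ∃ p q, p ≠ q ∧ (z, p) ∈ F ∩ F' ∧ (z, q) ∈ F ∩ F'} with hC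
  have hBf : B.Finite := by
    rw [hB]
    apply Set.Finite.biUnion (Finset.finite_toSet M)
    intro j _
    exact Set.toFinite _
  have hCf : C.Finite := by
    rw [hC]
    apply Set.Finite.biUnion (Finset.finite_toSet I)
    intro i hi
    apply Set.Finite.biUnion (Finset.finite_toSet (Fc i))
    intro F hF
    apply Set.Finite.biUnion (Finset.finite_toSet (Fc i))
    intro F' hF'
    apply Set.Subsingleton.finite
    rintro z ⟨hne, p, q, hpq, hp, hq⟩ z' ⟨-, p', q', -, hp', -⟩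
    by_contra hzz
    exact hne (facet_eq (hFc i hi F hF) (hFc i hi F' hF') hpq hp hq hp'
      (fun h => hzz h.symm))
  have hnull : volume (B ∪ C) = 0 := (hBf.union hCf).measure_zero _
  rw [ae_iff]
  apply measure_mono_null _ hnull
  intro z hz
  by_contra hcon
  apply hz
  have hzB : z ∉ B := fun h => hcon (Or.inl h)
  have hzC : z ∉ C := fun h => hcon (Or.inr h)
  constructor
  · intro j hj hne
    obtain ⟨p, hp⟩ := hne
    rw [cr_iff (hTc j hj) (hTi j hj)]
    have hc : IsCompact (Prod.fst '' T j) := (hTc j hj).image continuous_fst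
    have h1 : sInf (Prod.fst '' T j) ≤ z := csInf_le hc.bddBelow ⟨(z, p), hp, rfl⟩
    have h2 : z ≤ sSup (Prod.fst '' T j) := le_csSup hc.bddAbove ⟨(z, p), hp, rfl⟩
    refine ⟨lt_of_le_of_ne h1 ?_, lt_of_le_of_ne h2 ?_⟩
    · intro h
      apply hzB
      rw [hB]
      simp only [mem_iUnion]
      exact ⟨j, hj, Or.inl h.symm⟩
    · intro h
      apply hzB
      rw [hB]
      simp only [mem_iUnion]
      exact ⟨j, hj, Or.inr h⟩
  · intro i hi F hF F' hF' hne p q hp hq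
    by_contra hpq
    apply hzC
    rw [hC]
    simp only [mem_iUnion]
    exact ⟨i, hi, F, hF, F', hF', hne, p, q, hpq, hp, hq⟩

theorem width_ineq {ι : Type*} (T : ι → Set (ℝ × (ℝ × ℝ))) (I M : Finset ι) (hIM : I ⊆ M)
    (Fc : ι → Finset (Set (ℝ × (ℝ × ℝ))))
    (hTc : ∀ j ∈ M, IsCompact (T j)) (hTv : ∀ j ∈ M, Convex ℝ (T j))
    (hTi : ∀ j ∈ M, (interior (T j)).Nonempty)
    (hdisj : ∀ i ∈ M, ∀ j ∈ M, i ≠ j → Disjoint (interior (T i)) (interior (T j)))
    (hcov : ∀ i ∈ I, ∀ x ∈ T i, ∃ δ : ℝ, 0 < δ ∧ ∀ y, ‖y - x‖ < δ → ∃ j ∈ M, y ∈ T j)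
    (hFc : ∀ i ∈ I, ∀ F ∈ Fc i, IsFacet (T i) F) :
    ∑ i ∈ I, ∑ F ∈ Fc i, wd F ≤ 2 * ∑ i ∈ I, wd (T i) + 4 * ∑ j ∈ M, wd (T j) := by
  classical
  have hne : ∀ j ∈ M, (T j).Nonempty := fun j hj => (hTi j hj).mono interior_subset
  have hFn : ∀ i ∈ I, ∀ F ∈ Fc i, F.Nonempty := fun i hi F hF => facet_nonempty (hFc i hi F hF)
  have hFk : ∀ i ∈ I, ∀ F ∈ Fc i, IsCompact F := fun i hi F hF =>
    (hTc i (hIM hi)).of_isClosed_subset
      (facet_closed (hTc i (hIM hi)).isClosed (hFc i hi F hF)) (facet_sub (hFc i hi F hF))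
  have hind : ∀ (S : Finset (Set (ℝ × (ℝ × ℝ)))) (z : ℝ),
      ((S.filter (Cr z)).card : ENNReal) = ∑ F ∈ S, indicator {z | Cr z F} 1 z := by
    intro S z
    rw [Finset.card_filter]
    push_cast
    apply Finset.sum_congr rfl
    intro F _
    by_cases h : Cr z F
    · rw [if_pos h, indicator_of_mem (show z ∈ {z | Cr z F} from h)]
      rfl
    · rw [if_neg h, indicator_of_notMem (show z ∉ {z | Cr z F} from h)]
  have hind2 : ∀ (S : Finset ι) (z : ℝ),
      ((S.filter (fun i => Cr z (T i))).card : ENNReal) =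
        ∑ i ∈ S, indicator {z | Cr z (T i)} 1 z := by
    intro S z
    rw [Finset.card_filter]
    push_cast
    apply Finset.sum_congr rfl
    intro i _
    by_cases h : Cr z (T i)
    · rw [if_pos h, indicator_of_mem (show z ∈ {z | Cr z (T i)} from h)]
      rfl
    · rw [if_neg h, indicator_of_notMem (show z ∉ {z | Cr z (T i)} from h)]
  have hae : ∀ᵐ z : ℝ, (∑ i ∈ I, ∑ F ∈ Fc i, indicator {z | Cr z F} (1 : ℝ → ENNReal) z) ≤
      2 * (∑ i ∈ I, indicator {z | Cr z (T i)} (1 : ℝ → ENNReal) z) +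
        4 * ∑ j ∈ M, indicator {z | Cr z (T j)} (1 : ℝ → ENNReal) z := by
    filter_upwards [good_ae T I M Fc hTc hne hFc] with z hz
    have h := height_ineq T I M hIM Fc hTc hTv hTi hdisj hcov hFc hz
    have h' : ((∑ i ∈ I, ((Fc i).filter (Cr z)).card : ℕ) : ENNReal) ≤
      ((2 * (I.filter (fun i => Cr z (T i))).card +
        4 * (M.filter (fun j => Cr z (T j))).card : ℕ) : ENNReal) := by
      exact_mod_cast h
    push_cast at h'
    rw [hind2 I z, hind2 M z] at h'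
    rw [Finset.sum_congr rfl (fun i _ => hind (Fc i) z)] at h'
    exact h'
  have hint := lintegral_mono_ae hae
  have hmF : ∀ i ∈ I, ∀ F ∈ Fc i, Measurable (indicator {z | Cr z F} (1 : ℝ → ENNReal)) :=
    fun i hi F hF => meas_cr (hFk i hi F hF) (hFn i hi F hF)
  have hmI : ∀ i ∈ I, Measurable (indicator {z | Cr z (T i)} (1 : ℝ → ENNReal)) :=
    fun i hi => meas_cr (hTc i (hIM hi)) (hne i (hIM hi))
  have hmM : ∀ i ∈ M, Measurable (indicator {z | Cr z (T i)} (1 : ℝ → ENNReal)) :=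
    fun i hi => meas_cr (hTc i hi) (hne i hi)
  rw [lintegral_finsetSum I (fun i hi => Finset.measurable_fun_sum _ (fun F hF => hmF i hi F hF))]
    at hint
  rw [Finset.sum_congr rfl (fun i hi => lintegral_finsetSum (Fc i) (fun F hF => hmF i hi F hF))]
    at hint
  rw [Finset.sum_congr rfl (fun i hi => Finset.sum_congr rfl
    (fun F hF => lintegral_cr (hFk i hi F hF) (hFn i hi F hF)))] at hint
  rw [lintegral_add_left (by
      apply Measurable.const_mul
      exact Finset.measurable_fun_sum _ (fun i hi => hmI i hi)),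
    lintegral_const_mul _ (Finset.measurable_fun_sum _ (fun i hi => hmI i hi)),
    lintegral_const_mul _ (Finset.measurable_fun_sum _ (fun i hi => hmM i hi)),
    lintegral_finsetSum I (fun i hi => hmI i hi), lintegral_finsetSum M (fun i hi => hmM i hi),
    Finset.sum_congr rfl (fun i hi => lintegral_cr (hTc i (hIM hi)) (hne i (hIM hi))),
    Finset.sum_congr rfl (fun i hi => lintegral_cr (hTc i hi) (hne i hi))] at hint
  have w1 : ∀ i ∈ I, ∀ F ∈ Fc i, 0 ≤ wd F := fun i hi F hF => wd_nonneg (hFk i hi F hF) (hFn i hi F hF)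
  have w2 : ∀ i ∈ I, 0 ≤ wd (T i) := fun i hi => wd_nonneg (hTc i (hIM hi)) (hne i (hIM hi))
  have w3 : ∀ i ∈ M, 0 ≤ wd (T i) := fun i hi => wd_nonneg (hTc i hi) (hne i hi)
  rw [Finset.sum_congr rfl (fun i hi => (ENNReal.ofReal_sum_of_nonneg (fun F hF => w1 i hi F hF)).symm),
    ← ENNReal.ofReal_sum_of_nonneg (fun i hi => Finset.sum_nonneg (fun F hF => w1 i hi F hF)),
    ← ENNReal.ofReal_sum_of_nonneg w2, ← ENNReal.ofReal_sum_of_nonneg w3] at hint
  have e2 : (2 : ENNReal) = ENNReal.ofReal 2 := by simp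
  have e4 : (4 : ENNReal) = ENNReal.ofReal 4 := by simp
  rw [e2, e4, ← ENNReal.ofReal_mul (by norm_num), ← ENNReal.ofReal_mul (by norm_num),
    ← ENNReal.ofReal_add (mul_nonneg (by norm_num) (Finset.sum_nonneg w2))
      (mul_nonneg (by norm_num) (Finset.sum_nonneg w3))] at hint
  exact (ENNReal.ofReal_le_ofReal_iff (add_nonneg (mul_nonneg (by norm_num) (Finset.sum_nonneg w2))
      (mul_nonneg (by norm_num) (Finset.sum_nonneg w3)))).1 hint

end Pool.Agent.Lib.MP_f0132d_co.SF52
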