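import Pool.Agent.Lib.MP_f0132d_co.MeanW52

/-!
Faces of zonotopes and their mean widths.
-/

namespace Pool.Agent.Lib.MP_f0132d_co.SF52

open Set MeasureTheory

variable {n : ℕ}

/-- the zonotope with generators `a` -/
def zono (a : Fin n → E3) : Set E3 :=
  {x | ∃ t : Fin n → ℝ, (∀ i, 0 ≤ t i ∧ t i ≤ 1) ∧ x = ∑ i, t i • a i}

/-- the face of a set where a functional is maximal -/
def face (P : Set E3) (φ : E3 →ₗ[ℝ] ℝ) : Set E3 := {x | x ∈ P ∧ ∀ y ∈ P, φ y ≤ φ x}

theorem zono_compact (a : Fin n → E3) : IsCompact (zono a) := by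
  have h1 : IsCompact (Set.pi univ (fun _ : Fin n => Icc (0 : ℝ) 1)) :=
    isCompact_univ_pi (fun _ => isCompact_Icc)
  have h2 : Continuous (fun t : Fin n → ℝ => ∑ i, t i • a i) := by fun_prop
  have h3 : zono a = (fun t : Fin n → ℝ => ∑ i, t i • a i) ''
      (Set.pi univ (fun _ : Fin n => Icc (0 : ℝ) 1)) := by
    ext x
    constructor
    · rintro ⟨t, ht, rfl⟩
      exact ⟨t, fun i _ => ⟨(ht i).1, (ht i).2⟩, rfl⟩
    · rintro ⟨t, ht, rfl⟩
      exact ⟨t, fun i => ⟨(ht i (mem_univ i)).1, (ht i (mem_univ i)).2⟩, rfl⟩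
  rw [h3]
  exact h1.image h2

theorem zono_convex (a : Fin n → E3) : Convex ℝ (zono a) := by
  rintro x ⟨t, ht, rfl⟩ y ⟨s, hs, rfl⟩ α β hα hβ hαβ
  refine ⟨fun i => α * t i + β * s i, ?_, ?_⟩
  · intro i
    constructor
    · have := mul_nonneg hα (ht i).1
      have := mul_nonneg hβ (hs i).1
      linarith
    · have h1 := mul_le_mul_of_nonneg_left (ht i).2 hα
      have h2 := mul_le_mul_of_nonneg_left (hs i).2 hβ
      linarith
  · rw [Finset.smul_sum, Finset.smul_sum, ← Finset.sum_add_distrib]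
    apply Finset.sum_congr rfl
    intro i _
    rw [smul_smul, smul_smul, add_smul]

open Classical in
/-- the coefficients of a top point for `φ` and then for `ψ` -/
noncomputable def tp (a : Fin n → E3) (φ : E3 →ₗ[ℝ] ℝ) (ψ : E3 → ℝ) (i : Fin n) : ℝ :=
  if 0 < φ (a i) then 1 else if φ (a i) < 0 then 0 else if 0 < ψ (a i) then 1 else 0

theorem tp_mem (a : Fin n → E3) (φ : E3 →ₗ[ℝ] ℝ) (ψ : E3 → ℝ) (i : Fin n) :
    0 ≤ tp a φ ψ i ∧ tp a φ ψ i ≤ 1 := by
  unfold tp
  split_ifs <;> norm_num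

theorem tp_pos {a : Fin n → E3} {φ : E3 →ₗ[ℝ] ℝ} (ψ : E3 → ℝ) {i : Fin n} (h : 0 < φ (a i)) :
    tp a φ ψ i = 1 := by
  unfold tp
  rw [if_pos h]

theorem tp_neg {a : Fin n → E3} {φ : E3 →ₗ[ℝ] ℝ} (ψ : E3 → ℝ) {i : Fin n} (h : φ (a i) < 0) :
    tp a φ ψ i = 0 := by
  unfold tp
  rw [if_neg (not_lt.2 h.le), if_pos h]

open Classical in
theorem tp_zero {a : Fin n → E3} {φ : E3 →ₗ[ℝ] ℝ} (ψ : E3 → ℝ) {i : Fin n} (h : φ (a i) = 0) :
    tp a φ ψ i = if 0 < ψ (a i) then 1 else 0 := by
  unfold tp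
  rw [if_neg (by rw [h]; exact lt_irrefl _), if_neg (by rw [h]; exact lt_irrefl _)]

theorem map_comb (a : Fin n → E3) (φ : E3 →ₗ[ℝ] ℝ) (t : Fin n → ℝ) :
    φ (∑ i, t i • a i) = ∑ i, t i * φ (a i) := by
  rw [map_sum]
  apply Finset.sum_congr rfl
  intro i _
  rw [map_smul, smul_eq_mul]

theorem tp_top (a : Fin n → E3) (φ : E3 →ₗ[ℝ] ℝ) (ψ : E3 → ℝ) {t : Fin n → ℝ}
    (ht : ∀ i, 0 ≤ t i ∧ t i ≤ 1) (i : Fin n) : t i * φ (a i) ≤ tp a φ ψ i * φ (a i) := by
  unfold tp
  split_ifs with h1 h2 h3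
  · exact mul_le_mul_of_nonneg_right (ht i).2 h1.le
  · rw [zero_mul]
    exact mul_nonpos_of_nonneg_of_nonpos (ht i).1 h2.le
  · have : φ (a i) = 0 := le_antisymm (not_lt.1 h1) (not_lt.1 h2)
    rw [this]; simp
  · have : φ (a i) = 0 := le_antisymm (not_lt.1 h1) (not_lt.1 h2)
    rw [this]; simp

/-- description of the faces by coefficients -/
theorem mem_face_iff (a : Fin n → E3) (φ : E3 →ₗ[ℝ] ℝ) (x : E3) :
    x ∈ face (zono a) φ ↔ ∃ t : Fin n → ℝ, (∀ i, 0 ≤ t i ∧ t i ≤ 1) ∧
      (∀ i, 0 < φ (a i) → t i = 1) ∧ (∀ i, φ (a i) < 0 → t i = 0) ∧ x = ∑ i, t i • a i := by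
  constructor
  · rintro ⟨⟨t, ht, rfl⟩, hmax⟩
    have h1 := hmax (∑ i, tp a φ (fun _ => 0) i • a i) ⟨_, tp_mem a φ _, rfl⟩
    rw [map_comb, map_comb] at h1
    have h2 : ∀ i, t i * φ (a i) ≤ tp a φ (fun _ => 0) i * φ (a i) := tp_top a φ _ ht
    have h3 : ∀ i, t i * φ (a i) = tp a φ (fun _ => 0) i * φ (a i) := by
      intro i
      by_contra hne
      have hlt := lt_of_le_of_ne (h2 i) hne
      have := Finset.sum_lt_sum (fun i _ => h2 i) ⟨i, Finset.mem_univ i, hlt⟩
      linarith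
    refine ⟨t, ht, ?_, ?_, rfl⟩
    · intro i hi
      have := h3 i
      have h4 := mul_right_cancel₀ hi.ne' this
      rw [h4]
      unfold tp
      rw [if_pos hi]
    · intro i hi
      have := h3 i
      have h4 := mul_right_cancel₀ hi.ne this
      rw [h4]
      unfold tp
      rw [if_neg (not_lt.2 hi.le), if_pos hi]
  · rintro ⟨t, ht, h1, h2, rfl⟩
    refine ⟨⟨t, ht, rfl⟩, ?_⟩
    rintro _ ⟨s, hs, rfl⟩
    rw [map_comb, map_comb]
    apply Finset.sum_le_sum
    intro i _
    rcases lt_trichotomy (φ (a i)) 0 with h | h | h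
    · rw [h2 i h, zero_mul]
      exact mul_nonpos_of_nonneg_of_nonpos (hs i).1 h.le
    · rw [h]; simp
    · rw [h1 i h]
      exact mul_le_mul_of_nonneg_right (hs i).2 h.le

theorem tp_face (a : Fin n → E3) (φ : E3 →ₗ[ℝ] ℝ) (ψ : E3 → ℝ) :
    ∑ i, tp a φ ψ i • a i ∈ face (zono a) φ := by
  rw [mem_face_iff]
  refine ⟨_, tp_mem a φ ψ, ?_, ?_, rfl⟩
  · intro i hi
    unfold tp
    rw [if_pos hi]
  · intro i hi
    unfold tp
    rw [if_neg (not_lt.2 hi.le), if_pos hi]

theorem face_zero (a : Fin n → E3) : face (zono a) 0 = zono a := by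
  ext x
  constructor
  · exact fun h => h.1
  · intro h
    exact ⟨h, fun y _ => by simp⟩

open Classical in
theorem ext_face (a : Fin n → E3) (φ : E3 →ₗ[ℝ] ℝ) (v : E3) :
    ext v (face (zono a) φ) =
      ∑ i ∈ Finset.univ.filter (fun i => φ (a i) = 0), |inner ℝ v (a i)| := by
  have hin : ∀ t : Fin n → ℝ, inner ℝ v (∑ i, t i • a i) = ∑ i, t i * inner ℝ v (a i) := by
    intro t
    rw [inner_sum]
    apply Finset.sum_congr rfl
    intro i _
    rw [inner_smul_right]
  rw [ext_eq (tp_face a φ (fun x => inner ℝ v x)) (tp_face a φ (fun x => - inner ℝ v x))]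
  · rw [hin, hin, ← Finset.sum_sub_distrib, Finset.sum_filter]
    apply Finset.sum_congr rfl
    intro i _
    rcases lt_trichotomy (φ (a i)) 0 with h | h | h
    · rw [tp_neg _ h, tp_neg _ h, if_neg h.ne]
      ring
    · rw [tp_zero _ h, tp_zero _ h, if_pos h]
      rcases lt_trichotomy (inner ℝ v (a i)) (0 : ℝ) with k | k | k
      · rw [if_neg (not_lt.2 k.le), if_pos (by linarith), abs_of_neg k]
        ring
      · rw [k]; simp
      · rw [if_pos k, if_neg (by linarith), abs_of_pos k]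
        ring
    · rw [tp_pos _ h, tp_pos _ h, if_neg h.ne']
      ring
  · intro x hx
    rw [mem_face_iff] at hx
    obtain ⟨t, ht, h1, h2, rfl⟩ := hx
    rw [hin, hin]
    apply Finset.sum_le_sum
    intro i _
    unfold tp
    rcases lt_trichotomy (φ (a i)) 0 with h | h | h
    · rw [if_neg (not_lt.2 h.le), if_pos h, h2 i h]
    · rw [if_neg (by rw [h]; exact lt_irrefl _), if_neg (by rw [h]; exact lt_irrefl _)]
      split_ifs with k
      · exact mul_le_mul_of_nonneg_right (ht i).2 k.le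
      · rw [zero_mul]
        exact mul_nonpos_of_nonneg_of_nonpos (ht i).1 (not_lt.1 k)
    · rw [if_pos h, h1 i h]
  · intro x hx
    rw [mem_face_iff] at hx
    obtain ⟨t, ht, h1, h2, rfl⟩ := hx
    rw [hin, hin]
    apply Finset.sum_le_sum
    intro i _
    unfold tp
    rcases lt_trichotomy (φ (a i)) 0 with h | h | h
    · rw [if_neg (not_lt.2 h.le), if_pos h, h2 i h]
    · rw [if_neg (by rw [h]; exact lt_irrefl _), if_neg (by rw [h]; exact lt_irrefl _)]
      split_ifs with k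
      · rw [one_mul]
        have := mul_le_mul_of_nonpos_right (ht i).2 (by linarith : inner ℝ v (a i) ≤ (0 : ℝ))
        linarith
      · rw [zero_mul]
        exact mul_nonneg (ht i).1 (by linarith)
    · rw [if_pos h, h1 i h]

theorem kappa' (u : E3) :
    ∫ v in Metric.closedBall (0 : E3) 1, |inner ℝ v u| = ‖u‖ * (Real.pi / 2) := by
  by_cases hu : u = 0
  · subst hu
    simp
  have hn : 0 < ‖u‖ := norm_pos_iff.2 hu
  set e : E3 := ‖u‖⁻¹ • u with he
  have hen : ‖e‖ = 1 := by
    rw [he, norm_smul, norm_inv, norm_norm, inv_mul_cancel₀ hn.ne']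
  have hue : u = ‖u‖ • e := by
    rw [he, smul_smul, mul_inv_cancel₀ hn.ne', one_smul]
  have h1 : ∀ v : E3, |inner ℝ v u| = ‖u‖ * |inner ℝ v e| := by
    intro v
    conv_lhs => rw [hue]
    rw [inner_smul_right, abs_mul, abs_norm]
  simp only [h1]
  rw [integral_const_mul, kappa hen]

open Classical in
theorem wint_face (a : Fin n → E3) (φ : E3 →ₗ[ℝ] ℝ) :
    wint (face (zono a) φ) =
      (∑ i ∈ Finset.univ.filter (fun i => φ (a i) = 0), ‖a i‖) * (Real.pi / 2) := by
  unfold wint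
  simp only [ext_face a φ]
  rw [integral_finsetSum]
  · rw [Finset.sum_mul]
    apply Finset.sum_congr rfl
    intro i _
    exact kappa' (a i)
  · intro i _
    exact (by fun_prop : Continuous fun v : E3 => |inner ℝ v (a i)|).continuousOn
      |>.integrableOn_compact (isCompact_closedBall _ _)

open Classical in
theorem wint_zono (a : Fin n → E3) : wint (zono a) = (∑ i, ‖a i‖) * (Real.pi / 2) := by
  have := wint_face a 0
  rw [face_zero] at this
  rw [this]
  congr 1
  apply Finset.sum_congr _ (fun _ _ => rfl)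
  simp

/-- the direction `u` is parallel to `F`: some nondegenerate segment in `F` has direction `u` -/
def Par (u : E3) (F : Set E3) : Prop := ∃ x ∈ F, ∃ c : ℝ, c ≠ 0 ∧ x + c • u ∈ F

theorem par_iff (a : Fin n → E3) (φ : E3 →ₗ[ℝ] ℝ) (i : Fin n) :
    Par (a i) (face (zono a) φ) ↔ φ (a i) = 0 := by
  constructor
  · rintro ⟨x, hx, c, hc, hy⟩
    have h1 := hx.2 _ hy.1
    have h2 := hy.2 _ hx.1
    rw [map_add, map_smul, smul_eq_mul] at h1 h2
    have h3 : c * φ (a i) = 0 := by linarith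
    exact (mul_eq_zero.1 h3).resolve_left hc
  · intro h0
    classical
    refine ⟨∑ j, (if j = i then 0 else tp a φ (fun _ => 0) j) • a j, ?_, 1, one_ne_zero, ?_⟩
    · rw [mem_face_iff]
      refine ⟨_, ?_, ?_, ?_, rfl⟩
      · intro j
        split_ifs
        · norm_num
        · exact tp_mem a φ _ j
      · intro j hj
        have hji : j ≠ i := by rintro rfl; rw [h0] at hj; exact lt_irrefl _ hj
        rw [if_neg hji, tp_pos _ hj]
      · intro j hj
        have hji : j ≠ i := by rintro rfl; rw [h0] at hj; exact lt_irrefl _ hj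
        rw [if_neg hji, tp_neg _ hj]
    · rw [mem_face_iff]
      refine ⟨fun j => if j = i then 1 else tp a φ (fun _ => 0) j, ?_, ?_, ?_, ?_⟩
      · intro j
        dsimp only
        split_ifs
        · norm_num
        · exact tp_mem a φ _ j
      · intro j hj
        have hji : j ≠ i := by rintro rfl; rw [h0] at hj; exact lt_irrefl _ hj
        dsimp only
        rw [if_neg hji]
        unfold tp
        rw [if_pos hj]
      · intro j hj
        have hji : j ≠ i := by rintro rfl; rw [h0] at hj; exact lt_irrefl _ hj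
        dsimp only
        rw [if_neg hji]
        unfold tp
        rw [if_neg (not_lt.2 hj.le), if_pos hj]
      · rw [one_smul]
        have h1 : ∀ j, (if j = i then (1 : ℝ) else tp a φ (fun _ => 0) j) • a j =
            (if j = i then (0 : ℝ) else tp a φ (fun _ => 0) j) • a j +
              (if j = i then a j else 0) := by
          intro j
          split_ifs with h
          · rw [one_smul, zero_smul, zero_add]
          · rw [add_zero]
        rw [Finset.sum_congr rfl (fun j _ => h1 j), Finset.sum_add_distrib]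
        congr 1
        rw [Finset.sum_ite_eq' Finset.univ i a]
        simp

end Pool.Agent.Lib.MP_f0132d_co.SF52
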