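import Pool.Agent.Lib.MP_f0132d_co.ZonoF52

/-!
Counting facets of zonotopes.
-/

namespace Pool.Agent.Lib.MP_f0132d_co.SF52

open Set MeasureTheory

variable {n : ℕ}

theorem zono_lin {a : Fin n → E3} (hind : ∀ i j, i ≠ j → LinearIndependent ℝ ![a i, a j])
    (hi : (interior (zono a)).Nonempty) :
    ∃ L : Finset (Finset (Fin n)), Lin L ∧ (∀ l ∈ L, 2 ≤ l.card) ∧
      (∀ l ∈ L, ∃ w : E3 →ₗ[ℝ] ℝ, w ≠ 0 ∧ ∀ i, i ∈ l ↔ w (a i) = 0) ∧
      {F | IsFacet (zono a) F}.ncard = 2 * L.card ∧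
      ∀ i, {F | IsFacet (zono a) F ∧ Par (a i) F}.ncard =
        2 * (L.filter (fun l => i ∈ l)).card := by
  classical
  have hfin := facets_finite hind hi
  set A : Finset (Set E3) := hfin.toFinset with hA
  have hAm : ∀ F, F ∈ A ↔ IsFacet (zono a) F := by
    intro F
    rw [hA, Set.Finite.mem_toFinset]
    rfl
  set K : Set E3 → Finset (Fin n) := fun F => Finset.univ.filter (fun i => Par (a i) F) with hK
  have hKm : ∀ F i, i ∈ K F ↔ Par (a i) F := by
    intro F i
    rw [hK]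
    simp
  set L := A.image K with hL
  have hrep : ∀ F ∈ A, ∃ i j, i ≠ j ∧ i ∈ K F ∧ j ∈ K F := by
    intro F hF
    obtain ⟨φ, hφ, rfl, i, j, hij, h1, h2⟩ := (facet_iff hind F).1 ((hAm F).1 hF)
    exact ⟨i, j, hij, (hKm _ _).2 ((par_iff a φ i).2 h1), (hKm _ _).2 ((par_iff a φ j).2 h2)⟩
  -- facets with two common generators have the same line
  have hsame : ∀ F ∈ A, ∀ F' ∈ A, ∀ i j, i ≠ j → i ∈ K F → j ∈ K F → i ∈ K F' → j ∈ K F' →
      K F = K F' := by
    intro F hF F' hF' i j hij h1 h2 h3 h4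
    obtain ⟨w, hw0, -, -, -, hw⟩ := two_facets hind hi hij
    rw [hKm] at h1 h2 h3 h4
    have hneg : K (face (zono a) (-w)) = K (face (zono a) w) := by
      ext k
      rw [hKm, hKm, par_iff, par_iff, LinearMap.neg_apply, neg_eq_zero]
    rcases (hw F).1 ⟨(hAm F).1 hF, h1, h2⟩ with e | e <;>
      rcases (hw F').1 ⟨(hAm F').1 hF', h3, h4⟩ with e' | e' <;> rw [e, e']
    · exact hneg.symm
    · exact hneg
  have hLin : Lin L := by
    constructor
    · intro i j hij
      obtain ⟨w, hw0, h1, h2, -, hw⟩ := two_facets hind hi hij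
      have h := (hw (face (zono a) w)).2 (Or.inl rfl)
      refine ⟨K (face (zono a) w), ?_, ?_, ?_⟩
      · rw [hL, Finset.mem_image]
        exact ⟨_, (hAm _).2 h.1, rfl⟩
      · rw [hKm]; exact h.2.1
      · rw [hKm]; exact h.2.2
    · intro l hl l' hl' i j hij h1 h2 h3 h4
      rw [hL, Finset.mem_image] at hl hl'
      obtain ⟨F, hF, rfl⟩ := hl
      obtain ⟨F', hF', rfl⟩ := hl'
      exact hsame F hF F' hF' i j hij h1 h2 h3 h4
  have hfib : ∀ l ∈ L, (A.filter (fun F => K F = l)).card = 2 := by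
    intro l hl
    rw [hL, Finset.mem_image] at hl
    obtain ⟨F₀, hF₀, rfl⟩ := hl
    obtain ⟨i, j, hij, h1, h2⟩ := hrep F₀ hF₀
    obtain ⟨w, hw0, -, -, hne, hw⟩ := two_facets hind hi hij
    have : A.filter (fun F => K F = K F₀) = {face (zono a) w, face (zono a) (-w)} := by
      ext F
      rw [Finset.mem_filter, Finset.mem_insert, Finset.mem_singleton, ← hw F, hAm]
      constructor
      · rintro ⟨k1, k2⟩
        refine ⟨k1, ?_, ?_⟩
        · rw [← hKm, k2]; exact h1
        · rw [← hKm, k2]; exact h2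
      · rintro ⟨k1, k2, k3⟩
        refine ⟨k1, ?_⟩
        exact hsame F ((hAm F).2 k1) F₀ hF₀ i j hij ((hKm _ _).2 k2) ((hKm _ _).2 k3) h1 h2
    rw [this, Finset.card_pair hne]
  refine ⟨L, hLin, ?_, ?_, ?_, ?_⟩
  · intro l hl
    rw [hL, Finset.mem_image] at hl
    obtain ⟨F, hF, rfl⟩ := hl
    obtain ⟨i, j, hij, h1, h2⟩ := hrep F hF
    have hsub : ({i, j} : Finset (Fin n)) ⊆ K F := by
      intro k hk
      rw [Finset.mem_insert, Finset.mem_singleton] at hk
      rcases hk with rfl | rfl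
      · exact h1
      · exact h2
    rw [← Finset.card_pair hij]
    exact Finset.card_le_card hsub
  · intro l hl
    rw [hL, Finset.mem_image] at hl
    obtain ⟨F, hF, rfl⟩ := hl
    obtain ⟨φ, hφ, rfl, -⟩ := (facet_iff hind F).1 ((hAm F).1 hF)
    refine ⟨φ, hφ, ?_⟩
    intro i
    rw [hKm, par_iff]
  · have h1 : {F | IsFacet (zono a) F}.ncard = A.card := by
      rw [hA]
      exact Set.ncard_eq_toFinset_card _ hfin
    rw [h1, Finset.card_eq_sum_card_image K A, Finset.sum_congr rfl hfib, Finset.sum_const,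
      smul_eq_mul, mul_comm]
  · intro i
    have h1 : {F | IsFacet (zono a) F ∧ Par (a i) F} =
        (A.filter (fun F => i ∈ K F) : Finset (Set E3)) := by
      ext F
      rw [Finset.mem_coe, Finset.mem_filter, hAm, hKm]
      rfl
    rw [h1, Set.ncard_coe_finset, Finset.card_eq_sum_card_image K (A.filter (fun F => i ∈ K F))]
    have h2 : (A.filter (fun F => i ∈ K F)).image K = L.filter (fun l => i ∈ l) := by
      ext l
      rw [Finset.mem_image, Finset.mem_filter, hL, Finset.mem_image]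
      constructor
      · rintro ⟨F, hF, rfl⟩
        rw [Finset.mem_filter] at hF
        exact ⟨⟨F, hF.1, rfl⟩, hF.2⟩
      · rintro ⟨⟨F, hF, rfl⟩, h⟩
        exact ⟨F, Finset.mem_filter.2 ⟨hF, h⟩, rfl⟩
    rw [h2]
    have h3 : ∀ l ∈ L.filter (fun l => i ∈ l),
        ((A.filter (fun F => i ∈ K F)).filter (fun F => K F = l)).card = 2 := by
      intro l hl
      rw [Finset.mem_filter] at hl
      rw [← hfib l hl.1]
      congr 1
      ext F
      simp only [Finset.mem_filter]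
      constructor
      · rintro ⟨⟨k1, -⟩, k2⟩
        exact ⟨k1, k2⟩
      · rintro ⟨k1, k2⟩
        exact ⟨⟨k1, k2 ▸ hl.2⟩, k2⟩
    rw [Finset.sum_congr rfl h3, Finset.sum_const, smul_eq_mul, mul_comm]

/-- the average size of the zones -/
theorem zono_ineq {a : Fin n → E3} (hind : ∀ i j, i ≠ j → LinearIndependent ℝ ![a i, a j])
    (hi : (interior (zono a)).Nonempty)
    {ι : Type*} (g : ι → E3 ≃ᵢ E3) (hcov : (⋃ i, g i '' zono a) = univ)
    (hdisj : ∀ i j, i ≠ j → Disjoint (interior (g i '' zono a)) (interior (g j '' zono a))) :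
    ∑ i, ({F | IsFacet (zono a) F ∧ Par (a i) F}.ncard : ℝ) * ‖a i‖ ≤ 6 * ∑ i, ‖a i‖ := by
  classical
  have hfin := facets_finite hind hi
  set A : Finset (Set E3) := hfin.toFinset with hA
  have hAm : ∀ F, F ∈ A ↔ IsFacet (zono a) F := by
    intro F
    rw [hA, Set.Finite.mem_toFinset]
    rfl
  have h := facet_ineq (zono_compact a) (zono_convex a) hi g hcov hdisj A
    (fun F hF => (hAm F).1 hF)
  have h1 : ∀ F ∈ A, wint F =
      (∑ i, if Par (a i) F then ‖a i‖ else 0) * (Real.pi / 2) := by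
    intro F hF
    obtain ⟨φ, hφ, rfl, -⟩ := (facet_iff hind F).1 ((hAm F).1 hF)
    rw [wint_face, Finset.sum_filter]
    congr 1
    apply Finset.sum_congr rfl
    intro i _
    by_cases hz : φ (a i) = 0
    · rw [if_pos hz, if_pos ((par_iff a φ i).2 hz)]
    · rw [if_neg hz, if_neg (fun h => hz ((par_iff a φ i).1 h))]
  rw [Finset.sum_congr rfl h1, ← Finset.sum_mul, wint_zono, Finset.sum_comm] at h
  have h2 : ∀ i : Fin n, ∑ F ∈ A, (if Par (a i) F then ‖a i‖ else 0) =
      ({F | IsFacet (zono a) F ∧ Par (a i) F}.ncard : ℝ) * ‖a i‖ := by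
    intro i
    have e : {F | IsFacet (zono a) F ∧ Par (a i) F} =
        (A.filter (fun F => Par (a i) F) : Finset (Set E3)) := by
      ext F
      rw [Finset.mem_coe, Finset.mem_filter, hAm]
      rfl
    rw [e, Set.ncard_coe_finset, ← Finset.sum_filter, Finset.sum_const, nsmul_eq_mul]
  rw [Finset.sum_congr rfl (fun i _ => h2 i)] at h
  have hpi := Real.pi_pos
  have h3 : (∑ i, ({F | IsFacet (zono a) F ∧ Par (a i) F}.ncard : ℝ) * ‖a i‖) * (Real.pi / 2) ≤
      (6 * ∑ i, ‖a i‖) * (Real.pi / 2) := by linarith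
  exact le_of_mul_le_mul_right h3 (by positivity)

theorem norm_pos_of_ind {a : Fin n → E3}
    (hind : ∀ i j, i ≠ j → LinearIndependent ℝ ![a i, a j]) {i j : Fin n} (hij : i ≠ j) :
    0 < ‖a i‖ := by
  rw [norm_pos_iff]
  intro h
  have := LinearIndependent.pair_iff.1 (hind i j hij) 1 0 (by rw [h]; simp)
  exact one_ne_zero this.1

/-- incidences and lines -/
theorem lines_le {L : Finset (Finset (Fin n))} (hL : Lin L) (h2 : ∀ l ∈ L, 2 ≤ l.card)
    (hn : 2 ≤ n) (hnp : ¬ NP L Finset.univ) :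
    L.card + 3 * n ≤ ∑ i, (L.filter (fun l => i ∈ l)).card + 7 := by
  have h1 := cc_ge hL n Finset.univ (by simp) hn hnp
  have h3 : cc L Finset.univ + L.card = ∑ l ∈ L, l.card := by
    unfold cc
    rw [Finset.card_eq_sum_ones, ← Finset.sum_add_distrib]
    apply Finset.sum_congr rfl
    intro l hl
    rw [Finset.inter_univ]
    have := h2 l hl
    omega
  have h4 : ∑ l ∈ L, l.card = ∑ i, (L.filter (fun l => i ∈ l)).card := by
    have := Finset.sum_card_bipartiteAbove_eq_sum_card_bipartiteBelow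
      (s := (Finset.univ : Finset (Fin n))) (t := L) (fun (i : Fin n) (l : Finset (Fin n)) => i ∈ l)
    unfold Finset.bipartiteAbove Finset.bipartiteBelow at this
    rw [this]
    apply Finset.sum_congr rfl
    intro l _
    congr 1
    ext i
    simp
  omega

theorem two_le_lines {L : Finset (Finset (Fin n))} (hL : Lin L) (hnp : ¬ NP L Finset.univ)
    {p q : Fin n} (hpq : p ≠ q) : 2 ≤ (L.filter (fun l => p ∈ l)).card := by
  classical
  obtain ⟨l₁, hl₁, hp1, hq1⟩ := hL.ex p q hpq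
  obtain ⟨x, hx⟩ : ∃ x, x ∉ l₁ := by
    by_contra h
    push Not at h
    exact hnp ⟨p, l₁, hl₁, fun y _ => Finset.mem_insert_of_mem (h y)⟩
  have hpx : p ≠ x := fun h => hx (h ▸ hp1)
  obtain ⟨l₂, hl₂, hp2, hx2⟩ := hL.ex p x hpx
  have h12 : l₁ ≠ l₂ := fun h => hx (h ▸ hx2)
  have hsub : ({l₁, l₂} : Finset (Finset (Fin n))) ⊆ L.filter (fun l => p ∈ l) := by
    intro k hk
    rw [Finset.mem_insert, Finset.mem_singleton] at hk
    rw [Finset.mem_filter]
    rcases hk with rfl | rfl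
    · exact ⟨hl₁, hp1⟩
    · exact ⟨hl₂, hp2⟩
  rw [← Finset.card_pair h12]
  exact Finset.card_le_card hsub

end Pool.Agent.Lib.MP_f0132d_co.SF52
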