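import Pool.Agent.Lib.MP_f0132d_co.Zono52
import Pool.Agent.Lib.MP_f0132d_co.LinSp52

/-!
Facets of zonotopes and the linear space of the generators.
-/

namespace Pool.Agent.Lib.MP_f0132d_co.SF52

open Set MeasureTheory

variable {n : ℕ}

theorem exists_nonzero {a : Fin n → E3} (hi : (interior (zono a)).Nonempty) {φ : E3 →ₗ[ℝ] ℝ}
    (hφ : φ ≠ 0) : ∃ k, φ (a k) ≠ 0 := by
  by_contra hcon
  push Not at hcon
  apply hφ
  have hz : ∀ x ∈ zono a, φ x = 0 := by
    rintro x ⟨t, ht, rfl⟩
    rw [map_comb]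
    apply Finset.sum_eq_zero
    intro i _
    rw [hcon i, mul_zero]
  obtain ⟨x, hx⟩ := hi
  obtain ⟨δ, hδ, hb⟩ := Metric.isOpen_iff.1 isOpen_interior x hx
  apply LinearMap.ext
  intro u
  set c := δ / 2 / (‖u‖ + 1) with hc
  have hc0 : 0 < c := by positivity
  have hcn : ‖c • u‖ < δ := by
    rw [norm_smul, Real.norm_eq_abs, abs_of_pos hc0, hc]
    have : δ / 2 / (‖u‖ + 1) * ‖u‖ ≤ δ / 2 := by
      rw [div_mul_eq_mul_div, div_le_iff₀ (by positivity)]
      nlinarith [norm_nonneg u]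
    linarith
  have h1 : x + c • u ∈ zono a := by
    apply interior_subset
    apply hb
    rw [Metric.mem_ball, dist_eq_norm, add_sub_cancel_left]
    exact hcn
  have h2 := hz _ h1
  rw [map_add, map_smul, hz x (interior_subset hx), zero_add, smul_eq_mul] at h2
  exact (mul_eq_zero.1 h2).resolve_left hc0.ne'

theorem base_add (a : Fin n → E3) (φ : E3 →ₗ[ℝ] ℝ) {i : Fin n} (h0 : φ (a i) = 0) :
    (∑ j, tp a φ (fun _ => 0) j • a j) + a i ∈ face (zono a) φ := by
  classical
  rw [mem_face_iff]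
  refine ⟨fun j => if j = i then 1 else tp a φ (fun _ => 0) j, ?_, ?_, ?_, ?_⟩
  · intro j
    dsimp only
    split_ifs
    · norm_num
    · exact tp_mem a φ _ j
  · intro j hj
    have hji : j ≠ i := by rintro rfl; rw [h0] at hj; exact lt_irrefl _ hj
    dsimp only
    rw [if_neg hji, tp_pos _ hj]
  · intro j hj
    have hji : j ≠ i := by rintro rfl; rw [h0] at hj; exact lt_irrefl _ hj
    dsimp only
    rw [if_neg hji, tp_neg _ hj]
  · have hti : tp a φ (fun _ => 0) i = 0 := by
      rw [tp_zero _ h0]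
      simp
    have h1 : ∀ j, (if j = i then (1 : ℝ) else tp a φ (fun _ => 0) j) • a j =
        tp a φ (fun _ => 0) j • a j + (if j = i then a j else 0) := by
      intro j
      split_ifs with h
      · rw [h, hti, one_smul, zero_smul, zero_add]
      · rw [add_zero]
    rw [Finset.sum_congr rfl (fun j _ => h1 j), Finset.sum_add_distrib]
    congr 1
    rw [Finset.sum_ite_eq' Finset.univ i a]
    simp

theorem facet_iff {a : Fin n → E3}
    (hind : ∀ i j, i ≠ j → LinearIndependent ℝ ![a i, a j]) (F : Set E3) :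
    IsFacet (zono a) F ↔ ∃ φ : E3 →ₗ[ℝ] ℝ, φ ≠ 0 ∧ F = face (zono a) φ ∧
      ∃ i j, i ≠ j ∧ φ (a i) = 0 ∧ φ (a j) = 0 := by
  classical
  constructor
  · rintro ⟨⟨φ, hφ, hF⟩, hn⟩
    refine ⟨φ, hφ, hF, ?_⟩
    by_contra hcon
    push Not at hcon
    apply hn
    rw [collinear_iff_exists_forall_eq_smul_vadd]
    have hFf : F = face (zono a) φ := hF
    by_cases h0 : ∃ i₀, φ (a i₀) = 0
    · obtain ⟨i₀, hi₀⟩ := h0
      refine ⟨∑ j, (if j = i₀ then 0 else tp a φ (fun _ => 0) j) • a j, a i₀, ?_⟩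
      intro x hx
      rw [hFf, mem_face_iff] at hx
      obtain ⟨t, ht, h1, h2, rfl⟩ := hx
      refine ⟨t i₀, ?_⟩
      rw [vadd_eq_add]
      have hj : ∀ j, t j • a j = (if j = i₀ then t i₀ • a i₀ else 0) +
          (if j = i₀ then (0 : ℝ) else tp a φ (fun _ => 0) j) • a j := by
        intro j
        by_cases h : j = i₀
        · rw [if_pos h, if_pos h, h, zero_smul, add_zero]
        · rw [if_neg h, if_neg h, zero_add]
          rcases lt_trichotomy (φ (a j)) 0 with k | k | k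
          · rw [h2 j k, tp_neg _ k]
          · exact absurd k (hcon i₀ j (Ne.symm h) hi₀)
          · rw [h1 j k, tp_pos _ k]
      rw [Finset.sum_congr rfl (fun j _ => hj j), Finset.sum_add_distrib]
      congr 1
      simp
    · push Not at h0
      refine ⟨∑ j, tp a φ (fun _ => 0) j • a j, 0, ?_⟩
      intro x hx
      rw [hFf, mem_face_iff] at hx
      obtain ⟨t, ht, h1, h2, rfl⟩ := hx
      refine ⟨0, ?_⟩
      rw [smul_zero, zero_vadd]
      apply Finset.sum_congr rfl
      intro j _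
      rcases lt_trichotomy (φ (a j)) 0 with k | k | k
      · rw [h2 j k, tp_neg _ k]
      · exact absurd k (h0 j)
      · rw [h1 j k, tp_pos _ k]
  · rintro ⟨φ, hφ, rfl, i, j, hij, h1, h2⟩
    refine ⟨⟨φ, hφ, rfl⟩, ?_⟩
    intro hc
    rw [collinear_iff_of_mem (tp_face a φ (fun _ => 0))] at hc
    obtain ⟨v, hv⟩ := hc
    obtain ⟨r, hr⟩ := hv _ (base_add a φ h1)
    obtain ⟨s, hs⟩ := hv _ (base_add a φ h2)
    rw [vadd_eq_add, add_comm, add_left_inj] at hr hs
    have hl := LinearIndependent.pair_iff.1 (hind i j hij) s (-r) (by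
      rw [hr, hs, smul_smul, smul_smul, ← add_smul]
      have : s * r + -r * s = 0 := by ring
      rw [this, zero_smul])
    have hr0 : r = 0 := by linarith [hl.2]
    rw [hr0, zero_smul] at hr
    have := LinearIndependent.pair_iff.1 (hind i j hij) 1 0 (by rw [hr]; simp)
    exact one_ne_zero this.1

theorem exists_normal {a : Fin n → E3} {i j : Fin n}
    (hind : LinearIndependent ℝ ![a i, a j]) :
    ∃ w : E3 →ₗ[ℝ] ℝ, w ≠ 0 ∧ w (a i) = 0 ∧ w (a j) = 0 ∧
      ∀ φ : E3 →ₗ[ℝ] ℝ, φ (a i) = 0 → φ (a j) = 0 → ∃ c : ℝ, φ = c • w := by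
  set K := Submodule.span ℝ (Set.range ![a i, a j]) with hK
  have hd : Module.finrank ℝ K = 2 := by
    rw [hK, finrank_span_eq_card hind]
    simp
  have hsum := Submodule.finrank_add_finrank_orthogonal K
  rw [hd, finrank_euclideanSpace_fin] at hsum
  have h1 : Module.finrank ℝ Kᗮ = 1 := by omega
  obtain ⟨w, hw0, hw⟩ := (finrank_eq_one_iff' (K := ℝ) (V := Kᗮ)).1 h1
  have hmem : ∀ u : E3, u ∈ Kᗮ ↔ (inner ℝ u (a i) = 0 ∧ inner ℝ u (a j) = 0) := by
    intro u
    rw [Submodule.mem_orthogonal']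
    constructor
    · intro h
      exact ⟨h _ (Submodule.subset_span ⟨0, rfl⟩), h _ (Submodule.subset_span ⟨1, rfl⟩)⟩
    · rintro ⟨k1, k2⟩ x hx
      have : K ≤ LinearMap.ker (innerSL ℝ u).toLinearMap := by
        rw [hK, Submodule.span_le]
        rintro _ ⟨m, rfl⟩
        fin_cases m
        · exact k1
        · exact k2
      exact this hx
  refine ⟨(innerSL ℝ (w : E3)).toLinearMap, ?_, ((hmem _).1 w.2).1, ((hmem _).1 w.2).2, ?_⟩
  · intro h
    apply hw0
    have h2 : inner ℝ (w : E3) (w : E3) = 0 := congrArg (fun f : E3 →ₗ[ℝ] ℝ => f w) h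
    exact Subtype.ext (inner_self_eq_zero.1 h2)
  · intro φ k1 k2
    set u : E3 := (InnerProductSpace.toDual ℝ E3).symm (LinearMap.toContinuousLinearMap φ) with hu
    have hux : ∀ x, inner ℝ u x = φ x := by
      intro x
      rw [hu, InnerProductSpace.toDual_symm_apply]
      rfl
    obtain ⟨c, hc⟩ := hw ⟨u, (hmem u).2 ⟨by rw [hux]; exact k1, by rw [hux]; exact k2⟩⟩
    refine ⟨c, ?_⟩
    apply LinearMap.ext
    intro x
    have hcu : c • (w : E3) = u := congrArg Subtype.val hc
    rw [← hux, ← hcu, real_inner_smul_left]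
    rfl

theorem face_pos (P : Set E3) (w : E3 →ₗ[ℝ] ℝ) {c : ℝ} (hc : 0 < c) :
    face P (c • w) = face P w := by
  ext x
  constructor
  · rintro ⟨h1, h2⟩
    refine ⟨h1, fun y hy => ?_⟩
    have := h2 y hy
    rw [LinearMap.smul_apply, LinearMap.smul_apply, smul_eq_mul, smul_eq_mul] at this
    exact le_of_mul_le_mul_left this hc
  · rintro ⟨h1, h2⟩
    refine ⟨h1, fun y hy => ?_⟩
    rw [LinearMap.smul_apply, LinearMap.smul_apply, smul_eq_mul, smul_eq_mul]
    exact mul_le_mul_of_nonneg_left (h2 y hy) hc.le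

/-- the facets parallel to two given generators -/
theorem two_facets {a : Fin n → E3} (hind : ∀ i j, i ≠ j → LinearIndependent ℝ ![a i, a j])
    (hi : (interior (zono a)).Nonempty) {i j : Fin n} (hij : i ≠ j) :
    ∃ w : E3 →ₗ[ℝ] ℝ, w ≠ 0 ∧ w (a i) = 0 ∧ w (a j) = 0 ∧
      face (zono a) w ≠ face (zono a) (-w) ∧
      ∀ F, (IsFacet (zono a) F ∧ Par (a i) F ∧ Par (a j) F) ↔
        (F = face (zono a) w ∨ F = face (zono a) (-w)) := by
  obtain ⟨w, hw0, h1, h2, hall⟩ := exists_normal (hind i j hij)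
  have hnw0 : -w ≠ 0 := neg_ne_zero.2 hw0
  have n1 : (-w) (a i) = 0 := by rw [LinearMap.neg_apply, h1, neg_zero]
  have n2 : (-w) (a j) = 0 := by rw [LinearMap.neg_apply, h2, neg_zero]
  refine ⟨w, hw0, h1, h2, ?_, ?_⟩
  · intro heq
    have hx := tp_face a w (fun _ => 0)
    set x := ∑ k, tp a w (fun _ => 0) k • a k with hxdef
    have hx' : x ∈ face (zono a) (-w) := heq ▸ hx
    have hconst : ∀ y ∈ zono a, w y = w x := by
      intro y hy
      have k1 := hx.2 y hy
      have k2 := hx'.2 y hy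
      rw [LinearMap.neg_apply, LinearMap.neg_apply] at k2
      linarith
    obtain ⟨k, hk⟩ := exists_nonzero hi hw0
    classical
    have m0 : (0 : E3) ∈ zono a := ⟨fun _ => 0, fun _ => ⟨le_rfl, zero_le_one⟩, by simp⟩
    have mk : a k ∈ zono a := by
      refine ⟨fun m => if m = k then 1 else 0, ?_, ?_⟩
      · intro m
        dsimp only
        split_ifs <;> norm_num
      · simp
    have e0 := hconst _ m0
    have ek := hconst _ mk
    rw [map_zero] at e0
    rw [← e0] at ek
    exact hk ek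
  · intro F
    constructor
    · rintro ⟨hF, p1, p2⟩
      obtain ⟨φ, hφ, rfl, -⟩ := (facet_iff hind F).1 hF
      rw [par_iff] at p1 p2
      obtain ⟨c, hc⟩ := hall φ p1 p2
      rcases lt_trichotomy c 0 with h | h | h
      · right
        have : c • w = (-c) • (-w) := by simp
        rw [hc, this]
        exact face_pos _ _ (by linarith)
      · exfalso
        rw [h, zero_smul] at hc
        exact hφ hc
      · left
        rw [hc]
        exact face_pos _ _ h
    · rintro (rfl | rfl)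
      · exact ⟨(facet_iff hind _).2 ⟨w, hw0, rfl, i, j, hij, h1, h2⟩, (par_iff a w i).2 h1,
          (par_iff a w j).2 h2⟩
      · exact ⟨(facet_iff hind _).2 ⟨-w, hnw0, rfl, i, j, hij, n1, n2⟩, (par_iff a (-w) i).2 n1,
          (par_iff a (-w) j).2 n2⟩

theorem facets_finite {a : Fin n → E3} (hind : ∀ i j, i ≠ j → LinearIndependent ℝ ![a i, a j])
    (hi : (interior (zono a)).Nonempty) : {F | IsFacet (zono a) F}.Finite := by
  have hch : ∀ p : Fin n × Fin n, ∃ w : E3 →ₗ[ℝ] ℝ, p.1 ≠ p.2 →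
      ∀ F, (IsFacet (zono a) F ∧ Par (a p.1) F ∧ Par (a p.2) F) →
        (F = face (zono a) w ∨ F = face (zono a) (-w)) := by
    intro p
    by_cases h : p.1 = p.2
    · exact ⟨0, fun hne => absurd h hne⟩
    · obtain ⟨w, -, -, -, -, hw⟩ := two_facets hind hi h
      exact ⟨w, fun _ F hF => (hw F).1 hF⟩
  choose w hw using hch
  have hsub : {F | IsFacet (zono a) F} ⊆
      ⋃ p : Fin n × Fin n, {face (zono a) (w p), face (zono a) (-(w p))} := by
    intro F hF
    obtain ⟨φ, hφ, hFφ, i, j, hij, h1, h2⟩ := (facet_iff hind F).1 hF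
    rw [mem_iUnion]
    refine ⟨(i, j), ?_⟩
    have := hw (i, j) hij F ⟨hF, by rw [hFφ]; exact (par_iff a φ i).2 h1,
      by rw [hFφ]; exact (par_iff a φ j).2 h2⟩
    rcases this with h | h
    · exact Or.inl h
    · exact Or.inr h
  exact (Set.finite_iUnion (fun p => Set.toFinite _)).subset hsub

end Pool.Agent.Lib.MP_f0132d_co.SF52
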